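import Pool.Agent.Lib.MP_492a9e_co.FV.Defs

/-!
# The counting inequality (CNT)
-/

open Finset WoodR

namespace WoodF

set_option linter.unusedSectionVars false

/-- the lengths add up to the sizes of the cuts -/
theorem sum_lenFC {V A : Type} [Fintype V] [DecidableEq V] [Fintype A] [DecidableEq A] {N : ℕ}
    (tl hd : A → V) (U : Fin N → Finset V) :
    ∑ a, lenF tl hd U a = ∑ i, (entr tl hd (U i)).card := by
  classical
  unfold lenF
  simp only [card_filter]
  rw [sum_comm]
  refine sum_congr rfl fun i _ => ?_
  rw [← card_filter]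
  congr 1
  ext a
  simp

theorem sum_gt_le {A : Type} [Fintype A] [DecidableEq A] (l : A → ℕ) (M : ℕ) :
    ∑ t ∈ range M, (univ.filter fun a => t < l a).card ≤ ∑ a, l a := by
  classical
  simp only [card_filter]
  rw [sum_comm]
  refine sum_le_sum fun a _ => ?_
  rw [← card_filter]
  calc ((range M).filter fun t => t < l a).card ≤ (range (l a)).card := by
        refine card_le_card fun t ht => ?_
        exact mem_range.2 (mem_filter.1 ht).2
    _ = l a := card_range _

theorem cnt (hB : SpecCNTB) (hC : SpecCNTC) : SpecCNT := by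
  intro V A _ _ _ _ tl hd r τ hτ h3 hcut N U hU hL M
  classical
  have h1 : ∀ t ∈ range M, 5 * (parts tl hd (lenF tl hd U) t).card ≤
      5 + 3 * (univ.filter fun a => t < lenF tl hd U a).card +
        (oparts tl hd r (lenF tl hd U) t).card := fun t _ =>
    hB V A tl hd r h3 (fun X a b c => hτ.trans (hcut X a b c)) _ t
  have h2 := sum_le_sum h1
  have h4 := hC V A tl hd r τ hτ h3 hcut N U hU hL M
  have h5 := sum_gt_le (lenF tl hd U) M
  rw [sum_lenFC] at h5
  rw [← mul_sum, sum_add_distrib, sum_add_distrib, sum_const, card_range, smul_eq_mul,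
    ← mul_sum] at h2
  rw [sum_add_distrib, sum_const, card_univ, Fintype.card_fin, smul_eq_mul, mul_one] at h4 ⊢
  rw [← mul_sum]
  omega

end WoodF
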