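import Pool.Agent.Lib.MP_492a9e_co.FV.Defs

/-!
# Counting, first half

`par1`, `par2`, `cntb` and `cnt_of : SpecCNTC → SpecCNT`. `A2`: `5 ∑_{t < M} κ_t ≤ 5 M + 3 ∑_i d(U_i) + ∑_{t < M} o_t`, where `κ_t` is the number of
components at time `t` and `o_t` is the number of the components without the root with exactly two
entering arcs and exactly one leaving arc.
-/

open Finset Matrix WoodR

namespace WoodF

set_option linter.unusedSectionVars false

section
variable {V A : Type} [Fintype V] [DecidableEq V] [Fintype A] [DecidableEq A]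

variable {tl hd : A → V} {l : A → ℕ} {r : V} {t : ℕ}

theorem mem_parts {C : Finset V} : C ∈ parts tl hd l t ↔ IsPart tl hd l t C := by
  classical
  simp [parts]

theorem mem_oparts {C : Finset V} :
    C ∈ oparts tl hd r l t ↔ IsPart tl hd l t C ∧ r ∉ C ∧ OTy tl hd C := by
  classical
  rw [oparts, mem_filter, mem_parts]

theorem lev_eq (tl hd : A → V) (C : Finset V) : lev tl hd C = entr tl hd Cᶜ := by
  ext a
  rw [lev, mem_filter, mem_entr, mem_compl, mem_compl, not_not]
  exact ⟨fun h => h.2, fun h => ⟨mem_univ _, h⟩⟩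

theorem part_sub {t' : ℕ} {C C' : Finset V} (ht : t ≤ t') (h : IsPart tl hd l t C)
    (h' : IsPart tl hd l t' C') {v : V} (hv : v ∈ C) (hv' : v ∈ C') : C ⊆ C' := by
  by_contra hne
  have hss : C ∩ C' ⊂ C := by
    refine ⟨inter_subset_left, fun hs => hne fun x hx => (mem_inter.1 (hs hx)).2⟩
  obtain ⟨a, ha, -, h2⟩ := h.2.2 (C ∩ C') ⟨v, mem_inter.2 ⟨hv, hv'⟩⟩ hss
  apply h2
  rw [mem_inter, mem_inter, h.2.1 a ha, h'.2.1 a (ha.trans ht)]

theorem part_eq {C C' : Finset V} (h : IsPart tl hd l t C) (h' : IsPart tl hd l t C') {v : V}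
    (hv : v ∈ C) (hv' : v ∈ C') : C = C' :=
  (part_sub le_rfl h h' hv hv').antisymm (part_sub le_rfl h' h hv' hv)

/-- an arc which enters or leaves a component is long -/
theorem part_long {C : Finset V} (h : IsPart tl hd l t C) {a : A} (ha : ¬(tl a ∈ C ↔ hd a ∈ C)) :
    t < l a := by
  by_contra hl
  exact ha (h.2.1 a (not_lt.1 hl))

theorem exists_part (tl hd : A → V) (l : A → ℕ) (t : ℕ) (v : V) :
    ∃ C, IsPart tl hd l t C ∧ v ∈ C := by
  classical
  let F : Finset (Finset V) := univ.filter fun C => v ∈ C ∧ ∀ a, l a ≤ t → (tl a ∈ C ↔ hd a ∈ C)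
  have hF : F.Nonempty := ⟨univ, by simp [F]⟩
  obtain ⟨C, hC, hmin⟩ := exists_min_image F (fun C => C.card) hF
  have hC' := (mem_filter.1 hC).2
  refine ⟨C, ⟨⟨v, hC'.1⟩, hC'.2, fun X hX hXC => ?_⟩, hC'.1⟩
  by_contra hno
  push Not at hno
  have hcl : ∀ a, l a ≤ t → (tl a ∈ X ↔ hd a ∈ X) := by
    intro a ha
    by_cases h : tl a ∈ C
    · exact hno a ha h
    · have h2 : hd a ∉ C := fun h3 => h ((hC'.2 a ha).2 h3)
      exact ⟨fun h3 => absurd (hXC.1 h3) h, fun h3 => absurd (hXC.1 h3) h2⟩
  by_cases hv : v ∈ X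
  · have := hmin X (mem_filter.2 ⟨mem_univ _, hv, hcl⟩)
    exact absurd (card_lt_card hXC) (not_lt.2 this)
  · have h1 := hmin (C \ X) (mem_filter.2 ⟨mem_univ _, mem_sdiff.2 ⟨hC'.1, hv⟩, fun a ha => by
      rw [mem_sdiff, mem_sdiff, hC'.2 a ha, hcl a ha]⟩)
    have h2 : (C \ X).card < C.card := by
      apply card_lt_card
      refine ⟨sdiff_subset, fun hs => ?_⟩
      obtain ⟨x, hx⟩ := hX
      exact (mem_sdiff.1 (hs (hXC.1 hx))).2 hx
    exact absurd h2 (not_lt.2 h1)

theorem card_crs (tl hd : A → V) (S : Finset V) :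
    (crs tl hd S).card = (entr tl hd S).card + (entr tl hd Sᶜ).card := by
  classical
  rw [← card_union_of_disjoint]
  · congr 1
    ext a
    simp only [crs, mem_filter, mem_univ, true_and, mem_union, mem_entr, mem_compl]
    tauto
  · rw [disjoint_left]
    intro a h1 h2
    rw [mem_entr] at h1 h2
    exact h2.1 (mem_compl.2 h1.1)

/-- one time step -/
theorem A1 (tl hd : A → V) (l : A → ℕ) (r : V) (t : ℕ) (h3 : Conn tl hd 3)
    (h5 : ∀ U : Finset V, U.Nonempty → U ≠ univ → Clo tl hd U → 5 ≤ (entr tl hd U).card) :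
    5 * (parts tl hd l t).card ≤
      5 + 3 * (univ.filter fun a => t < l a).card + (oparts tl hd r l t).card := by
  classical
  set P := parts tl hd l t with hP
  set Q := P.filter fun C => r ∉ C with hQ
  have hdis : ∀ C ∈ Q, ∀ C' ∈ Q, C ≠ C' → Disjoint C C' := by
    intro C hC C' hC' hne
    rw [disjoint_left]
    intro x hx hx'
    exact hne (part_eq (mem_parts.1 (mem_filter.1 hC).1) (mem_parts.1 (mem_filter.1 hC').1) hx hx')
  have hone : (P.filter fun C => ¬ r ∉ C).card ≤ 1 := by
    rw [card_le_one]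
    intro C hC C' hC'
    rw [mem_filter, not_not] at hC hC'
    exact part_eq (mem_parts.1 hC.1) (mem_parts.1 hC'.1) hC.2 hC'.2
  have hsum : P.card ≤ Q.card + 1 := by
    have h := card_filter_add_card_filter_not (s := P) fun C => r ∉ C
    rw [← hQ] at h
    omega
  have hin : ∑ C ∈ Q, (entr tl hd C).card ≤ (univ.filter fun a => t < l a).card := by
    rw [← card_biUnion]
    · apply card_le_card
      intro a ha
      obtain ⟨C, hC, ha⟩ := mem_biUnion.1 ha
      rw [mem_entr] at ha
      refine mem_filter.2 ⟨mem_univ _, part_long (mem_parts.1 (mem_filter.1 hC).1) ?_⟩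
      tauto
    · intro C hC C' hC' hne
      change Disjoint (entr tl hd C) (entr tl hd C')
      rw [disjoint_left]
      intro a ha ha'
      rw [mem_entr] at ha ha'
      exact disjoint_left.1 (hdis C hC C' hC' hne) ha.2 ha'.2
  have hout : ∑ C ∈ Q, (entr tl hd Cᶜ).card ≤ (univ.filter fun a => t < l a).card := by
    rw [← card_biUnion]
    · apply card_le_card
      intro a ha
      obtain ⟨C, hC, ha⟩ := mem_biUnion.1 ha
      rw [mem_entr, mem_compl, mem_compl, not_not] at ha
      refine mem_filter.2 ⟨mem_univ _, part_long (mem_parts.1 (mem_filter.1 hC).1) ?_⟩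
      tauto
    · intro C hC C' hC' hne
      change Disjoint (entr tl hd Cᶜ) (entr tl hd C'ᶜ)
      rw [disjoint_left]
      intro a ha ha'
      rw [mem_entr, mem_compl, mem_compl, not_not] at ha ha'
      exact disjoint_left.1 (hdis C hC C' hC' hne) ha.1 ha'.1
  have hone' : ∀ C ∈ Q, 5 ≤ (entr tl hd C).card + 2 * (entr tl hd Cᶜ).card +
      (if C ∈ oparts tl hd r l t then 1 else 0) := by
    intro C hC
    have hCp := mem_parts.1 (mem_filter.1 hC).1
    have hr := (mem_filter.1 hC).2
    have hne : C ≠ univ := fun h => hr (h ▸ mem_univ r)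
    have h1 := h3 C hCp.1 hne
    rw [card_crs] at h1
    rcases Nat.eq_zero_or_pos (entr tl hd Cᶜ).card with h0 | h0
    · have hclo : Clo tl hd C := by
        intro a ha
        by_contra h
        have : a ∈ entr tl hd Cᶜ := by
          rw [mem_entr, mem_compl, mem_compl, not_not]
          exact ⟨ha, h⟩
        rw [card_eq_zero.1 h0] at this
        exact notMem_empty _ this
      have := h5 C hCp.1 hne hclo
      omega
    · by_cases hO : C ∈ oparts tl hd r l t
      · rw [if_pos hO]
        have := mem_oparts.1 hO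
        rw [this.2.2.1, ← lev_eq, this.2.2.2]
      · rw [if_neg hO]
        have h4 : ¬((entr tl hd C).card = 2 ∧ (entr tl hd Cᶜ).card = 1) := fun h =>
          hO (mem_oparts.2 ⟨hCp, hr, h.1, (lev_eq tl hd C) ▸ h.2⟩)
        omega
  have htot : 5 * Q.card ≤ ∑ C ∈ Q, (entr tl hd C).card + 2 * ∑ C ∈ Q, (entr tl hd Cᶜ).card +
      (oparts tl hd r l t).card := by
    have h1 : ∑ C ∈ Q, 5 ≤ ∑ C ∈ Q, ((entr tl hd C).card + 2 * (entr tl hd Cᶜ).card +
      (if C ∈ oparts tl hd r l t then 1 else 0)) := sum_le_sum hone'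
    rw [sum_add_distrib, sum_add_distrib, ← mul_sum, sum_const, smul_eq_mul] at h1
    have h2 : ∑ C ∈ Q, (if C ∈ oparts tl hd r l t then 1 else 0) ≤ (oparts tl hd r l t).card := by
      rw [← card_filter]
      apply card_le_card
      intro C hC
      exact (mem_filter.1 hC).2
    omega
  omega

/-- summing the numbers of long arcs over time -/
theorem sum_long (l : A → ℕ) (M : ℕ) :
    ∑ t ∈ range M, (univ.filter fun a => t < l a).card ≤ ∑ a, l a := by
  classical
  simp only [card_filter]
  rw [sum_comm]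
  apply sum_le_sum
  intro a _
  rw [← card_filter]
  calc ((range M).filter fun t => t < l a).card ≤ (range (l a)).card := by
        apply card_le_card
        intro t ht
        exact mem_range.2 (mem_filter.1 ht).2
    _ = l a := card_range _

theorem sum_lenF {N : ℕ} (tl hd : A → V) (U : Fin N → Finset V) :
    ∑ a, lenF tl hd U a = ∑ i, (entr tl hd (U i)).card := by
  classical
  simp only [lenF, card_filter]
  rw [sum_comm]
  apply sum_congr rfl
  intro i _
  rw [← card_filter]
  congr 1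
  ext a
  simp

/-- all times -/
theorem A2 {N : ℕ} (tl hd : A → V) (U : Fin N → Finset V) (r : V) (M : ℕ) (h3 : Conn tl hd 3)
    (h5 : ∀ U : Finset V, U.Nonempty → U ≠ univ → Clo tl hd U → 5 ≤ (entr tl hd U).card) :
    5 * ∑ t ∈ range M, (parts tl hd (lenF tl hd U) t).card ≤
      5 * M + 3 * ∑ i, (entr tl hd (U i)).card +
        ∑ t ∈ range M, (oparts tl hd r (lenF tl hd U) t).card := by
  classical
  have h1 : ∑ t ∈ range M, 5 * (parts tl hd (lenF tl hd U) t).card ≤
      ∑ t ∈ range M, (5 + 3 * (univ.filter fun a => t < lenF tl hd U a).card +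
        (oparts tl hd r (lenF tl hd U) t).card) :=
    sum_le_sum fun t _ => A1 tl hd (lenF tl hd U) r t h3 h5
  rw [← mul_sum, sum_add_distrib, sum_add_distrib, ← mul_sum, sum_const, card_range,
    smul_eq_mul] at h1
  have h2 := sum_long (lenF tl hd U) M
  rw [sum_lenF] at h2
  omega

end

theorem par1 : SpecPAR1 := by
  intro V A _ _ _ _ tl hd l t t' C C' ht h h'
  by_cases hd' : Disjoint C C'
  · exact Or.inr hd'
  · rw [not_disjoint_iff] at hd'
    obtain ⟨v, hv, hv'⟩ := hd'
    exact Or.inl (part_sub ht h h' hv hv')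

theorem par2 : SpecPAR2 := by
  intro V A _ _ _ _ tl hd l t v
  obtain ⟨C, h, hv⟩ := exists_part tl hd l t v
  exact ⟨C, mem_parts.2 h, hv⟩

theorem cntb : SpecCNTB := by
  intro V A _ _ _ _ tl hd r h3 h5 l t
  exact A1 tl hd l r t h3 h5

theorem cnt_of (h : SpecCNTC) : SpecCNT := by
  intro V A _ _ _ _ tl hd r τ hτ h3 hcut N U hU hL M
  have h1 := h V A tl hd r τ hτ h3 hcut N U hU hL M
  have h2 := A2 tl hd U r M h3 fun U h1 h2 h3 => hτ.trans (hcut U h1 h2 h3)
  have h4 : ∑ i, (4 * (entr tl hd (U i)).card + 1) =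
      3 * ∑ i, (entr tl hd (U i)).card + ∑ i, ((entr tl hd (U i)).card + 1) := by
    rw [mul_sum, ← sum_add_distrib]
    exact sum_congr rfl fun i _ => by omega
  omega

end WoodF
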