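import Pool.Agent.Lib.MP_492a9e_co.FV.Defs

/-!
# The O-type parts of all times (CNTC)

`rk U v p` is the number of indices `j < p` with `v ∈ U j`. An O-type part `C` of time `t` claims
the index `p` if the maximum of `rk U (hd a) p` over the entering arcs `a` with head in `U p` is
`t`. Every O-type part claims an index, and an index has at most `d(U p) + 1 - τ` claimers.
-/

open Finset WoodR

namespace WoodF

set_option linter.unusedSectionVars false

section
variable {V A : Type} [Fintype V] [DecidableEq V] [Fintype A] [DecidableEq A] {N : ℕ}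

/-- the number of indices before `p` with `v` in the set -/
def rk (U : Fin N → Finset V) (v : V) (p : Fin N) : ℕ :=
  (univ.filter fun j => j < p ∧ v ∈ U j).card

theorem rk_mono (U : Fin N → Finset V) (v : V) {p q : Fin N} (h : p ≤ q) : rk U v p ≤ rk U v q := by
  refine card_le_card fun j hj => ?_
  rw [mem_filter] at hj ⊢
  exact ⟨mem_univ _, lt_of_lt_of_le hj.2.1 h, hj.2.2⟩

theorem exists_idx (U : Fin N → Finset V) (v : V) (t : ℕ)
    (h : t < (univ.filter fun j => v ∈ U j).card) : ∃ p, v ∈ U p ∧ rk U v p = t := by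
  classical
  have hne : (univ.filter fun j => v ∈ U j ∧ t ≤ rk U v j).Nonempty := by
    have h1 : (univ.filter fun j => v ∈ U j).Nonempty := card_pos.1 (by omega)
    refine ⟨(univ.filter fun j => v ∈ U j).max' h1, ?_⟩
    set q := (univ.filter fun j => v ∈ U j).max' h1 with hq
    have h2 : q ∈ univ.filter fun j => v ∈ U j := max'_mem _ h1
    rw [mem_filter] at h2 ⊢
    refine ⟨mem_univ _, h2.2, ?_⟩
    have h3 : (univ.filter fun j => v ∈ U j) ⊆ insert q (univ.filter fun j => j < q ∧ v ∈ U j) := by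
      intro j hj
      have h4 : j ≤ q := le_max' _ j hj
      rcases lt_or_eq_of_le h4 with h5 | h5
      · exact mem_insert_of_mem (mem_filter.2 ⟨mem_univ _, h5, (mem_filter.1 hj).2⟩)
      · exact h5 ▸ mem_insert_self _ _
    have h4 := (card_le_card h3).trans (card_insert_le _ _)
    unfold rk
    omega
  obtain ⟨p, hp, hmin⟩ := exists_min_image _ (fun j : Fin N => (j : ℕ)) hne
  rw [mem_filter] at hp
  refine ⟨p, hp.2.1, le_antisymm ?_ hp.2.2⟩
  by_contra hlt
  push Not at hlt
  have h1 : (univ.filter fun j => j < p ∧ v ∈ U j).Nonempty := card_pos.1 (by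
    unfold rk at hlt
    omega)
  set q := (univ.filter fun j => j < p ∧ v ∈ U j).max' h1 with hq
  have h2 : q ∈ univ.filter fun j => j < p ∧ v ∈ U j := max'_mem _ h1
  have h2' := (mem_filter.1 h2).2
  have h3 : (univ.filter fun j => j < p ∧ v ∈ U j) ⊆
      insert q (univ.filter fun j => j < q ∧ v ∈ U j) := by
    intro j hj
    have h4 : j ≤ q := le_max' _ j hj
    rcases lt_or_eq_of_le h4 with h5 | h5
    · exact mem_insert_of_mem (mem_filter.2 ⟨mem_univ _, h5, (mem_filter.1 hj).2.2⟩)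
    · exact h5 ▸ mem_insert_self _ _
  have h4 := (card_le_card h3).trans (card_insert_le _ _)
  have h5 : t ≤ rk U v q := by
    unfold rk at hlt ⊢
    omega
  have h6 := hmin q (mem_filter.2 ⟨mem_univ _, h2'.2, h5⟩)
  have h7 : (q : ℕ) < p := h2'.1
  omega

/-- an arc of length more than `t` crosses the first `t + 1` sets which contain its head -/
theorem cross {tl hd : A → V} {U : Fin N → Finset V} (hL : Lam U) {a : A} {t : ℕ}
    (hl : t < lenF tl hd U a) {p : Fin N} (hp : hd a ∈ U p) (hr : rk U (hd a) p ≤ t) :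
    tl a ∉ U p := by
  intro htl
  have h1 : lenF tl hd U a ≤ rk U (hd a) p := by
    unfold lenF rk
    refine card_le_card fun i hi => ?_
    rw [mem_filter, mem_entr] at hi
    rw [mem_filter]
    refine ⟨mem_univ _, ?_, hi.2.2⟩
    by_contra hlt
    push Not at hlt
    have h2 : U p ⊆ U i := by
      rcases hL.1 p i with h3 | h3 | h3
      · exact absurd hi.2.2 (Finset.disjoint_left.1 h3 hp)
      · exact h3
      · exact (eq_of_subset_of_card_le h3 (hL.2 p i hlt)) ▸ Finset.Subset.refl _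
    exact hi.2.1 (h2 htl)
  omega

/-- the part `C` of time `t` claims the index `p` -/
def Clm (tl hd : A → V) (r : V) (U : Fin N → Finset V) (p : Fin N) (t : ℕ) (C : Finset V) : Prop :=
  C ∈ oparts tl hd r (lenF tl hd U) t ∧ (∃ a ∈ entr tl hd C, hd a ∈ U p ∧ rk U (hd a) p = t) ∧
    ∀ a ∈ entr tl hd C, hd a ∈ U p → rk U (hd a) p ≤ t

theorem mem_opartsC {tl hd : A → V} {r : V} {l : A → ℕ} {t : ℕ} {C : Finset V} :
    C ∈ oparts tl hd r l t ↔ IsPart tl hd l t C ∧ r ∉ C ∧ OTy tl hd C := by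
  classical
  unfold oparts parts
  rw [mem_filter, mem_filter]
  exact ⟨fun h => ⟨h.1.2, h.2⟩, fun h => ⟨⟨mem_univ _, h.1⟩, h.2⟩⟩

theorem lt_len {tl hd : A → V} {l : A → ℕ} {t : ℕ} {C : Finset V} (h : IsPart tl hd l t C) {a : A}
    (ha : a ∈ entr tl hd C) : t < l a := by
  by_contra hlt
  push Not at hlt
  rw [mem_entr] at ha
  exact ha.1 ((h.2.1 a hlt).2 ha.2)

theorem exists_clm {tl hd : A → V} {r : V} {U : Fin N → Finset V} {t : ℕ} {C : Finset V}
    (hC : C ∈ oparts tl hd r (lenF tl hd U) t) : ∃ p, Clm tl hd r U p t C := by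
  classical
  have hC' := mem_opartsC.1 hC
  have h1 : ∀ a ∈ entr tl hd C, ∃ p, hd a ∈ U p ∧ rk U (hd a) p = t := by
    intro a ha
    refine exists_idx U (hd a) t (lt_of_lt_of_le (lt_len hC'.1 ha) ?_)
    unfold lenF
    refine card_le_card fun i hi => ?_
    rw [mem_filter, mem_entr] at hi
    exact mem_filter.2 ⟨mem_univ _, hi.2.2⟩
  have hne : (univ.filter fun p => ∃ a ∈ entr tl hd C, hd a ∈ U p ∧ rk U (hd a) p = t).Nonempty := by
    obtain ⟨a, ha⟩ : (entr tl hd C).Nonempty := card_pos.1 (by rw [hC'.2.2.1]; norm_num)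
    obtain ⟨p, hp⟩ := h1 a ha
    exact ⟨p, mem_filter.2 ⟨mem_univ _, a, ha, hp⟩⟩
  obtain ⟨p, hp, hmin⟩ := exists_min_image _ (fun j : Fin N => (j : ℕ)) hne
  refine ⟨p, hC, (mem_filter.1 hp).2, fun a ha hap => ?_⟩
  obtain ⟨q, hq⟩ := h1 a ha
  have h2 : (p : ℕ) ≤ q := hmin q (mem_filter.2 ⟨mem_univ _, a, ha, hq⟩)
  exact (rk_mono U (hd a) (p := p) (q := q) h2).trans hq.2.le

end

theorem cntc (hP : SpecPAR1) (hA : SpecCNTA) : SpecCNTC := by
  intro V A _ _ _ _ tl hd r τ hτ h3 hcut N U hU hL M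
  classical
  let K : Fin N → Finset (Finset V) := fun p => univ.filter fun C => ∃ t, Clm tl hd r U p t C
  have hK : ∀ p, τ + (K p).card ≤ (entr tl hd (U p)).card + 1 := by
    intro p
    refine hA V A tl hd r τ h3 hcut (U p) (hU p) (K p) ?_ ?_ ?_ ?_
    · intro C hC C' hC'
      obtain ⟨t, ht⟩ := (mem_filter.1 hC).2
      obtain ⟨t', ht'⟩ := (mem_filter.1 hC').2
      rcases le_total t t' with h | h
      · rcases hP V A tl hd _ t t' C C' h (mem_opartsC.1 ht.1).1 (mem_opartsC.1 ht'.1).1 with h1 | h1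
        · exact Or.inl h1
        · exact Or.inr (Or.inr h1)
      · rcases hP V A tl hd _ t' t C' C h (mem_opartsC.1 ht'.1).1 (mem_opartsC.1 ht.1).1 with h1 | h1
        · exact Or.inr (Or.inl h1)
        · exact Or.inr (Or.inr h1.symm)
    · intro C hC
      obtain ⟨t, ht⟩ := (mem_filter.1 hC).2
      exact (mem_opartsC.1 ht.1).2.2.2.le
    · intro C hC a ha hap
      obtain ⟨t, ht⟩ := (mem_filter.1 hC).2
      exact cross hL (lt_len (mem_opartsC.1 ht.1).1 ha) hap (ht.2.2 a ha hap)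
    · intro C hC
      obtain ⟨t, ht⟩ := (mem_filter.1 hC).2
      obtain ⟨a, ha, hap, har⟩ := ht.2.1
      refine ⟨a, ha, hap, fun C' hC' hss haC' => ?_⟩
      obtain ⟨t', ht'⟩ := (mem_filter.1 hC').2
      have h1 : t' < t := by
        by_contra hlt
        push Not at hlt
        rcases hP V A tl hd _ t t' C C' hlt (mem_opartsC.1 ht.1).1 (mem_opartsC.1 ht'.1).1 with h1 | h1
        · exact hss.2 h1
        · obtain ⟨x, hx⟩ := (mem_opartsC.1 ht'.1).1.1
          exact Finset.disjoint_left.1 h1 (hss.1 hx) hx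
      have h2 := ht'.2.2 a haC' hap
      omega
  have hS : ((range M).sigma fun t => oparts tl hd r (lenF tl hd U) t).card ≤
      ((univ : Finset (Fin N)).sigma K).card := by
    refine card_le_card_of_forall_subsingleton
      (fun x y => y.2 = x.2 ∧ Clm tl hd r U y.1 x.1 x.2) ?_ ?_
    · rintro ⟨t, C⟩ hx
      rw [mem_sigma] at hx
      obtain ⟨p, hp⟩ := exists_clm hx.2
      exact ⟨⟨p, C⟩, mem_sigma.2 ⟨mem_univ _, mem_filter.2 ⟨mem_univ _, t, hp⟩⟩, rfl, hp⟩
    · rintro ⟨p, C⟩ _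
      rintro ⟨t, C1⟩ ⟨_, h1, h2⟩ ⟨t', C2⟩ ⟨_, h1', h2'⟩
      dsimp only at h1 h2 h1' h2'
      subst h1
      subst h1'
      obtain ⟨a, ha, hap, har⟩ := h2.2.1
      obtain ⟨a', ha', hap', har'⟩ := h2'.2.1
      have h3 := h2.2.2 a' ha' hap'
      have h4 := h2'.2.2 a ha hap
      have h5 : t = t' := by omega
      rw [h5]
  rw [card_sigma, card_sigma] at hS
  have h5 : ∑ p : Fin N, (τ + (K p).card) ≤ ∑ p, ((entr tl hd (U p)).card + 1) :=
    sum_le_sum fun p _ => hK p
  rw [sum_add_distrib, sum_const, card_univ, Fintype.card_fin, smul_eq_mul] at h5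
  omega

end WoodF
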