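import Pool.Agent.Lib.MP_492a9e_co.FV.Defs4
import Pool.Agent.Lib.MP_492a9e_co.FV.CNTB

/-!
# Degrees of the parts

`deg : SpecDEG`. A part without the root has at least four arcs on its boundary, unless it has
exactly two entering arcs and one leaving arc or conversely; the part of the root has at least
three if it is not everything.
-/

open Finset Matrix WoodR

namespace WoodF

set_option linter.unusedSectionVars false

section
variable {V A : Type} [Fintype V] [DecidableEq V] [Fintype A] [DecidableEq A]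
variable {tl hd : A → V} {l : A → ℕ} {r : V} {t : ℕ}

theorem isPart_rev {C : Finset V} (h : IsPart tl hd l t C) : IsPart hd tl l t C := by
  refine ⟨h.1, fun a ha => (h.2.1 a ha).symm, fun X hX hXC => ?_⟩
  obtain ⟨a, h1, h2, h3⟩ := h.2.2 X hX hXC
  exact ⟨a, h1, (h.2.1 a h1).1 h2, fun h4 => h3 h4.symm⟩

theorem entr_compl (tl hd : A → V) (C : Finset V) : entr tl hd Cᶜ = entr hd tl C := by
  ext a
  rw [mem_entr, mem_entr, mem_compl, mem_compl, not_not]
  tauto

theorem lev_rev (tl hd : A → V) (C : Finset V) : lev hd tl C = entr tl hd C := by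
  ext a
  rw [lev, mem_filter, mem_entr]
  exact ⟨fun h => ⟨h.2.2, h.2.1⟩, fun h => ⟨mem_univ _, h.2, h.1⟩⟩

/-- the two orientations at one part without the root -/
theorem deg_part (h3 : Conn tl hd 3) (h4 : Dic tl hd 4) {C : Finset V}
    (hC : IsPart tl hd l t C) (hr : r ∉ C) :
    4 ≤ (entr tl hd C).card + (entr tl hd Cᶜ).card +
      ((if C ∈ oparts tl hd r l t then 1 else 0) + (if C ∈ oparts hd tl r l t then 1 else 0)) := by
  classical
  have hne : C ≠ univ := fun h => hr (h ▸ mem_univ r)
  have h1 := h3 C hC.1 hne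
  rw [card_crs] at h1
  have hout : (entr tl hd Cᶜ).card = 0 → 4 ≤ (entr tl hd C).card := by
    intro h0
    refine h4 C hC.1 hne fun a ha => ?_
    by_contra h
    have : a ∈ entr tl hd Cᶜ := by
      rw [mem_entr, mem_compl, mem_compl, not_not]
      exact ⟨ha, h⟩
    rw [card_eq_zero.1 h0] at this
    exact notMem_empty _ this
  have hin : (entr tl hd C).card = 0 → 4 ≤ (entr tl hd Cᶜ).card := by
    intro h0
    refine h4 Cᶜ ⟨r, mem_compl.2 hr⟩ (fun h => ?_) fun a ha => ?_
    · obtain ⟨v, hv⟩ := hC.1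
      exact mem_compl.1 (h ▸ mem_univ v) hv
    · by_contra h
      rw [mem_compl] at ha
      rw [mem_compl, not_not] at h
      have : a ∈ entr tl hd C := mem_entr.2 ⟨ha, h⟩
      rw [card_eq_zero.1 h0] at this
      exact notMem_empty _ this
  have hO : (entr tl hd C).card = 2 → (entr tl hd Cᶜ).card = 1 → C ∈ oparts tl hd r l t :=
    fun h h' => mem_oparts.2 ⟨hC, hr, h, (lev_eq tl hd C) ▸ h'⟩
  have hI : (entr tl hd C).card = 1 → (entr tl hd Cᶜ).card = 2 → C ∈ oparts hd tl r l t := by
    intro h h'
    refine mem_oparts.2 ⟨isPart_rev hC, hr, ?_, ?_⟩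
    · rw [← entr_compl, h']
    · rw [lev_rev, h]
  split_ifs with h5 h6 h6
  · omega
  · omega
  · omega
  · have h7 : ¬((entr tl hd C).card = 2 ∧ (entr tl hd Cᶜ).card = 1) := fun h => h5 (hO h.1 h.2)
    have h8 : ¬((entr tl hd C).card = 1 ∧ (entr tl hd Cᶜ).card = 2) := fun h => h6 (hI h.1 h.2)
    omega

/-- one time step -/
theorem deg_time (tl hd : A → V) (l : A → ℕ) (r : V) (t : ℕ) (h3 : Conn tl hd 3)
    (h4 : Dic tl hd 4) :
    4 * (parts tl hd l t).card + (if 2 ≤ (parts tl hd l t).card then 3 else 0) ≤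
      4 + 2 * (univ.filter fun a => t < l a).card + (oparts tl hd r l t).card +
        (oparts hd tl r l t).card := by
  classical
  set P := parts tl hd l t with hP
  split_ifs with h2
  swap
  · omega
  have hdis : ∀ C ∈ P, ∀ C' ∈ P, C ≠ C' → Disjoint C C' := by
    intro C hC C' hC' hne
    rw [disjoint_left]
    intro x hx hx'
    exact hne (part_eq (mem_parts.1 hC) (mem_parts.1 hC') hx hx')
  have hin : ∑ C ∈ P, (entr tl hd C).card ≤ (univ.filter fun a => t < l a).card := by
    rw [← card_biUnion]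
    · apply card_le_card
      intro a ha
      obtain ⟨C, hC, ha⟩ := mem_biUnion.1 ha
      rw [mem_entr] at ha
      refine mem_filter.2 ⟨mem_univ _, part_long (mem_parts.1 hC) ?_⟩
      tauto
    · intro C hC C' hC' hne
      change Disjoint (entr tl hd C) (entr tl hd C')
      rw [disjoint_left]
      intro a ha ha'
      rw [mem_entr] at ha ha'
      exact disjoint_left.1 (hdis C hC C' hC' hne) ha.2 ha'.2
  have hout : ∑ C ∈ P, (entr tl hd Cᶜ).card ≤ (univ.filter fun a => t < l a).card := by
    rw [← card_biUnion]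
    · apply card_le_card
      intro a ha
      obtain ⟨C, hC, ha⟩ := mem_biUnion.1 ha
      rw [mem_entr, mem_compl, mem_compl, not_not] at ha
      refine mem_filter.2 ⟨mem_univ _, part_long (mem_parts.1 hC) ?_⟩
      tauto
    · intro C hC C' hC' hne
      change Disjoint (entr tl hd Cᶜ) (entr tl hd C'ᶜ)
      rw [disjoint_left]
      intro a ha ha'
      rw [mem_entr, mem_compl, mem_compl, not_not] at ha ha'
      exact disjoint_left.1 (hdis C hC C' hC' hne) ha.1 ha'.1
  obtain ⟨C0, hC0, hr0⟩ := exists_part tl hd l t r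
  have hC0P : C0 ∈ P := mem_parts.2 hC0
  have hC0ne : C0 ≠ univ := by
    intro h
    have h1 : P.card ≤ 1 := by
      rw [card_le_one]
      intro C hC C' hC'
      obtain ⟨v, hv⟩ := (mem_parts.1 hC).1
      obtain ⟨v', hv'⟩ := (mem_parts.1 hC').1
      have e1 := part_eq (mem_parts.1 hC) hC0 hv (h ▸ mem_univ v)
      have e2 := part_eq (mem_parts.1 hC') hC0 hv' (h ▸ mem_univ v')
      rw [e1, e2]
    omega
  have hroot : 3 ≤ (entr tl hd C0).card + (entr tl hd C0ᶜ).card := by
    have := h3 C0 hC0.1 hC0ne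
    rwa [card_crs] at this
  have hother : ∀ C ∈ P.erase C0, 4 ≤ (entr tl hd C).card + (entr tl hd Cᶜ).card +
      ((if C ∈ oparts tl hd r l t then 1 else 0) +
        (if C ∈ oparts hd tl r l t then 1 else 0)) := by
    intro C hC
    rw [mem_erase] at hC
    exact deg_part h3 h4 (mem_parts.1 hC.2) fun hr =>
      hC.1 (part_eq (mem_parts.1 hC.2) hC0 hr hr0)
  have h5 : ∑ C ∈ P.erase C0, 4 ≤ ∑ C ∈ P.erase C0,
      ((entr tl hd C).card + (entr tl hd Cᶜ).card +
      ((if C ∈ oparts tl hd r l t then 1 else 0) +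
        (if C ∈ oparts hd tl r l t then 1 else 0))) := sum_le_sum hother
  rw [sum_add_distrib, sum_add_distrib, sum_add_distrib, sum_const, smul_eq_mul,
    card_erase_of_mem hC0P] at h5
  have h6 : ∑ C ∈ P.erase C0, (if C ∈ oparts tl hd r l t then 1 else 0) ≤
      (oparts tl hd r l t).card := by
    rw [← card_filter]
    exact card_le_card fun C hC => (mem_filter.1 hC).2
  have h7 : ∑ C ∈ P.erase C0, (if C ∈ oparts hd tl r l t then 1 else 0) ≤
      (oparts hd tl r l t).card := by
    rw [← card_filter]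
    exact card_le_card fun C hC => (mem_filter.1 hC).2
  rw [← add_sum_erase P _ hC0P] at hin hout
  omega

end

theorem deg : SpecDEG := by
  intro V A _ _ _ _ tl hd r h3 h4 l M
  classical
  have h1 : ∑ t ∈ range M, (4 * (parts tl hd l t).card +
      (if 2 ≤ (parts tl hd l t).card then 3 else 0)) ≤
      ∑ t ∈ range M, (4 + 2 * (univ.filter fun a => t < l a).card +
        (oparts tl hd r l t).card + (oparts hd tl r l t).card) :=
    sum_le_sum fun t _ => deg_time tl hd l r t h3 h4
  have h2 : ∑ t ∈ range M, (if 2 ≤ (parts tl hd l t).card then 3 else 0) =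
      3 * ((range M).filter fun t => 2 ≤ (parts tl hd l t).card).card := by
    rw [← sum_filter, sum_const, smul_eq_mul, mul_comm]
  rw [sum_add_distrib, sum_add_distrib, sum_add_distrib, sum_add_distrib, ← mul_sum, ← mul_sum,
    sum_const, card_range, smul_eq_mul, h2] at h1
  have h5 := sum_long l M
  omega

end WoodF
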