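import Pool.Agent.Lib.MP_492a9e_co.FV.Defs
import Pool.Agent.Lib.MP_492a9e_co.R.Arcs

/-!
# One fourth of the minimum directed cut: module statements

Paper proof: `MP_492a9e_FOUR.md`. Every digraph whose directed cuts have at least `4 m - 3` arcs
has `m` disjoint dijoins. Definitions and the modules LAP, CV, KRU, UNC, RED are those of `Defs`.
-/

open Finset Matrix WoodR

namespace WoodF

set_option linter.unusedSectionVars false

section
variable {V A : Type} [Fintype V] [DecidableEq V] [Fintype A] [DecidableEq A]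

/-- `B` contains an arc of every directed cut of a closed set without the root -/
def Cov (tl hd : A → V) (r : V) (B : Finset A) : Prop :=
  ∀ U ∈ F0 tl hd r, ∃ a ∈ B, a ∈ entr tl hd U

/-- all directed cuts have at least `τ` arcs -/
def Dic (tl hd : A → V) (τ : ℕ) : Prop :=
  ∀ U : Finset V, U.Nonempty → U ≠ univ → Clo tl hd U → τ ≤ (entr tl hd U).card

end

/-- LPI: minimise `log det + δ ∑ n i (b i + ε)`; the sets of arcs `D i` are arbitrary -/
def SpecLPI : Prop :=
  ∀ (V A I : Type) [Fintype V] [DecidableEq V] [Fintype A] [DecidableEq A] [Fintype I]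
    [DecidableEq I] (tl hd : A → V) (r : V) (D : I → Finset A) (b : I → ℝ), Conn tl hd 1 →
    (∀ n : I → ℕ, ∃ e : Wr r → A, Bas tl hd r e ∧
      ((∑ v, ∑ i, (if e v ∈ D i then n i else 0) : ℕ) : ℝ) ≤ ∑ i, n i * b i) →
    ∀ ε : ℝ, 0 < ε → ∃ c : A → ℝ, (∀ a, 0 < c a) ∧
      ∀ i, ∑ a ∈ D i, Pr tl hd r c a ≤ b i + ε

/-- OTY: the number of the parts of type (2, 1); `l` may be larger than the length of the
laminar family -/
def SpecOTY : Prop :=
  ∀ (V A : Type) [Fintype V] [DecidableEq V] [Fintype A] [DecidableEq A] (tl hd : A → V) (r : V)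
    (τ : ℕ), 4 ≤ τ → Conn tl hd 3 → Dic tl hd τ →
    ∀ (N : ℕ) (U : Fin N → Finset V), (∀ i, U i ∈ F0 tl hd r) → Lam U →
    ∀ l : A → ℕ, (∀ a, lenF tl hd U a ≤ l a) → ∀ M : ℕ,
      ∑ t ∈ range M, (oparts tl hd r l t).card + N * τ ≤ ∑ a, l a + N

/-- DEG: counting degrees of the parts -/
def SpecDEG : Prop :=
  ∀ (V A : Type) [Fintype V] [DecidableEq V] [Fintype A] [DecidableEq A] (tl hd : A → V) (r : V),
    Conn tl hd 3 → Dic tl hd 4 → ∀ (l : A → ℕ) (M : ℕ),
      4 * ∑ t ∈ range M, (parts tl hd l t).card +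
        3 * ((range M).filter fun t => 2 ≤ (parts tl hd l t).card).card ≤
      4 * M + 2 * ∑ a, l a + ∑ t ∈ range M, (oparts tl hd r l t).card +
        ∑ t ∈ range M, (oparts hd tl r l t).card

/-- COV: a cover and a packing of the same weight -/
def SpecCOV : Prop :=
  ∀ (V A : Type) [Fintype V] [DecidableEq V] [Fintype A] [DecidableEq A] (tl hd : A → V) (r : V),
    Conn tl hd 1 → ∀ l : A → ℕ, ∃ (B : Finset A) (n : Finset V → ℕ), Cov tl hd r B ∧
      (∀ a, len tl hd r n a ≤ l a) ∧ ∑ a ∈ B, l a ≤ ∑ X ∈ F0 tl hd r, n X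

/-- SEP: a convex combination of the vectors `y i` is at most `1` in all coordinates -/
def SpecSEP : Prop :=
  ∀ (A I : Type) [Fintype A] [Fintype I] [Nonempty I] (y : I → A → ℝ),
    (∀ l : A → ℕ, ∃ i, ∑ a, l a * y i a ≤ ∑ a, (l a : ℝ)) →
    ∃ w : I → ℝ, (∀ i, 0 ≤ w i) ∧ ∑ i, w i = 1 ∧ ∀ a, ∑ i, w i * y i a ≤ 1

/-- END4: the theorem for 3-edge-connected graphs -/
def SpecEND4 : Prop :=
  ∀ (V A : Type) [Fintype V] [DecidableEq V] [Fintype A] [DecidableEq A] (tl hd : A → V) (m : ℕ),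
    Conn tl hd 3 → WoodArc.CutGe tl hd (4 * m - 3) → WoodArc.Dij tl hd m

end WoodF
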