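import Mathlib

/-!
Linear algebra for weighted Laplacians `lap b c = ∑ c a • b a (b a)ᵀ`
(grounded at a root, so that it is positive definite).
-/

open scoped Matrix
open Matrix

set_option linter.unusedSectionVars false

namespace WoodFV

section Gen

variable {n : Type*} [Fintype n] [DecidableEq n]

open scoped MatrixOrder ComplexOrder in
/-- every real positive definite matrix is `Bᵀ B` with `B` invertible -/
theorem exists_factor {M : Matrix n n ℝ} (hM : M.PosDef) :
    ∃ B : Matrix n n ℝ, M = Bᴴ * B ∧ IsUnit B.det := by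
  obtain ⟨B, hB⟩ := CStarAlgebra.nonneg_iff_eq_star_mul_self.mp hM.posSemidef.nonneg
  refine ⟨B, hB, ?_⟩
  have h1 : M.det ≠ 0 := hM.det_pos.ne'
  rw [hB, star_eq_conjTranspose, det_mul] at h1
  exact isUnit_iff_ne_zero.mpr (right_ne_zero_of_mul h1)

theorem det_le_exp_of_posSemidef {K : Matrix n n ℝ} (hK : K.PosSemidef) :
    K.det ≤ Real.exp (K.trace - Fintype.card n) := by
  rw [hK.isHermitian.det_eq_prod_eigenvalues, hK.isHermitian.trace_eq_sum_eigenvalues]
  have h1 : (∑ i, ((hK.isHermitian.eigenvalues i : ℝ))) - (Fintype.card n : ℝ) =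
      ∑ i, (hK.isHermitian.eigenvalues i - 1) := by
    rw [Finset.sum_sub_distrib]; simp
  have h2 : ((∑ i, ((hK.isHermitian.eigenvalues i : ℝ) : ℝ)) : ℝ) - (Fintype.card n : ℝ) =
      ∑ i, (hK.isHermitian.eigenvalues i - 1) := h1
  simp only [RCLike.ofReal_real_eq_id, id_eq]
  rw [h2, Real.exp_sum]
  refine Finset.prod_le_prod (fun i _ => hK.eigenvalues_nonneg i) fun i _ => ?_
  have := Real.add_one_le_exp (hK.isHermitian.eigenvalues i - 1)
  linarith

/-- `det X ≤ det M · exp (tr (M⁻¹ X) - n)` for `M` positive definite, `X` positive semidefinite -/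
theorem det_le_det_mul_exp {M X : Matrix n n ℝ} (hM : M.PosDef) (hX : X.PosSemidef) :
    X.det ≤ M.det * Real.exp ((M⁻¹ * X).trace - Fintype.card n) := by
  obtain ⟨B, hB, hu⟩ := exists_factor hM
  have hu' : IsUnit Bᴴ.det := by rw [det_conjTranspose]; exact hu.star
  set K := (B⁻¹)ᴴ * X * B⁻¹ with hKdef
  have hK : K.PosSemidef := hX.conjTranspose_mul_mul_same B⁻¹
  have hXK : X = Bᴴ * K * B := by
    rw [hKdef]
    have e1 : Bᴴ * (B⁻¹)ᴴ = 1 := by
      rw [← conjTranspose_mul, nonsing_inv_mul _ hu, conjTranspose_one]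
    calc X = 1 * X * 1 := by simp
      _ = (Bᴴ * (B⁻¹)ᴴ) * X * (B⁻¹ * B) := by rw [e1, nonsing_inv_mul _ hu]
      _ = Bᴴ * ((B⁻¹)ᴴ * X * B⁻¹) * B := by simp only [Matrix.mul_assoc]
  have hdet : X.det = M.det * K.det := by
    rw [hXK, hB]
    simp only [det_mul]
    ring
  have htr : K.trace = (M⁻¹ * X).trace := by
    have e2 : M⁻¹ = B⁻¹ * (B⁻¹)ᴴ := by
      rw [hB, Matrix.mul_inv_rev, conjTranspose_nonsing_inv]
    rw [hKdef, e2, Matrix.trace_mul_comm, ← Matrix.mul_assoc]
  rw [hdet, ← htr]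
  exact mul_le_mul_of_nonneg_left (det_le_exp_of_posSemidef hK) hM.det_pos.le

end Gen

section Lap

variable {n : Type*} [Fintype n] [DecidableEq n] {A : Type*} [Fintype A]

/-- weighted Laplacian of a family of vectors -/
def lap (b : A → n → ℝ) (c : A → ℝ) : Matrix n n ℝ :=
  ∑ a, c a • vecMulVec (b a) (b a)

/-- effective resistance of the vector `b a` -/
noncomputable def Rr (b : A → n → ℝ) (c : A → ℝ) (a : A) : ℝ :=
  b a ⬝ᵥ ((lap b c)⁻¹ *ᵥ b a)

/-- conductance times effective resistance -/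
noncomputable def Pr (b : A → n → ℝ) (c : A → ℝ) (a : A) : ℝ := c a * Rr b c a

variable (b : A → n → ℝ)

theorem lap_mulVec (c : A → ℝ) (x : n → ℝ) :
    lap b c *ᵥ x = ∑ a, (c a * (b a ⬝ᵥ x)) • b a := by
  ext v
  simp only [lap, Matrix.sum_mulVec, Finset.sum_apply, Pi.smul_apply, smul_eq_mul]
  refine Finset.sum_congr rfl fun a _ => ?_
  rw [smul_mulVec, Pi.smul_apply, smul_eq_mul]
  simp only [Matrix.mulVec, dotProduct, vecMulVec_apply, Finset.mul_sum, Finset.sum_mul]
  refine Finset.sum_congr rfl fun w _ => ?_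
  ring

theorem dot_lap (c : A → ℝ) (x y : n → ℝ) :
    y ⬝ᵥ (lap b c *ᵥ x) = ∑ a, c a * (b a ⬝ᵥ x) * (b a ⬝ᵥ y) := by
  rw [lap_mulVec, dotProduct_sum]
  refine Finset.sum_congr rfl fun a _ => ?_
  rw [dotProduct_smul, smul_eq_mul, dotProduct_comm y]

theorem lap_isHermitian (c : A → ℝ) : (lap b c).IsHermitian := by
  unfold lap Matrix.IsHermitian
  rw [conjTranspose_sum]
  refine Finset.sum_congr rfl fun a _ => ?_
  ext i j
  simp [vecMulVec_apply, mul_comm]

theorem lap_posSemidef {c : A → ℝ} (hc : ∀ a, 0 ≤ c a) : (lap b c).PosSemidef := by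
  refine PosSemidef.of_dotProduct_mulVec_nonneg (lap_isHermitian b c) fun x => ?_
  simp only [star_trivial]
  rw [dot_lap]
  exact Finset.sum_nonneg fun a _ => by
    rw [mul_assoc]; exact mul_nonneg (hc a) (mul_self_nonneg _)

theorem lap_posDef {c : A → ℝ} (hc : ∀ a, 0 < c a)
    (hs : ∀ x : n → ℝ, (∀ a, b a ⬝ᵥ x = 0) → x = 0) : (lap b c).PosDef := by
  refine PosDef.of_dotProduct_mulVec_pos (lap_isHermitian b c) fun x hx => ?_
  simp only [star_trivial]
  rw [dot_lap]
  have hex : ∃ a, b a ⬝ᵥ x ≠ 0 := by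
    by_contra h
    push Not at h
    exact hx (hs x h)
  obtain ⟨a0, ha0⟩ := hex
  refine Finset.sum_pos' (fun a _ => ?_) ⟨a0, Finset.mem_univ _, ?_⟩
  · rw [mul_assoc]; exact mul_nonneg (hc a).le (mul_self_nonneg _)
  · rw [mul_assoc]; exact mul_pos (hc a0) (mul_self_pos.mpr ha0)

theorem Rr_nonneg {c : A → ℝ} (hL : (lap b c).PosDef) (a : A) : 0 ≤ Rr b c a := by
  have := hL.inv.posSemidef.dotProduct_mulVec_nonneg (b a)
  simpa [Rr] using this

theorem Pr_nonneg {c : A → ℝ} (hc : ∀ a, 0 ≤ c a) (hL : (lap b c).PosDef) (a : A) :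
    0 ≤ Pr b c a := mul_nonneg (hc a) (Rr_nonneg b hL a)

theorem trace_mul_lap (N : Matrix n n ℝ) (c : A → ℝ) :
    (N * lap b c).trace = ∑ a, c a * (b a ⬝ᵥ (N *ᵥ b a)) := by
  unfold lap
  rw [Matrix.mul_sum, trace_sum]
  refine Finset.sum_congr rfl fun a _ => ?_
  rw [Matrix.mul_smul, trace_smul, smul_eq_mul]
  congr 1
  rw [Matrix.mul_vecMulVec, trace_vecMulVec, dotProduct_comm]

/-- the fundamental determinant inequality: changing the conductances from `c` to `c'` -/
theorem det_lap_le {c c' : A → ℝ} (hL : (lap b c).PosDef) (hc' : ∀ a, 0 ≤ c' a) :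
    (lap b c').det ≤ (lap b c).det * Real.exp (-∑ a, (c a - c' a) * Rr b c a) := by
  have h := det_le_det_mul_exp hL (lap_posSemidef b hc')
  have e1 : ((lap b c)⁻¹ * lap b c).trace = (Fintype.card n : ℝ) := by
    rw [nonsing_inv_mul _ (isUnit_iff_ne_zero.mpr hL.det_pos.ne'), trace_one]
  rw [trace_mul_lap] at e1 h
  have e2 : (∑ a, c' a * (b a ⬝ᵥ ((lap b c)⁻¹ *ᵥ b a))) - (Fintype.card n : ℝ) =
      -∑ a, (c a - c' a) * Rr b c a := by
    rw [← e1, ← Finset.sum_sub_distrib, ← Finset.sum_neg_distrib]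
    refine Finset.sum_congr rfl fun a _ => ?_
    simp only [Rr]; ring
  rwa [e2] at h

/-- scaling the conductances in `D` by `1 - s` -/
theorem det_lap_scale {c : A → ℝ} (hc : ∀ a, 0 ≤ c a) (hL : (lap b c).PosDef)
    (D : A → Prop) [DecidablePred D] {s : ℝ} (hs1 : s ≤ 1) :
    (lap b fun a => if D a then (1 - s) * c a else c a).det ≤
      (lap b c).det * Real.exp (-(s * ∑ a with D a, Pr b c a)) := by
  have h := det_lap_le b (c' := fun a => if D a then (1 - s) * c a else c a) hL (fun a => by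
    show 0 ≤ (if D a then (1 - s) * c a else c a)
    split
    · exact mul_nonneg (by linarith) (hc a)
    · exact hc a)
  have e : ∑ a, (c a - (if D a then (1 - s) * c a else c a)) * Rr b c a =
      s * ∑ a with D a, Pr b c a := by
    rw [Finset.mul_sum, Finset.sum_filter]
    refine Finset.sum_congr rfl fun a _ => ?_
    split
    · simp only [Pr]; ring
    · ring
  rwa [e] at h

/-- monotonicity of the determinant -/
theorem det_lap_mono {c c' : A → ℝ} (hL : (lap b c).PosDef) (hc' : ∀ a, 0 ≤ c' a)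
    (hle : ∀ a, c' a ≤ c a) : (lap b c').det ≤ (lap b c).det := by
  refine (det_lap_le b hL hc').trans ?_
  have h1 : 0 ≤ ∑ a, (c a - c' a) * Rr b c a :=
    Finset.sum_nonneg fun a _ => mul_nonneg (by linarith [hle a]) (Rr_nonneg b hL a)
  calc (lap b c).det * Real.exp (-∑ a, (c a - c' a) * Rr b c a)
      ≤ (lap b c).det * 1 := by
        refine mul_le_mul_of_nonneg_left ?_ hL.det_pos.le
        rw [Real.exp_le_one_iff]; linarith
    _ = (lap b c).det := mul_one _

/-- the Laplacian of a basis -/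
theorem lap_basis_eq (e : n → A) (he : Function.Injective e) (c : A → ℝ) [DecidableEq A] :
    lap b (fun a => if a ∈ Finset.univ.image e then c a else 0) =
      (Matrix.of fun v => b (e v))ᵀ * diagonal (fun v => c (e v)) * Matrix.of fun v => b (e v) := by
  have h1 : lap b (fun a => if a ∈ Finset.univ.image e then c a else 0) =
      ∑ v, c (e v) • vecMulVec (b (e v)) (b (e v)) := by
    unfold lap
    have : ∀ a, (if a ∈ Finset.univ.image e then c a else 0) • vecMulVec (b a) (b a) =
        if a ∈ Finset.univ.image e then c a • vecMulVec (b a) (b a) else 0 := by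
      intro a; split <;> simp
    rw [Finset.sum_congr rfl fun a _ => this a, ← Finset.sum_filter,
      Finset.filter_mem_eq_inter, Finset.univ_inter,
      Finset.sum_image fun x _ y _ h => he h]
  rw [h1]
  ext i j
  rw [Matrix.sum_apply, Matrix.mul_apply]
  refine Finset.sum_congr rfl fun v _ => ?_
  rw [Matrix.mul_diagonal]
  simp only [Matrix.smul_apply, vecMulVec_apply, smul_eq_mul, transpose_apply, of_apply]
  ring

/-- `det lap ≥ ∏ c` over a basis with integral entries -/
theorem prod_le_det_lap {c : A → ℝ} (hc : ∀ a, 0 < c a) (bz : A → n → ℤ)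
    (hbz : ∀ a v, b a v = (bz a v : ℝ)) (e : n → A)
    (hdet : (Matrix.of fun v => b (e v)).det ≠ 0) (hL : (lap b c).PosDef) :
    ∏ v, c (e v) ≤ (lap b c).det := by
  classical
  have he : Function.Injective e := by
    intro i j hij
    by_contra hne
    exact hdet (Matrix.det_zero_of_row_eq hne (by ext w; simp [hij]))
  have h1 := det_lap_mono b (c := c) (c' := fun a => if a ∈ Finset.univ.image e then c a else 0)
    hL (fun a => by
      show 0 ≤ (if a ∈ Finset.univ.image e then c a else 0)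
      split
      · exact (hc a).le
      · exact le_rfl) (fun a => by
      show (if a ∈ Finset.univ.image e then c a else 0) ≤ c a
      split
      · exact le_rfl
      · exact (hc a).le)
  rw [lap_basis_eq b e he c] at h1
  rw [det_mul, det_mul, det_transpose, det_diagonal] at h1
  have h2 : (1 : ℝ) ≤ (Matrix.of fun v => b (e v)).det * (Matrix.of fun v => b (e v)).det := by
    have h3 : (Matrix.of fun v => b (e v)) =
        (Matrix.of fun v => bz (e v)).map (Int.cast : ℤ → ℝ) := by
      ext i j; simp [hbz]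
    have h4 : (Matrix.of fun v => b (e v)).det = (((Matrix.of fun v => bz (e v)).det : ℤ) : ℝ) := by
      rw [h3]
      exact (Int.cast_det _).symm
    have h5 : (Matrix.of fun v => bz (e v)).det ≠ 0 := by
      intro h; apply hdet; rw [h4, h]; simp
    rw [h4]
    have h6 : (1 : ℤ) ≤ (Matrix.of fun v => bz (e v)).det * (Matrix.of fun v => bz (e v)).det := by
      have := mul_self_pos.mpr h5
      omega
    exact_mod_cast h6
  have h7 : 0 ≤ ∏ v, c (e v) := Finset.prod_nonneg fun v _ => (hc _).le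
  calc ∏ v, c (e v) = 1 * ∏ v, c (e v) := (one_mul _).symm
    _ ≤ ((Matrix.of fun v => b (e v)).det * (Matrix.of fun v => b (e v)).det) *
        ∏ v, c (e v) := mul_le_mul_of_nonneg_right h2 h7
    _ = (Matrix.of fun v => b (e v)).det * (∏ v, c (e v)) *
        (Matrix.of fun v => b (e v)).det := by ring
    _ ≤ (lap b c).det := h1

end Lap

end WoodFV
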