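import Pool.Agent.Lib.MP_492a9e_co.FV.Defs
import Pool.Agent.Lib.MP_492a9e_co.FV.LapGen

/-!
# Linear algebra of the grounded Laplacian (modules LAP1, LAP2, LAP3)
-/

open Finset Matrix WoodR

namespace WoodF

set_option linter.unusedSectionVars false

section
variable {V A : Type} [Fintype V] [DecidableEq V] [Fintype A] [DecidableEq A]

/-- extension of a vector by `0` at the root -/
def ext0 (r : V) (x : Wr r → ℝ) (w : V) : ℝ := if h : w ≠ r then x ⟨w, h⟩ else 0

theorem ext0_ne {r : V} (x : Wr r → ℝ) (v : Wr r) : ext0 r x v.1 = x v := by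
  unfold ext0
  rw [dif_pos v.2]

theorem ext0_root (r : V) (x : Wr r → ℝ) : ext0 r x r = 0 := by
  unfold ext0
  rw [dif_neg (by simp)]

theorem sum_ite_ext0 (r : V) (x : Wr r → ℝ) (w : V) :
    ∑ v : Wr r, (if w = v.1 then (1 : ℝ) else 0) * x v = ext0 r x w := by
  unfold ext0
  split
  · rename_i h
    rw [Finset.sum_eq_single (⟨w, h⟩ : Wr r)]
    · simp
    · intro v _ hv
      rw [if_neg, zero_mul]
      intro hw
      exact hv (Subtype.ext hw.symm)
    · intro h'; exact absurd (Finset.mem_univ _) h'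
  · rename_i h
    refine Finset.sum_eq_zero fun v _ => ?_
    rw [if_neg, zero_mul]
    intro hw
    exact h (hw ▸ v.2)

/-- the pairing of an incidence vector with a potential -/
theorem bv_dot (tl hd : A → V) (r : V) (a : A) (x : Wr r → ℝ) :
    bv tl hd r a ⬝ᵥ x = ext0 r x (hd a) - ext0 r x (tl a) := by
  unfold bv
  simp only [dotProduct, sub_mul, Finset.sum_sub_distrib]
  rw [sum_ite_ext0, sum_ite_ext0]

theorem bv_span {tl hd : A → V} {r : V} (hC : Conn tl hd 1) (x : Wr r → ℝ)
    (hx : ∀ a, bv tl hd r a ⬝ᵥ x = 0) : x = 0 := by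
  by_contra hne
  have hex : ∃ v, x v ≠ 0 := by
    by_contra h
    push Not at h
    exact hne (funext h)
  obtain ⟨v0, hv0⟩ := hex
  set S : Finset V := univ.filter fun w => ext0 r x w = x v0 with hS
  have h1 : S.Nonempty := ⟨v0.1, by simp [hS, ext0_ne]⟩
  have h2 : S ≠ univ := by
    intro h
    have : r ∈ S := by rw [h]; exact mem_univ r
    rw [hS, mem_filter, ext0_root] at this
    exact hv0 this.2.symm
  have h3 := hC S h1 h2
  have h4 : (crs tl hd S).Nonempty := card_pos.mp (by omega)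
  obtain ⟨a, ha⟩ := h4
  unfold crs at ha
  rw [mem_filter] at ha
  apply ha.2
  have h5 := hx a
  rw [bv_dot] at h5
  have h6 : ext0 r x (hd a) = ext0 r x (tl a) := by linarith
  simp only [hS, mem_filter, mem_univ, true_and]
  rw [h6]

theorem lap_eq (tl hd : A → V) (r : V) (c : A → ℝ) :
    lap tl hd r c = WoodFV.lap (bv tl hd r) c := rfl

theorem Pr_eq (tl hd : A → V) (r : V) (c : A → ℝ) (a : A) :
    Pr tl hd r c a = WoodFV.Pr (bv tl hd r) c a := rfl

end

theorem lap1 : SpecLAP1 := by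
  intro V A _ _ _ _ tl hd r c hc hC
  exact WoodFV.lap_posDef (bv tl hd r) hc fun x hx => bv_span hC x hx

theorem lap2 : SpecLAP2 := by
  intro V A _ _ _ _ tl hd r c hc hC D s _ hs1
  have h := WoodFV.det_lap_scale (bv tl hd r) (fun a => (hc a).le) (lap1 V A tl hd r c hc hC)
    (fun a => a ∈ D) hs1.le
  have e : (∑ a with a ∈ D, WoodFV.Pr (bv tl hd r) c a) = ∑ a ∈ D, Pr tl hd r c a := by
    rw [Finset.filter_mem_eq_inter, Finset.univ_inter]
    rfl
  rw [e] at h
  rw [neg_mul]
  exact h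

/-- the integral incidence vector -/
def bvz {V A : Type} [DecidableEq V] (tl hd : A → V) (r : V) (a : A) : Wr r → ℤ := fun v =>
  (if hd a = v.1 then 1 else 0) - (if tl a = v.1 then 1 else 0)

/-- vectors orthogonal to a basis vanish -/
theorem bas_span {V A : Type} [Fintype V] [DecidableEq V] [Fintype A] [DecidableEq A]
    {tl hd : A → V} {r : V} {e : Wr r → A} (he : Bas tl hd r e) (x : Wr r → ℝ)
    (hx : ∀ a, bv tl hd r a ⬝ᵥ x = 0) : x = 0 := by
  unfold Bas at he
  have h1 : (Matrix.of fun v w => bv tl hd r (e v) w : Matrix (Wr r) (Wr r) ℝ) *ᵥ x = 0 := by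
    ext v
    exact hx (e v)
  by_contra hne
  exact he (Matrix.exists_mulVec_eq_zero_iff.mp ⟨x, hne, h1⟩)

theorem lap3 : SpecLAP3 := by
  intro V A _ _ _ _ tl hd r c hc e he
  have hL : (WoodFV.lap (bv tl hd r) c).PosDef :=
    WoodFV.lap_posDef (bv tl hd r) hc fun x hx => bas_span he x hx
  refine WoodFV.prod_le_det_lap (bv tl hd r) hc (bvz tl hd r) (fun a v => ?_) e he hL
  unfold bv bvz
  push_cast
  rfl

end WoodF
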