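import Pool.Agent.Lib.MP_492a9e_co.FV.Defs4
import Mathlib

/-!
# SEP: a convex combination of vectors is at most `1` in all coordinates (separation)
-/

open Finset

namespace WoodF

set_option linter.unusedSectionVars false

/-- SEP for fixed types -/
theorem sep_aux {A I : Type} [Fintype A] [Fintype I] [Nonempty I] (y : I → A → ℝ)
    (h : ∀ l : A → ℕ, ∃ i, ∑ a, l a * y i a ≤ ∑ a, (l a : ℝ)) :
    ∃ w : I → ℝ, (∀ i, 0 ≤ w i) ∧ ∑ i, w i = 1 ∧ ∀ a, ∑ i, w i * y i a ≤ 1 := by
  classical
  let F : (I → ℝ) →ₗ[ℝ] (A → ℝ) :=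
    { toFun := fun w a => ∑ i, w i * y i a
      map_add' := fun w w' => by
        ext a
        simp only [Pi.add_apply, ← sum_add_distrib]
        exact sum_congr rfl fun i _ => by ring
      map_smul' := fun t w => by
        ext a
        simp only [Pi.smul_apply, smul_eq_mul, RingHom.id_apply, mul_sum]
        exact sum_congr rfl fun i _ => by ring }
  have hF : ∀ w a, F w a = ∑ i, w i * y i a := fun w a => rfl
  have hFc : Continuous F := F.continuous_of_finiteDimensional
  by_cases hdis : Disjoint (F '' stdSimplex ℝ I) {x : A → ℝ | ∀ a, x a ≤ 1}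
  · exfalso
    have hK : IsCompact (F '' stdSimplex ℝ I) := (isCompact_stdSimplex ℝ I).image hFc
    have hKc : Convex ℝ (F '' stdSimplex ℝ I) := (convex_stdSimplex ℝ I).linear_image F
    have hDc : Convex ℝ {x : A → ℝ | ∀ a, x a ≤ 1} := by
      intro x hx x' hx' s t hs ht hst a
      have h1 := mul_le_mul_of_nonneg_left (hx a) hs
      have h2 := mul_le_mul_of_nonneg_left (hx' a) ht
      simp only [Pi.add_apply, Pi.smul_apply, smul_eq_mul]
      linarith
    have hDcl : IsClosed {x : A → ℝ | ∀ a, x a ≤ 1} := by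
      rw [show {x : A → ℝ | ∀ a, x a ≤ 1} = ⋂ a, {x : A → ℝ | x a ≤ 1} by
        ext x
        simp]
      exact isClosed_iInter fun a => isClosed_le (continuous_apply a) continuous_const
    obtain ⟨f, u, v, hf1, huv, hf2⟩ :=
      geometric_hahn_banach_compact_closed hKc hK hDc hDcl hdis
    let g : A → ℝ := fun a => f (Pi.single a 1)
    have hfx : ∀ x : A → ℝ, f x = ∑ a, x a * g a := by
      intro x
      have h1 : x = ∑ a, x a • Pi.single a (1 : ℝ) := by
        ext b
        simp [Finset.sum_apply, Pi.single_apply]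
      conv_lhs => rw [h1]
      rw [map_sum]
      exact sum_congr rfl fun a _ => by rw [map_smul, smul_eq_mul]
    have hg : ∀ a, g a ≤ 0 := by
      intro a
      by_contra hpos
      push Not at hpos
      -- `1 - t e_a`
      have h1 : ∀ t : ℝ, 0 ≤ t → v < f (fun _ => 1) - t * g a := by
        intro t ht
        have h2 := hf2 ((fun _ => (1 : ℝ)) - t • Pi.single a 1) (fun b => by
          simp only [Pi.sub_apply, Pi.smul_apply, smul_eq_mul, Pi.single_apply]
          split_ifs <;> linarith)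
        rwa [map_sub, map_smul, smul_eq_mul] at h2
      have h2 := h1 ((|f (fun _ => 1)| + |v|) / g a) (by positivity)
      rw [div_mul_cancel₀ _ hpos.ne'] at h2
      have h3 := le_abs_self (f (fun _ => 1))
      have h4 := neg_abs_le v
      linarith
    -- the real length
    let l : A → ℝ := fun a => - g a
    have hl : ∀ a, 0 ≤ l a := fun a => by
      have := hg a
      simp only [l]
      linarith
    let δ : ℝ := v - u
    have hδ : 0 < δ := sub_pos.2 huv
    have hone : v < ∑ a, g a := by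
      have h1 := hf2 (fun _ => 1) (fun a => le_rfl)
      rw [hfx] at h1
      simpa using h1
    have hyi : ∀ i, δ < ∑ a, l a * (y i a - 1) := by
      intro i
      have h0 : F (Pi.single i 1) = y i := by
        ext a
        rw [hF, sum_eq_single_of_mem i (mem_univ i), Pi.single_eq_same, one_mul]
        intro j _ hj
        rw [Pi.single_eq_of_ne hj, zero_mul]
      have h1 := hf1 (y i) ⟨_, single_mem_stdSimplex ℝ i, h0⟩
      rw [hfx] at h1
      have h2 : ∑ a, l a * (y i a - 1) = ∑ a, g a - ∑ a, y i a * g a := by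
        rw [← sum_sub_distrib]
        exact sum_congr rfl fun a _ => by simp only [l]; ring
      rw [h2]
      simp only [δ]
      linarith
    -- a bound for the vectors
    let C : ℝ := ∑ i, ∑ a, |y i a - 1|
    have hC : ∀ i, ∑ a, |y i a - 1| ≤ C := fun i =>
      single_le_sum (f := fun i => ∑ a, |y i a - 1|)
        (fun i _ => sum_nonneg fun a _ => abs_nonneg _) (mem_univ i)
    obtain ⟨N, hN⟩ := exists_nat_gt (C / δ)
    have hNδ : C < N * δ := (div_lt_iff₀ hδ).1 hN
    obtain ⟨i, hi⟩ := h fun a => ⌈(N : ℝ) * l a⌉₊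
    have h1 : ∀ a, (N : ℝ) * (l a * (y i a - 1)) - |y i a - 1| ≤
        (⌈(N : ℝ) * l a⌉₊ : ℝ) * (y i a - 1) := by
      intro a
      have e1 : (N : ℝ) * l a ≤ (⌈(N : ℝ) * l a⌉₊ : ℝ) := Nat.le_ceil _
      have e2 : (⌈(N : ℝ) * l a⌉₊ : ℝ) < N * l a + 1 :=
        Nat.ceil_lt_add_one (mul_nonneg (Nat.cast_nonneg _) (hl a))
      have e3 : |((⌈(N : ℝ) * l a⌉₊ : ℝ) - N * l a) * (y i a - 1)| ≤ |y i a - 1| := by
        rw [abs_mul]
        have e4 : |(⌈(N : ℝ) * l a⌉₊ : ℝ) - N * l a| ≤ 1 := by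
          rw [abs_le]
          constructor <;> linarith
        calc _ ≤ 1 * |y i a - 1| := mul_le_mul_of_nonneg_right e4 (abs_nonneg _)
          _ = _ := one_mul _
      have e5 := neg_le_of_abs_le e3
      nlinarith
    have h2 : (N : ℝ) * ∑ a, l a * (y i a - 1) - ∑ a, |y i a - 1| ≤
        ∑ a, (⌈(N : ℝ) * l a⌉₊ : ℝ) * (y i a - 1) := by
      rw [mul_sum, ← sum_sub_distrib]
      exact sum_le_sum fun a _ => h1 a
    have h3 : ∑ a, (⌈(N : ℝ) * l a⌉₊ : ℝ) * (y i a - 1) ≤ 0 := by
      have e1 : ∑ a, (⌈(N : ℝ) * l a⌉₊ : ℝ) * (y i a - 1) =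
          ∑ a, (⌈(N : ℝ) * l a⌉₊ : ℝ) * y i a - ∑ a, (⌈(N : ℝ) * l a⌉₊ : ℝ) := by
        rw [← sum_sub_distrib]
        exact sum_congr rfl fun a _ => by ring
      rw [e1]
      linarith
    have h4 := hC i
    have h5 : (N : ℝ) * δ ≤ N * ∑ a, l a * (y i a - 1) :=
      mul_le_mul_of_nonneg_left (hyi i).le (Nat.cast_nonneg _)
    linarith
  · rw [Set.not_disjoint_iff] at hdis
    obtain ⟨x, ⟨w, hw, rfl⟩, hx1⟩ := hdis
    exact ⟨w, hw.1, hw.2, hx1⟩

/-- SEP -/
theorem sep : SpecSEP := by
  intro A I _ _ _ y h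
  exact sep_aux y h

end WoodF
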