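import Pool.Agent.Lib.MP_492a9e_co.FV.COV
import Pool.Agent.Lib.MP_492a9e_co.FV.SEP
import Pool.Agent.Lib.MP_492a9e_co.FV.LAP
import Pool.Agent.Lib.MP_492a9e_co.FV.CNTB
import Pool.Agent.Lib.MP_492a9e_co.R.Star

/-!
# END4: the theorem for 3-edge-connected graphs from the modules
-/

open Finset WoodR Matrix

namespace WoodF

set_option linter.unusedSectionVars false

section
variable {V A : Type} [Fintype V] [DecidableEq V] [Fintype A] [DecidableEq A]

/-! ### reversed arcs -/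

theorem crs_symm (tl hd : A → V) (S : Finset V) : crs hd tl S = crs tl hd S := by
  ext a
  unfold crs
  rw [mem_filter, mem_filter, iff_comm (a := hd a ∈ S)]

theorem conn_symm {tl hd : A → V} {k : ℕ} (h : Conn tl hd k) : Conn hd tl k := by
  intro S h1 h2
  rw [crs_symm]
  exact h S h1 h2

theorem clo_compl {tl hd : A → V} {U : Finset V} (h : Clo hd tl U) : Clo tl hd Uᶜ := by
  intro a ha
  rw [mem_compl] at ha ⊢
  exact fun h2 => ha (h a h2)

theorem entr_compl (tl hd : A → V) (U : Finset V) : entr tl hd Uᶜ = entr hd tl U := by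
  ext a
  rw [mem_entr, mem_entr, mem_compl, mem_compl, not_not]
  exact and_comm

theorem dic_symm {tl hd : A → V} {τ : ℕ} (h : Dic tl hd τ) : Dic hd tl τ := by
  intro U h1 h2 h3
  rw [← entr_compl]
  refine h Uᶜ ?_ ?_ (clo_compl h3)
  · rw [nonempty_iff_ne_empty]
    intro h4
    exact h2 ((compl_eq_empty_iff U).1 h4)
  · intro h4
    have h5 : U = ∅ := by
      rw [← compl_univ, ← h4, compl_compl]
    exact h1.ne_empty h5

/-! ### a basis crosses all cuts -/

theorem bas_cross {tl hd : A → V} {r : V} {e : Wr r → A} (he : Bas tl hd r e) {S : Finset V}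
    (hS : S.Nonempty) (hr : r ∉ S) : ∃ v, e v ∈ crs tl hd S := by
  classical
  by_contra hno
  push Not at hno
  let x : Wr r → ℝ := fun w => if w.1 ∈ S then 1 else 0
  have hx : ∀ w : V, ext0 r x w = if w ∈ S then 1 else 0 := by
    intro w
    unfold ext0
    by_cases hw : w = r
    · rw [dif_neg (by simpa using hw), if_neg (hw ▸ hr)]
    · rw [dif_pos hw]
  have h1 : (Matrix.of fun v w => bv tl hd r (e v) w : Matrix (Wr r) (Wr r) ℝ) *ᵥ x = 0 := by
    ext v
    change bv tl hd r (e v) ⬝ᵥ x = 0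
    rw [bv_dot, hx, hx]
    have h2 := hno v
    unfold crs at h2
    rw [mem_filter, not_and, not_not] at h2
    have h3 := h2 (mem_univ _)
    by_cases h4 : tl (e v) ∈ S
    · rw [if_pos h4, if_pos (h3.1 h4), sub_self]
    · rw [if_neg h4, if_neg fun h5 => h4 (h3.2 h5), sub_self]
  have hne : x ≠ 0 := by
    obtain ⟨v, hv⟩ := hS
    intro h
    have hvr : v ≠ r := fun h' => hr (h' ▸ hv)
    have h2 := congrFun h ⟨v, hvr⟩
    simp only [x, Pi.zero_apply] at h2
    rw [if_pos hv] at h2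
    exact one_ne_zero h2
  exact he (Matrix.exists_mulVec_eq_zero_iff.mp ⟨x, hne, h1⟩)

/-- weak duality -/
theorem mult_le {tl hd : A → V} {r : V} {e : Wr r → A}
    (he : ∀ S : Finset V, S.Nonempty → r ∉ S → ∃ v, e v ∈ crs tl hd S) {N : ℕ}
    {U : Fin N → Finset V} (hU : ∀ i, U i ∈ F0 tl hd r) {l : A → ℕ}
    (hl : ∀ a, lenF tl hd U a ≤ l a) : N ≤ ∑ v, l (e v) := by
  classical
  have h1 : N = ∑ _i : Fin N, 1 := by simp
  have h2 : ∀ i : Fin N, 1 ≤ (univ.filter fun v => e v ∈ entr tl hd (U i)).card := by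
    intro i
    obtain ⟨h3, h4, h5⟩ := mem_F0.1 (hU i)
    obtain ⟨v, hv⟩ := he (U i) h3 h5
    rw [crs_closed h4] at hv
    exact card_pos.2 ⟨v, mem_filter.2 ⟨mem_univ _, hv⟩⟩
  calc N = ∑ _i : Fin N, 1 := h1
    _ ≤ ∑ i : Fin N, (univ.filter fun v => e v ∈ entr tl hd (U i)).card :=
        sum_le_sum fun i _ => h2 i
    _ = ∑ v, lenF tl hd U (e v) := by
        unfold lenF
        simp only [card_filter]
        exact sum_comm
    _ ≤ ∑ v, l (e v) := sum_le_sum fun v _ => hl _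

/-- the number of parts -/
theorem parts_card_le (tl hd : A → V) (l : A → ℕ) (t : ℕ) :
    (parts tl hd l t).card ≤ Fintype.card V := by
  classical
  rcases (parts tl hd l t).eq_empty_or_nonempty with h0 | ⟨C0, hC0⟩
  · rw [h0, card_empty]
    exact Nat.zero_le _
  have hne : ∀ C ∈ parts tl hd l t, ∃ v, v ∈ C := fun C hC => (mem_parts.1 hC).1
  obtain ⟨v0, -⟩ := hne C0 hC0
  have hV : Nonempty V := ⟨v0⟩
  choose! f hf using hne
  rw [← card_univ]
  refine card_le_card_of_injOn f (fun C _ => mem_coe.2 (mem_univ _)) ?_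
  intro C hC C' hC' h
  refine part_eq (mem_parts.1 (mem_coe.1 hC)) (mem_parts.1 (mem_coe.1 hC')) (hf C (mem_coe.1 hC)) ?_
  rw [h]
  exact hf C' (mem_coe.1 hC')

/-! ### the inequality -/

/-- a basis and two covers -/
theorem triple (hK : SpecKRU) (hU : SpecUNC) (hO : SpecOTY) (hG : SpecDEG)
    (tl hd : A → V) (r : V) (m : ℕ) (hm : 2 ≤ m) (h3 : Conn tl hd 3)
    (hcut : Dic tl hd (4 * m - 3)) (l : A → ℕ) :
    ∃ (e : Wr r → A) (B0 B1 : Finset A), Bas tl hd r e ∧ Cov tl hd r B0 ∧ Cov hd tl r B1 ∧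
      (∑ v, (l (e v) : ℝ)) + (m - 1 + 3 / (8 * Fintype.card V)) * ∑ a ∈ B0, (l a : ℝ) +
        (m - 1 + 3 / (8 * Fintype.card V)) * ∑ a ∈ B1, (l a : ℝ) ≤ ∑ a, (l a : ℝ) := by
  classical
  have hconn : Conn tl hd 1 := fun S a b => le_trans (by norm_num) (h3 S a b)
  obtain ⟨M, hM⟩ : ∃ M, ∀ a, l a ≤ M :=
    ⟨∑ a, l a, fun a => single_le_sum (fun _ _ => Nat.zero_le _) (mem_univ a)⟩
  obtain ⟨e, he, hsum⟩ := hK V A tl hd r l M hconn hM
  obtain ⟨B0, n0, c0, p0, w0⟩ := cov V A tl hd r hconn l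
  obtain ⟨B1, n1, c1, p1, w1⟩ := cov V A hd tl r (conn_symm hconn) l
  obtain ⟨N0, hN0⟩ : ∃ N, ∑ X ∈ F0 tl hd r, n0 X = N := ⟨_, rfl⟩
  obtain ⟨N1, hN1⟩ : ∃ N, ∑ X ∈ F0 hd tl r, n1 X = N := ⟨_, rfl⟩
  have hex0 := hU V A tl hd r n0
  have hex1 := hU V A hd tl r n1
  rw [hN0] at hex0 w0
  rw [hN1] at hex1 w1
  obtain ⟨U0, u01, u02, u03⟩ := hex0
  obtain ⟨U1, u11, u12, u13⟩ := hex1
  have l0 : ∀ a, lenF tl hd U0 a ≤ l a := fun a => (u03 a).trans_le (p0 a)
  have l1 : ∀ a, lenF hd tl U1 a ≤ l a := fun a => (u13 a).trans_le (p1 a)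
  have g0 := hO V A tl hd r (4 * m - 3) (by omega) h3 hcut N0 U0 u01 u02 l l0 M
  have g1 := hO V A hd tl r (4 * m - 3) (by omega) (conn_symm h3) (dic_symm hcut) N1 U1 u11 u12
    l l1 M
  have g2 := hG V A tl hd r h3 (fun U a b c => le_trans (by omega) (hcut U a b c)) l M
  set K := ∑ t ∈ range M, (parts tl hd l t).card with hKdef
  set M' := ((range M).filter fun t => 2 ≤ (parts tl hd l t).card).card with hM'
  set n := Fintype.card V with hn
  have hnpos : 1 ≤ n := Fintype.card_pos_iff.2 ⟨r⟩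
  -- the basis is short
  have k1 : K ≤ M + n * M' := by
    have h1 : ∀ t ∈ range M, (parts tl hd l t).card ≤
        1 + n * (if 2 ≤ (parts tl hd l t).card then 1 else 0) := by
      intro t _
      have := parts_card_le tl hd l t
      split_ifs with h
      · rw [← hn] at this
        omega
      · omega
    refine (sum_le_sum h1).trans (le_of_eq ?_)
    rw [sum_add_distrib, ← mul_sum, hM', card_filter]
    simp
  have k2 : ∑ v, l (e v) ≤ n * M' := by omega
  have k3 : N0 ≤ n * M' :=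
    (mult_le (fun S a b => bas_cross he a b) u01 l0).trans k2
  have k4 : N1 ≤ n * M' :=
    (mult_le (fun S a b => by
      rw [crs_symm]
      exact bas_cross he a b) u11 l1).trans k2
  -- the sum
  have k5 : 4 * ∑ v, l (e v) + 3 * M' + (N0 + N1) * (4 * (m - 1)) ≤ 4 * ∑ a, l a := by
    have e1 : N0 * (4 * m - 3) = N0 + N0 * (4 * (m - 1)) := by
      rw [show 4 * m - 3 = 1 + 4 * (m - 1) by omega]
      ring
    have e2 : N1 * (4 * m - 3) = N1 + N1 * (4 * (m - 1)) := by
      rw [show 4 * m - 3 = 1 + 4 * (m - 1) by omega]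
      ring
    rw [e1] at g0
    rw [e2] at g1
    rw [Nat.add_mul]
    omega
  refine ⟨e, B0, B1, he, c0, c1, ?_⟩
  have r1 : (∑ a ∈ B0, (l a : ℝ)) ≤ N0 := by exact_mod_cast w0
  have r2 : (∑ a ∈ B1, (l a : ℝ)) ≤ N1 := by exact_mod_cast w1
  have r3 : (N0 : ℝ) ≤ n * M' := by exact_mod_cast k3
  have r4 : (N1 : ℝ) ≤ n * M' := by exact_mod_cast k4
  have r5 : 4 * (∑ v, (l (e v) : ℝ)) + 3 * M' + (N0 + N1) * (4 * (m - 1)) ≤
      4 * ∑ a, (l a : ℝ) := by
    have h1 : ((4 * ∑ v, l (e v) + 3 * M' + (N0 + N1) * (4 * (m - 1)) : ℕ) : ℝ) ≤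
        ((4 * ∑ a, l a : ℕ) : ℝ) := by exact_mod_cast k5
    push_cast [Nat.cast_sub (show 1 ≤ m by omega)] at h1
    exact h1
  have hnr : (0 : ℝ) < n := by exact_mod_cast hnpos
  set s : ℝ := 3 / (8 * n) with hs
  have hspos : 0 < s := by positivity
  have hsn : s * n = 3 / 8 := by
    rw [hs]
    field_simp
  have hm1 : (0 : ℝ) ≤ m - 1 := by
    have : (2 : ℝ) ≤ m := by exact_mod_cast hm
    linarith
  have q1 : (m - 1 + s) * (∑ a ∈ B0, (l a : ℝ)) ≤ (m - 1 + s) * N0 :=
    mul_le_mul_of_nonneg_left r1 (by linarith)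
  have q2 : (m - 1 + s) * (∑ a ∈ B1, (l a : ℝ)) ≤ (m - 1 + s) * N1 :=
    mul_le_mul_of_nonneg_left r2 (by linarith)
  have q3 : s * N0 ≤ 3 / 8 * M' := by
    calc s * (N0 : ℝ) ≤ s * (n * M') := mul_le_mul_of_nonneg_left r3 hspos.le
      _ = 3 / 8 * M' := by rw [← mul_assoc, hsn]
  have q4 : s * N1 ≤ 3 / 8 * M' := by
    calc s * (N1 : ℝ) ≤ s * (n * M') := mul_le_mul_of_nonneg_left r4 hspos.le
      _ = 3 / 8 * M' := by rw [← mul_assoc, hsn]
  nlinarith

/-! ### from the triples to the vector -/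

/-- the two-sided estimate for all sets -/
theorem cv_all {tl hd : A → V} {r : V} {c : A → ℝ} {z : V → ℤ} {z0 : V → ℝ}
    (hz1 : ∑ v, z v = 0) (hz0s : ∑ v, z0 v = 0)
    (hz2 : ∀ S : Finset V, r ∉ S →
      |∑ v ∈ S, ((z v : ℝ) - z0 v)| ≤ 1 / 2 * ∑ a ∈ crs tl hd S, Pr tl hd r c a)
    (S : Finset V) :
    |∑ v ∈ S, (z v : ℝ) - ∑ v ∈ S, z0 v| ≤ 1 / 2 * ∑ a ∈ crs tl hd S, Pr tl hd r c a := by
  have hz1r : ∑ v, (z v : ℝ) = 0 := by exact_mod_cast hz1
  by_cases hr : r ∈ S
  · have h1 := hz2 Sᶜ (by simpa using hr)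
    rw [crs_compl, sum_sub_distrib] at h1
    have h2 := sum_add_sum_compl S (fun v => (z v : ℝ))
    have h4 := sum_add_sum_compl S z0
    rw [hz1r] at h2
    rw [hz0s] at h4
    rw [← abs_neg]
    refine le_trans (le_of_eq ?_) h1
    congr 1
    linarith
  · have h1 := hz2 S hr
    rw [sum_sub_distrib] at h1
    exact h1

/-- `1 ≥ P + θ + Q` gives the dijoins -/
theorem of_split (hV : SpecCV) (tl hd : A → V) (r : V) (m : ℕ) (hconn : Conn tl hd 1)
    (c : A → ℝ) (hc : ∀ a, 0 < c a) (θ Q : A → ℝ) (ε : ℝ) (hθ : ∀ a, 0 ≤ θ a)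
    (hQ : ∀ a, 0 ≤ Q a) (hP : ∀ a, Pr tl hd r c a ≤ 1 - θ a - Q a + ε)
    (hε : ε * Fintype.card A < 1) (hε0 : 0 ≤ ε)
    (h0 : ∀ U ∈ F0 tl hd r, (m : ℝ) - 1 < ∑ a ∈ entr tl hd U, Q a - ε * Fintype.card A)
    (h1 : ∀ U ∈ F0 hd tl r, (m : ℝ) - 1 < ∑ a ∈ entr hd tl U, θ a) :
    WoodArc.Dij tl hd m := by
  classical
  set P : A → ℝ := fun a => Pr tl hd r c a with hPdef
  set x0 : A → ℝ := fun a => 1 - P a / 2 - θ a with hx0
  set z0 : V → ℝ := fun v =>
    ∑ a, x0 a * ((if hd a = v then 1 else 0) - (if tl a = v then 1 else 0)) with hz0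
  have hz0U : ∀ U : Finset V, ∑ v ∈ U, z0 v =
      ∑ a, x0 a * ((if hd a ∈ U then 1 else 0) - (if tl a ∈ U then 1 else 0)) := by
    intro U
    rw [hz0, sum_comm]
    refine sum_congr rfl fun a _ => ?_
    rw [← mul_sum, sum_sub_distrib, sum_ite_eq, sum_ite_eq]
  have hz0s : ∑ v, z0 v = 0 := by
    rw [hz0U]
    simp
  obtain ⟨z, hz1, hz2⟩ := hV V A tl hd r c hc hconn z0 hz0s
  have habs := cv_all (tl := tl) (hd := hd) (r := r) (c := c) hz1 hz0s hz2
  have hcrs : ∀ S : Finset V, ∑ a ∈ crs tl hd S, P a =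
      ∑ a, if ¬(tl a ∈ S ↔ hd a ∈ S) then P a else 0 := by
    intro S
    rw [crs, sum_filter]
  have hentr : ∀ (S : Finset V) (f : A → ℝ), ∑ a ∈ entr tl hd S, f a =
      ∑ a, if tl a ∉ S ∧ hd a ∈ S then f a else 0 := by
    intro S f
    rw [entr, sum_filter]
  -- all sets
  have hall : ∀ S : Finset V, ∑ v ∈ S, z v ≤ ((entr tl hd S).card : ℤ) := by
    intro S
    have e1 := (abs_le.1 (habs S)).2
    have e2 : ∑ v ∈ S, z0 v + 1 / 2 * ∑ a ∈ crs tl hd S, P a ≤
        ((entr tl hd S).card : ℝ) + ε * Fintype.card A := by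
      have e3 : ((entr tl hd S).card : ℝ) = ∑ a, if tl a ∉ S ∧ hd a ∈ S then (1 : ℝ) else 0 := by
        rw [← hentr S fun _ => 1, sum_const, nsmul_eq_mul, mul_one]
      have e4 : ε * Fintype.card A = ∑ _a : A, ε := by
        rw [sum_const, nsmul_eq_mul, card_univ, mul_comm]
      rw [hz0U, hcrs, mul_sum, e3, e4, ← sum_add_distrib, ← sum_add_distrib]
      refine sum_le_sum fun a _ => ?_
      have f1 := hθ a
      have f2 := hQ a
      have f3 : P a ≤ 1 - θ a - Q a + ε := hP a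
      by_cases g1 : tl a ∈ S <;> by_cases g2 : hd a ∈ S <;> simp [g1, g2, hx0] <;> linarith
    have e3 : (∑ v ∈ S, (z v : ℝ)) < (entr tl hd S).card + 1 := by linarith
    have e4 : ∑ v ∈ S, z v < ((entr tl hd S).card : ℤ) + 1 := by exact_mod_cast e3
    omega
  -- closed sets
  have hz0c : ∀ U : Finset V, Clo tl hd U → ∑ v ∈ U, z0 v = ∑ a ∈ entr tl hd U, x0 a := by
    intro U hUc
    rw [hz0U, entr, sum_filter]
    refine sum_congr rfl fun a _ => ?_
    have := hUc a
    by_cases h1 : tl a ∈ U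
    · have h2 := this h1
      simp [h1, h2]
    · by_cases h2 : hd a ∈ U <;> simp [h1, h2]
  have hlow : ∀ U ∈ F0 tl hd r, (m : ℤ) ≤ ∑ v ∈ U, z v := by
    intro U hU
    obtain ⟨hUne, hUc, hUr⟩ := mem_F0.1 hU
    have e1 := (abs_le.1 (habs U)).1
    rw [hz0c U hUc, crs_closed hUc] at e1
    have e2 : ∑ a ∈ entr tl hd U, Q a - ε * Fintype.card A ≤
        ∑ a ∈ entr tl hd U, x0 a - 1 / 2 * ∑ a ∈ entr tl hd U, P a := by
      have e3 : ε * (entr tl hd U).card ≤ ε * Fintype.card A :=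
        mul_le_mul_of_nonneg_left (by exact_mod_cast card_le_univ _) hε0
      have e4 : ε * (entr tl hd U).card = ∑ _a ∈ entr tl hd U, ε := by
        rw [sum_const, nsmul_eq_mul, mul_comm]
      have e5 : ∑ a ∈ entr tl hd U, Q a - ∑ _a ∈ entr tl hd U, ε ≤
          ∑ a ∈ entr tl hd U, x0 a - 1 / 2 * ∑ a ∈ entr tl hd U, P a := by
        rw [mul_sum, ← sum_sub_distrib, ← sum_sub_distrib]
        refine sum_le_sum fun a _ => ?_
        have f3 : P a ≤ 1 - θ a - Q a + ε := hP a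
        simp only [hx0]
        linarith
      linarith
    have e3 := h0 U hU
    have e4 : (m : ℝ) - 1 < ∑ v ∈ U, (z v : ℝ) := by linarith
    have e5 : (m : ℤ) - 1 < ∑ v ∈ U, z v := by exact_mod_cast e4
    omega
  have hhigh : ∀ W : Finset V, Clo tl hd W → W ≠ univ → r ∈ W →
      ∑ v ∈ W, z v + m ≤ ((entr tl hd W).card : ℤ) := by
    intro W hWc hWne hWr
    have e1 := (abs_le.1 (habs W)).2
    rw [hz0c W hWc, crs_closed hWc] at e1
    have e2 : ∑ a ∈ entr tl hd W, x0 a + 1 / 2 * ∑ a ∈ entr tl hd W, P a =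
        (entr tl hd W).card - ∑ a ∈ entr tl hd W, θ a := by
      have e3 : ((entr tl hd W).card : ℝ) = ∑ _a ∈ entr tl hd W, (1 : ℝ) := by
        rw [sum_const, nsmul_eq_mul, mul_one]
      rw [mul_sum, ← sum_add_distrib, e3, ← sum_sub_distrib]
      refine sum_congr rfl fun a _ => ?_
      simp only [hx0]
      ring
    have e3 : Wᶜ ∈ F0 hd tl r := by
      refine mem_F0.2 ⟨?_, clo_compl hWc, by simpa using hWr⟩
      rw [nonempty_iff_ne_empty]
      intro h
      exact hWne ((compl_eq_empty_iff W).1 h)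
    have e4 := h1 Wᶜ e3
    rw [entr_compl] at e4
    have e5 : (∑ v ∈ W, (z v : ℝ)) + m < (entr tl hd W).card + 1 := by linarith
    have e6 : ∑ v ∈ W, z v + m < ((entr tl hd W).card : ℤ) + 1 := by exact_mod_cast e5
    omega
  -- the set of arcs
  have hen : ∀ S : Finset V, en tl hd univ S = (entr tl hd S).card := fun S => rfl
  obtain ⟨B, -, hB⟩ := unit_flow tl hd univ z hz1 (fun X => by
    rw [hen]
    exact hall X)
  have hBc : ∀ U : Finset V, Clo tl hd U →
      (((entr tl hd U).filter fun a => a ∈ B).card : ℤ) = ∑ v ∈ U, z v := by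
    intro U hU
    rw [← hB U]
    unfold nb
    rw [card_filter]
    push_cast
    rw [entr, sum_filter, ← sum_filter_add_sum_filter_not univ (fun a => a ∈ B)
      (fun a => if tl a ∉ U ∧ hd a ∈ U then (if a ∈ B then (1 : ℤ) else 0) else 0)]
    have e1 : ∑ a ∈ univ.filter (fun a => a ∉ B),
        (if tl a ∉ U ∧ hd a ∈ U then (if a ∈ B then (1 : ℤ) else 0) else 0) = 0 := by
      refine sum_eq_zero fun a ha => ?_
      rw [if_neg (mem_filter.1 ha).2, ite_self]
    have e2 : univ.filter (fun a => a ∈ B) = B := by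
      ext a
      simp
    rw [e1, e2, add_zero]
    refine sum_congr rfl fun a ha => ?_
    rw [if_pos ha]
    have := hU a
    by_cases h1 : tl a ∈ U
    · have h2 := this h1
      simp [h1, h2]
    · by_cases h2 : hd a ∈ U <;> simp [h1, h2]
  refine WoodFV.two_sides tl hd r m B (fun U hU hne hr => ?_) (fun U hU hne hr => ?_)
  · have e1 := hBc U hU
    have e2 := hlow U (mem_F0.2 ⟨hne, hU, hr⟩)
    rw [← e1] at e2
    exact_mod_cast e2
  · have e1 := hBc U hU
    have e2 := hhigh U hU hne hr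
    have e3 := card_filter_add_card_filter_not (s := entr tl hd U) (fun a => a ∈ B)
    omega

/-- **END4** for `m ≥ 2` -/
theorem end4_two (hK : SpecKRU) (hU : SpecUNC) (hO : SpecOTY) (hG : SpecDEG) (hV : SpecCV)
    (hL : SpecLPI) (tl hd : A → V) (m : ℕ) (hm : 2 ≤ m) (h3 : Conn tl hd 3)
    (hcut : WoodArc.CutGe tl hd (4 * m - 3)) : WoodArc.Dij tl hd m := by
  classical
  rcases isEmpty_or_nonempty V with hVe | ⟨⟨r⟩⟩
  · exact ⟨fun _ => ∅, fun i j _ => by simp, fun i U hne => by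
      obtain ⟨x, _⟩ := hne
      exact (hVe.false x).elim⟩
  have hcutF : Dic tl hd (4 * m - 3) := by
    intro U h1 h2 h4
    have h5 := hcut (U : Set V) (by simpa using h1) (fun h => h2 (by
      rw [eq_univ_iff_forall]
      intro v
      rw [← mem_coe, h]
      exact Set.mem_univ v)) (fun a ha => mem_coe.2 (h4 a (mem_coe.1 ha)))
    have h6 : {a | tl a ∉ (U : Set V) ∧ hd a ∈ (U : Set V)} = ((entr tl hd U : Finset A) : Set A) := by
      ext a
      rw [mem_coe, mem_entr]
      rfl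
    rw [h6, Set.ncard_coe_finset] at h5
    exact h5
  have hconn : Conn tl hd 1 := fun S a b => le_trans (by norm_num) (h3 S a b)
  set n : ℕ := Fintype.card V with hn
  have hnpos : 1 ≤ n := Fintype.card_pos_iff.2 ⟨r⟩
  have hnr : (0 : ℝ) < n := by exact_mod_cast hnpos
  set s : ℝ := 3 / (8 * n) with hs
  have hspos : 0 < s := by positivity
  set lam : ℝ := m - 1 + s with hlam
  have hm1 : (1 : ℝ) ≤ m - 1 := by
    have : (2 : ℝ) ≤ m := by exact_mod_cast hm
    linarith
  have hlampos : 0 < lam := by linarith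
  -- the triples
  let I : Type := {p : (Wr r → A) × Finset A × Finset A //
    Bas tl hd r p.1 ∧ Cov tl hd r p.2.1 ∧ Cov hd tl r p.2.2}
  have htr := triple hK hU hO hG tl hd r m hm h3 hcutF
  have hIne : Nonempty I := by
    obtain ⟨e, B0, B1, h1, h2, h4, -⟩ := htr fun _ => 0
    exact ⟨⟨(e, B0, B1), h1, h2, h4⟩⟩
  let instI : Fintype I := Fintype.ofFinite I
  let y : I → A → ℝ := fun p a => ((univ.filter fun v => p.1.1 v = a).card : ℝ) +
    lam * (if a ∈ p.1.2.1 then 1 else 0) + lam * (if a ∈ p.1.2.2 then 1 else 0)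
  have hpush : ∀ (e : Wr r → A) (f : A → ℝ),
      ∑ a, f a * ((univ.filter fun v => e v = a).card : ℝ) = ∑ v, f (e v) := by
    intro e f
    have h1 : ∀ a, f a * ((univ.filter fun v => e v = a).card : ℝ) =
        ∑ v, if e v = a then f (e v) else 0 := by
      intro a
      rw [← sum_filter, sum_congr rfl (g := fun _ => f a) fun v hv => by
        rw [(mem_filter.1 hv).2], sum_const, nsmul_eq_mul, mul_comm]
    rw [sum_congr rfl fun a _ => h1 a, sum_comm]
    exact sum_congr rfl fun v _ => by rw [sum_ite_eq, if_pos (mem_univ _)]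
  obtain ⟨w, hw0, hw1, hw2⟩ := sep A I y (fun l => by
    obtain ⟨e, B0, B1, h1, h2, h4, h5⟩ := htr l
    refine ⟨⟨(e, B0, B1), h1, h2, h4⟩, le_trans (le_of_eq ?_) h5⟩
    simp only [y, mul_add, sum_add_distrib]
    congr 1
    · congr 1
      · exact hpush e fun a => l a
      · rw [mul_sum, ← sum_filter_add_sum_filter_not univ (fun a => a ∈ B0)
          (fun a => (l a : ℝ) * (lam * if a ∈ B0 then 1 else 0))]
        have e1 : ∑ a ∈ univ.filter (fun a => a ∉ B0),
            ((l a : ℝ) * (lam * if a ∈ B0 then 1 else 0)) = 0 := by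
          refine sum_eq_zero fun a ha => ?_
          rw [if_neg (mem_filter.1 ha).2]
          ring
        have e2 : univ.filter (fun a => a ∈ B0) = B0 := by
          ext a
          simp
        rw [e1, e2, add_zero]
        refine sum_congr rfl fun a ha => ?_
        rw [if_pos ha]
        ring
    · rw [mul_sum, ← sum_filter_add_sum_filter_not univ (fun a => a ∈ B1)
        (fun a => (l a : ℝ) * (lam * if a ∈ B1 then 1 else 0))]
      have e1 : ∑ a ∈ univ.filter (fun a => a ∉ B1),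
          ((l a : ℝ) * (lam * if a ∈ B1 then 1 else 0)) = 0 := by
        refine sum_eq_zero fun a ha => ?_
        rw [if_neg (mem_filter.1 ha).2]
        ring
      have e2 : univ.filter (fun a => a ∈ B1) = B1 := by
        ext a
        simp
      rw [e1, e2, add_zero]
      refine sum_congr rfl fun a ha => ?_
      rw [if_pos ha]
      ring)
  let Q : A → ℝ := fun a => ∑ p, w p * (lam * if a ∈ p.1.2.1 then 1 else 0)
  let θ : A → ℝ := fun a => ∑ p, w p * (lam * if a ∈ p.1.2.2 then 1 else 0)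
  let T : A → ℝ := fun a => ∑ p, w p * ((univ.filter fun v => p.1.1 v = a).card : ℝ)
  have hsplit : ∀ a, T a + Q a + θ a ≤ 1 := by
    intro a
    refine le_trans (le_of_eq ?_) (hw2 a)
    simp only [T, Q, θ, y]
    rw [← sum_add_distrib, ← sum_add_distrib]
    exact sum_congr rfl fun p _ => by ring
  have hQ0 : ∀ a, 0 ≤ Q a := fun a => sum_nonneg fun p _ =>
    mul_nonneg (hw0 p) (mul_nonneg hlampos.le (by split_ifs <;> norm_num))
  have hθ0 : ∀ a, 0 ≤ θ a := fun a => sum_nonneg fun p _ =>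
    mul_nonneg (hw0 p) (mul_nonneg hlampos.le (by split_ifs <;> norm_num))
  -- the covers
  have hcover : ∀ (E : Finset A) (g : I → Finset A), (∀ p, ∃ a ∈ g p, a ∈ E) →
      lam ≤ ∑ a ∈ E, ∑ p, w p * (lam * if a ∈ g p then 1 else 0) := by
    intro E g hg
    rw [sum_comm]
    calc lam = ∑ p, w p * lam := by rw [← sum_mul, hw1, one_mul]
      _ ≤ ∑ p, ∑ a ∈ E, w p * (lam * if a ∈ g p then 1 else 0) := by
        refine sum_le_sum fun p _ => ?_
        obtain ⟨a, ha1, ha2⟩ := hg p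
        refine le_trans (le_of_eq ?_) (single_le_sum (f := fun a =>
          w p * (lam * if a ∈ g p then 1 else 0)) (fun b _ => mul_nonneg (hw0 p)
          (mul_nonneg hlampos.le (by split_ifs <;> norm_num))) ha2)
        simp only [if_pos ha1, mul_one]
  -- the conductances
  set K : ℝ := (Fintype.card A : ℝ) + 1 with hKdef
  have hKpos : 0 < K := by positivity
  have hK1 : 1 ≤ K := by
    rw [hKdef]
    have : (0 : ℝ) ≤ Fintype.card A := Nat.cast_nonneg _
    linarith
  set ε : ℝ := s / (2 * K) with hε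
  have hεpos : 0 < ε := by positivity
  have hεA : ε * Fintype.card A < s := by
    have h4 : ε * K = s / 2 := by
      rw [hε]
      field_simp
    have h5 : ε * Fintype.card A ≤ ε * K :=
      mul_le_mul_of_nonneg_left (by rw [hKdef]; linarith) hεpos.le
    linarith
  have hs1 : s < 1 := by
    rw [hs, div_lt_one (by positivity)]
    have : (1 : ℝ) ≤ n := by exact_mod_cast hnpos
    linarith
  obtain ⟨c, hc, hP⟩ := hL V A A tl hd r (fun a => {a}) (fun a => 1 - θ a - Q a) hconn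
    (fun k => by
      -- a tree of weight at most the average
      by_contra hno
      push Not at hno
      have h1 : ∑ a, (k a : ℝ) * (1 - θ a - Q a) < ∑ p, w p * ∑ v, (k (p.1.1 v) : ℝ) := by
        have h2 : ∀ p : I, ∑ a, (k a : ℝ) * (1 - θ a - Q a) < ∑ v, (k (p.1.1 v) : ℝ) := by
          intro p
          have h3 := hno p.1.1 p.2.1
          refine h3.trans_le (le_of_eq ?_)
          push_cast
          refine sum_congr rfl fun v _ => ?_
          simp only [mem_singleton]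
          rw [sum_ite_eq, if_pos (mem_univ _)]
        obtain ⟨p0, hp0⟩ : ∃ p, 0 < w p := by
          by_contra h
          push Not at h
          have : ∑ p, w p ≤ 0 := sum_nonpos fun p _ => h p
          linarith
        calc ∑ a, (k a : ℝ) * (1 - θ a - Q a)
            = ∑ p, w p * ∑ a, (k a : ℝ) * (1 - θ a - Q a) := by rw [← sum_mul, hw1, one_mul]
          _ < ∑ p, w p * ∑ v, (k (p.1.1 v) : ℝ) :=
            sum_lt_sum (fun p _ => mul_le_mul_of_nonneg_left (h2 p).le (hw0 p))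
              ⟨p0, mem_univ _, mul_lt_mul_of_pos_left (h2 p0) hp0⟩
      have h2 : ∑ p, w p * ∑ v, (k (p.1.1 v) : ℝ) = ∑ a, (k a : ℝ) * T a := by
        have e1 : ∀ a, (k a : ℝ) * T a =
            ∑ p, w p * ((k a : ℝ) * ((univ.filter fun v => p.1.1 v = a).card : ℝ)) := by
          intro a
          simp only [T]
          rw [mul_sum]
          exact sum_congr rfl fun p _ => by ring
        rw [sum_congr rfl fun a _ => e1 a, sum_comm]
        refine sum_congr rfl fun p _ => ?_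
        rw [← hpush p.1.1 fun a => (k a : ℝ), mul_sum]
      have h3 : ∑ a, (k a : ℝ) * T a ≤ ∑ a, (k a : ℝ) * (1 - θ a - Q a) :=
        sum_le_sum fun a _ => mul_le_mul_of_nonneg_left (by
          have := hsplit a
          linarith) (Nat.cast_nonneg _)
      linarith) ε hεpos
  refine of_split hV tl hd r m hconn c hc θ Q ε hθ0 hQ0 (fun a => ?_) (by linarith) hεpos.le
    (fun U hU => ?_) (fun U hU => ?_)
  · have := hP a
    rwa [sum_singleton] at this
  · have h1 := hcover (entr tl hd U) (fun p => p.1.2.1) (fun p => p.2.2.1 U hU)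
    simp only [Q]
    linarith
  · have h1 := hcover (entr hd tl U) (fun p => p.1.2.2) (fun p => p.2.2.2 U hU)
    simp only [θ]
    linarith

end

end WoodF
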