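import Pool.Agent.Lib.MP_492a9e_co.R.Few
import Pool.Agent.Lib.MP_492a9e_co.W.Scheme

/-!
# From an integral vector to disjoint dijoins (section 4)

`two_sides`: if `c` enters every nonempty closed set without `r` at least `m` times and the other
arcs enter every proper closed set with `r` at least `m` times, there are `m` disjoint dijoins.

`of_vector`: it suffices that every directed cut has at least `(t + 1) m - t` arcs and that there
is an integral vector `z` with `z(V) = 0`, `(t + 1) z(U) ≤ t d(U)` for all closed `U` and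
`m ≤ z(U)` for all nonempty closed `U` without `r`.
-/

open Finset WoodR WoodArc

namespace WoodFV

set_option linter.unusedSectionVars false

variable {V A : Type} [Fintype V] [DecidableEq V] [Fintype A] [DecidableEq A]

/-- a set `c` for one side and its complement for the other side -/
theorem two_sides (tl hd : A → V) (r : V) (m : ℕ) (c : Finset A)
    (h0 : ∀ U : Finset V, (∀ a, tl a ∈ U → hd a ∈ U) → U.Nonempty → r ∉ U →
      m ≤ ((entr tl hd U).filter fun a => a ∈ c).card)
    (h1 : ∀ U : Finset V, (∀ a, tl a ∈ U → hd a ∈ U) → U ≠ univ → r ∈ U →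
      m ≤ ((entr tl hd U).filter fun a => a ∉ c).card) : Dij tl hd m := by
  classical
  rcases Nat.eq_zero_or_pos m with rfl | hm
  · exact ⟨fun _ => ∅, fun i => i.elim0, fun i => i.elim0⟩
  have hup : ∀ U : Finset V, Wood2.Up (Wood3.Re tl hd) U → ∀ a, tl a ∈ U → hd a ∈ U :=
    fun U hU a ha => hU _ ha _ (Relation.ReflTransGen.single ⟨a, rfl, rfl⟩)
  obtain ⟨f, hf⟩ := WoodW.one_root (r := Wood3.Re tl hd) (tl := tl) (hd := hd) (S := univ)
    (fun v => Relation.ReflTransGen.refl) (fun u v w h h' => Relation.ReflTransGen.trans h h')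
    (fun e _ => Relation.ReflTransGen.single ⟨e, rfl, rfl⟩) hm r (fun a => a ∈ c)
    (fun U hne hU hr => by
      refine (h0 U (hup U hU) hne hr).trans (card_le_card fun a ha => ?_)
      rw [mem_filter, mem_entr] at ha
      exact mem_filter.2 ⟨mem_univ _, ha.2, ha.1⟩)
    (fun W hne hW hr => by
      have h2 : ∀ a, tl a ∈ Wᶜ → hd a ∈ Wᶜ := by
        intro a ha
        rw [mem_compl] at ha ⊢
        exact fun h => ha (hW _ h _ (Relation.ReflTransGen.single ⟨a, rfl, rfl⟩))
      refine (h1 Wᶜ h2 (fun h => ?_) (mem_compl.2 hr)).trans (card_le_card fun a ha => ?_)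
      · obtain ⟨w, hw⟩ := hne
        exact mem_compl.1 (h ▸ mem_univ w) hw
      · rw [mem_filter, mem_entr, mem_compl, mem_compl, not_not] at ha
        exact mem_filter.2 ⟨mem_univ _, ha.2, ha.1⟩)
  refine ⟨fun i => {a | f a = i}, fun i j hij => ?_, fun i U hne huniv hU => ?_⟩
  · rw [Set.disjoint_left]
    intro a h1 h2
    exact hij (h1.symm.trans h2)
  · obtain ⟨e, -, h2, h3, h4⟩ := hf i U.toFinset ⟨by
      rwa [Set.toFinset_nonempty], by
      intro h
      apply huniv
      rw [Set.eq_univ_iff_forall]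
      intro v
      rw [← Set.mem_toFinset, h]
      exact mem_univ v, by
      intro u hu v huv
      rw [Set.mem_toFinset] at hu ⊢
      exact Wood2.closed_reach hU huv hu⟩
    rw [Set.mem_toFinset] at h3 h4
    exact ⟨e, h2, h3, h4⟩

/-- **from an integral vector to dijoins** -/
theorem of_vector (tl hd : A → V) (r : V) (t m : ℕ)
    (hcut : CutGe tl hd ((t + 1) * m - t)) (z : V → ℤ) (h0 : ∑ v, z v = 0)
    (h1 : ∀ U : Finset V, (∀ a, tl a ∈ U → hd a ∈ U) →
      ((t : ℤ) + 1) * ∑ v ∈ U, z v ≤ t * (entr tl hd U).card)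
    (h2 : ∀ U : Finset V, (∀ a, tl a ∈ U → hd a ∈ U) → U.Nonempty → r ∉ U →
      (m : ℤ) ≤ ∑ v ∈ U, z v) : Dij tl hd m := by
  classical
  obtain ⟨c, hc1, hc2⟩ := zq tl hd t z h0 h1
  refine two_sides tl hd r m c (fun U hU hne hr => ?_) (fun U hU hne hr => ?_)
  · exact_mod_cast (h2 U hU hne hr).trans (hc1 U hU)
  · have h3 := hcut (U : Set V) ⟨r, hr⟩ (fun h => hne (by
      rw [eq_univ_iff_forall]
      intro v
      rw [← mem_coe, h]
      exact Set.mem_univ v)) (fun a ha => mem_coe.2 (hU a (mem_coe.1 ha)))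
    have h4 : {a | tl a ∉ (U : Set V) ∧ hd a ∈ (U : Set V)}.ncard = (entr tl hd U).card := by
      rw [← Set.ncard_coe_finset]
      congr 1
      ext a
      rw [mem_coe, mem_entr]
      rfl
    rw [h4] at h3
    have h5 := hc2 U hU
    by_contra h6
    push Not at h6
    have h7 : (t + 1) * (((entr tl hd U).filter fun a => a ∉ c).card + 1) ≤ (t + 1) * m :=
      Nat.mul_le_mul_left _ h6
    rw [Nat.mul_add, Nat.mul_one] at h7
    omega

end WoodFV
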