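import Pool.Agent.Lib.MP_492a9e_co.FV.CNT
import Pool.Agent.Lib.MP_492a9e_co.FV.End

/-!
# Assembly for 3-edge-connected graphs
-/

open Finset WoodR Matrix

namespace WoodF

set_option linter.unusedSectionVars false

section
variable {V A : Type} [Fintype V] [DecidableEq V] [Fintype A] [DecidableEq A]

theorem mem_F0 {tl hd : A → V} {r : V} {U : Finset V} :
    U ∈ F0 tl hd r ↔ U.Nonempty ∧ Clo tl hd U ∧ r ∉ U := by
  classical
  unfold F0
  rw [mem_filter]
  exact ⟨fun h => h.2, fun h => ⟨mem_univ _, h⟩⟩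

/-- the arcs crossing a closed set enter it -/
theorem crs_closed {tl hd : A → V} {U : Finset V} (h : Clo tl hd U) :
    crs tl hd U = entr tl hd U := by
  classical
  ext a
  unfold crs
  rw [mem_filter, mem_entr]
  have := h a
  constructor
  · rintro ⟨_, h1⟩
    constructor
    · intro h2
      exact h1 ⟨fun _ => this h2, fun _ => h2⟩
    · by_contra h2
      exact h1 ⟨fun h3 => absurd (this h3) h2, fun h3 => absurd h3 h2⟩
  · rintro ⟨h1, h2⟩
    exact ⟨mem_univ _, fun h3 => h1 (h3.2 h2)⟩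

theorem crs_compl (tl hd : A → V) (U : Finset V) : crs tl hd Uᶜ = crs tl hd U := by
  classical
  ext a
  unfold crs
  rw [mem_filter, mem_filter, mem_compl, mem_compl, not_iff_not]

/-- total length of a multiset -/
theorem sum_len (tl hd : A → V) (r : V) (n : Finset V → ℕ) :
    ∑ a, len tl hd r n a = ∑ U ∈ F0 tl hd r, n U * (entr tl hd U).card := by
  classical
  unfold len
  rw [sum_comm]
  refine sum_congr rfl fun U _ => ?_
  rw [← sum_filter, sum_const, smul_eq_mul, mul_comm]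
  congr 1
  congr 1
  ext a
  simp

/-- the hypothesis of LPM -/
theorem tree_ok (hK : SpecKRU) (hU : SpecUNC) (hC : SpecCNT) (tl hd : A → V) (r : V) (τ : ℕ)
    (hτ : 5 ≤ τ) (h3 : Conn tl hd 3)
    (hcut : ∀ U : Finset V, U.Nonempty → U ≠ univ → Clo tl hd U → τ ≤ (entr tl hd U).card)
    (n : Finset V → ℕ) : ∃ e : Wr r → A, Bas tl hd r e ∧
      ((∑ v, len tl hd r n (e v) : ℕ) : ℝ) ≤
        ∑ U ∈ F0 tl hd r, n U * ((4 * (entr tl hd U).card + 1 - τ) / 5 : ℝ) := by
  classical
  obtain ⟨N, hN⟩ : ∃ N, ∑ X ∈ F0 tl hd r, n X = N := ⟨_, rfl⟩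
  have hex := hU V A tl hd r n
  rw [hN] at hex
  obtain ⟨U, hU1, hU2, hU3⟩ := hex
  have hle : ∀ a, lenF tl hd U a ≤ N := by
    intro a
    unfold lenF
    refine (card_le_univ _).trans ?_
    rw [Fintype.card_fin]
  obtain ⟨e, he, hsum⟩ := hK V A tl hd r (lenF tl hd U) N
    (fun S a b => le_trans (by norm_num) (h3 S a b)) hle
  refine ⟨e, he, ?_⟩
  have h1 := hC V A tl hd r τ hτ h3 hcut N U hU1 hU2 N
  have h2 : ∑ i, (entr tl hd (U i)).card = ∑ X ∈ F0 tl hd r, n X * (entr tl hd X).card := by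
    rw [← sum_lenFC, ← sum_len]
    exact sum_congr rfl fun a _ => hU3 a
  have h4 : ∑ v, len tl hd r n (e v) = ∑ v, lenF tl hd U (e v) :=
    sum_congr rfl fun v _ => (hU3 (e v)).symm
  rw [sum_add_distrib, sum_const, card_univ, Fintype.card_fin, smul_eq_mul, mul_one, ← mul_sum,
    h2] at h1
  rw [h4]
  have h5 : 5 * ∑ v, lenF tl hd U (e v) + N * τ ≤
      4 * ∑ X ∈ F0 tl hd r, n X * (entr tl hd X).card + N := by omega
  have h6 : (5 * ((∑ v, lenF tl hd U (e v) : ℕ) : ℝ) + N * τ : ℝ) ≤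
      4 * ∑ X ∈ F0 tl hd r, (n X : ℝ) * (entr tl hd X).card + N := by
    exact_mod_cast h5
  have h7 : ∑ X ∈ F0 tl hd r, (n X : ℝ) * ((4 * (entr tl hd X).card + 1 - τ) / 5 : ℝ) =
      (4 * ∑ X ∈ F0 tl hd r, (n X : ℝ) * (entr tl hd X).card + N - N * τ) / 5 := by
    rw [← hN]
    push_cast
    rw [sum_mul, mul_sum, ← sum_add_distrib, ← sum_sub_distrib, sum_div]
    refine sum_congr rfl fun X _ => ?_
    ring
  rw [h7]
  linarith

/-- **3-edge-connected graphs** -/
theorem conn3 (hK : SpecKRU) (hU : SpecUNC) (hC : SpecCNT) (hV : SpecCV) (hM : SpecLPM)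
    (tl hd : A → V) (m : ℕ) (hm : 2 ≤ m) (h3 : Conn tl hd 3)
    (hcut : WoodArc.CutGe tl hd (5 * m - 4)) : WoodArc.Dij tl hd m := by
  classical
  rcases isEmpty_or_nonempty V with hVe | ⟨⟨r⟩⟩
  · exact ⟨fun _ => ∅, fun i j _ => by simp, fun i U hne => by
      obtain ⟨x, _⟩ := hne
      exact (hVe.false x).elim⟩
  have hcutF : ∀ U : Finset V, U.Nonempty → U ≠ univ → Clo tl hd U →
      5 * m - 4 ≤ (entr tl hd U).card := by
    intro U h1 h2 h4
    have h5 := hcut (U : Set V) (by simpa using h1) (fun h => h2 (by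
      rw [eq_univ_iff_forall]
      intro v
      rw [← mem_coe, h]
      exact Set.mem_univ v)) (fun a ha => mem_coe.2 (h4 a (mem_coe.1 ha)))
    have h6 : {a | tl a ∉ (U : Set V) ∧ hd a ∈ (U : Set V)} = ((entr tl hd U : Finset A) : Set A) := by
      ext a
      rw [mem_coe, mem_entr]
      rfl
    rw [h6, Set.ncard_coe_finset] at h5
    exact h5
  set K : ℝ := (Fintype.card A : ℝ) + 1 with hKdef
  have hKpos : 0 < K := by positivity
  set θ : ℝ := 1 / (5 * K) with hθ
  have hθpos : 0 < θ := by positivity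
  obtain ⟨c, hc, hP⟩ := hM V A tl hd r (fun U => (4 * (entr tl hd U).card + 1 - (5 * m - 4 : ℕ)) / 5)
    (fun S a b => le_trans (by norm_num) (h3 S a b))
    (fun n => tree_ok hK hU hC tl hd r (5 * m - 4) (by omega) h3 hcutF n) θ hθpos
  set x0 : A → ℝ := fun a => 4 / 5 + θ - Pr tl hd r c a / 2 with hx0
  set z0 : V → ℝ := fun v => ∑ a, x0 a * ((if hd a = v then 1 else 0) - (if tl a = v then 1 else 0))
    with hz0
  have hz0U : ∀ U : Finset V, ∑ v ∈ U, z0 v =
      ∑ a, x0 a * ((if hd a ∈ U then 1 else 0) - (if tl a ∈ U then 1 else 0)) := by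
    intro U
    rw [hz0, sum_comm]
    refine sum_congr rfl fun a _ => ?_
    rw [← mul_sum, sum_sub_distrib, sum_ite_eq, sum_ite_eq]
  have hz0c : ∀ U : Finset V, Clo tl hd U → ∑ v ∈ U, z0 v = ∑ a ∈ entr tl hd U, x0 a := by
    intro U hUc
    rw [hz0U, entr, sum_filter]
    refine sum_congr rfl fun a _ => ?_
    have := hUc a
    by_cases h1 : tl a ∈ U
    · have h2 := this h1
      simp [h1, h2]
    · by_cases h2 : hd a ∈ U <;> simp [h1, h2]
  have hz0s : ∑ v, z0 v = 0 := by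
    rw [hz0U]
    simp
  have hx0U : ∀ U : Finset V, ∑ a ∈ entr tl hd U, x0 a =
      (4 / 5 + θ) * (entr tl hd U).card - (1 / 2) * ∑ a ∈ entr tl hd U, Pr tl hd r c a := by
    intro U
    rw [hx0, sum_sub_distrib, sum_const, nsmul_eq_mul, ← sum_div]
    ring
  obtain ⟨z, hz1, hz2⟩ := hV V A tl hd r c hc
    (fun S a b => le_trans (by norm_num) (h3 S a b)) z0 hz0s
  have hz1r : ∑ v, (z v : ℝ) = 0 := by exact_mod_cast hz1
  -- the two-sided estimate
  have habs : ∀ U : Finset V, Clo tl hd U →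
      |∑ v ∈ U, (z v : ℝ) - ∑ a ∈ entr tl hd U, x0 a| ≤
        1 / 2 * ∑ a ∈ entr tl hd U, Pr tl hd r c a := by
    intro U hUc
    by_cases hr : r ∈ U
    · have h1 := hz2 Uᶜ (by simpa using hr)
      rw [crs_compl, crs_closed hUc, sum_sub_distrib] at h1
      have h2 := sum_add_sum_compl U (fun v => (z v : ℝ))
      have h4 := sum_add_sum_compl U z0
      rw [hz1r] at h2
      rw [hz0s, hz0c U hUc] at h4
      rw [← abs_neg]
      refine le_trans (le_of_eq ?_) h1
      congr 1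
      linarith
    · have h1 := hz2 U hr
      rw [crs_closed hUc, sum_sub_distrib, hz0c U hUc] at h1
      exact h1
  have hcard : ∀ U : Finset V, ((entr tl hd U).card : ℝ) ≤ Fintype.card A := by
    intro U
    exact_mod_cast card_le_univ _
  have hup : ∀ U : Finset V, Clo tl hd U →
      5 * ∑ v ∈ U, z v ≤ 4 * ((entr tl hd U).card : ℤ) := by
    intro U hUc
    have h1 := (abs_le.1 (habs U hUc)).2
    rw [hx0U] at h1
    have h2 : θ * (entr tl hd U).card < 1 / 5 := by
      have h4 : θ * K = 1 / 5 := by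
        rw [hθ]
        field_simp
      have h5 : ((entr tl hd U).card : ℝ) < K := by
        have := hcard U
        rw [hKdef]
        linarith
      calc θ * (entr tl hd U).card < θ * K := mul_lt_mul_of_pos_left h5 hθpos
        _ = 1 / 5 := h4
    have h4 : 5 * ∑ v ∈ U, (z v : ℝ) < 4 * (entr tl hd U).card + 1 := by linarith
    have h5 : 5 * ∑ v ∈ U, z v < 4 * ((entr tl hd U).card : ℤ) + 1 := by exact_mod_cast h4
    omega
  refine WoodFV.of_vector tl hd r 4 m (by simpa using hcut) z hz1 (fun U hU => ?_)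
    (fun U hU hne hr => ?_)
  · have := hup U hU
    push_cast
    linarith
  · have h1 := (abs_le.1 (habs U hU)).1
    have h2 := hP U (mem_F0.2 ⟨hne, hU, hr⟩)
    rw [hx0U] at h1
    have h4 : 5 * m - 4 ≤ (entr tl hd U).card := hcutF U hne (fun h => hr (h ▸ mem_univ _)) hU
    have h5 : (2 : ℝ) ≤ (entr tl hd U).card := by
      have : 2 ≤ (entr tl hd U).card := by omega
      exact_mod_cast this
    have h6 : ((5 * m - 4 : ℕ) : ℝ) = 5 * m - 4 := by
      rw [Nat.cast_sub (by omega)]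
      push_cast
      ring
    rw [h6] at h2
    have h7 : θ * 2 ≤ θ * (entr tl hd U).card := mul_le_mul_of_nonneg_left h5 hθpos.le
    have h8 : (m : ℝ) - 1 < ∑ v ∈ U, (z v : ℝ) := by linarith
    have h9 : (m : ℤ) - 1 < ∑ v ∈ U, z v := by exact_mod_cast h8
    omega

end

end WoodF
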