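import Pool.Agent.Lib.MP_492a9e_co.FV.Defs

/-!
# One closed set and a laminar family of sets which can be removed from it (CNTA)

Order the members `C` of `K` by size and remove them from `U` one after the other. The rest `S` is
always closed and, before a member `C` is removed, nonempty. If `T` is what `C` removes then at
least three arcs have one end in `T`; the arcs that leave `T` leave `C`, so there is at most one,
and at least two arcs enter `T`, from outside the rest. So the number of arcs that enter the rest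
goes down by at least one.
-/

open Finset WoodR

namespace WoodF

set_option linter.unusedSectionVars false

section
variable {V A : Type} [Fintype V] [DecidableEq V] [Fintype A] [DecidableEq A]

theorem cnta_closed {tl hd : A → V} {U : Finset V} {K : Finset (Finset V)} (hU : Clo tl hd U)
    (hg : ∀ C ∈ K, ∀ a ∈ entr tl hd C, hd a ∈ U → tl a ∉ U) : Clo tl hd (U \ K.biUnion id) := by
  intro b hb
  rw [mem_sdiff, mem_biUnion] at hb ⊢
  refine ⟨hU b hb.1, ?_⟩
  rintro ⟨C, hC, hC2⟩
  have h1 : tl b ∉ C := fun h => hb.2 ⟨C, hC, h⟩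
  exact hg C hC b (mem_entr.2 ⟨h1, hC2⟩) (hU b hb.1) hb.1

theorem cnta_step {tl hd : A → V} {S C : Finset V} (hS : Clo tl hd S) (hS' : Clo tl hd (S \ C))
    (hl : (lev tl hd C).card ≤ 1) (h3 : 3 ≤ (crs tl hd (S ∩ C)).card) :
    (entr tl hd (S \ C)).card + 1 ≤ (entr tl hd S).card := by
  classical
  let X : Finset A := univ.filter fun a => tl a ∉ S ∧ hd a ∈ S ∩ C
  let Y : Finset A := univ.filter fun a => tl a ∈ S ∩ C ∧ hd a ∈ S \ C
  let Z : Finset A := univ.filter fun a => tl a ∉ S ∧ hd a ∈ S \ C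
  have h4 : crs tl hd (S ∩ C) ⊆ X ∪ Y := by
    intro a ha
    have h := (mem_filter.1 ha).2
    rw [mem_union, mem_filter, mem_filter]
    have e1 := hS a
    have e2 := hS' a
    simp only [mem_inter, mem_sdiff, mem_univ, true_and] at h e1 e2 ⊢
    tauto
  have h5 : entr tl hd (S \ C) ⊆ Z ∪ Y := by
    intro a ha
    rw [mem_entr] at ha
    rw [mem_union, mem_filter, mem_filter]
    simp only [mem_inter, mem_sdiff, mem_univ, true_and] at ha ⊢
    tauto
  have h6 : Z ∪ X ⊆ entr tl hd S := by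
    intro a ha
    rw [mem_entr]
    rw [mem_union, mem_filter, mem_filter] at ha
    simp only [mem_inter, mem_sdiff, mem_univ, true_and] at ha
    tauto
  have h7 : Disjoint Z X := by
    rw [disjoint_left]
    intro a h1 h2
    have h1 := (mem_filter.1 h1).2.2
    have h2 := (mem_filter.1 h2).2.2
    exact (mem_sdiff.1 h1).2 (mem_inter.1 h2).2
  have h8 : Y ⊆ lev tl hd C := by
    intro a ha
    have h := (mem_filter.1 ha).2
    exact mem_filter.2 ⟨mem_univ _, (mem_inter.1 h.1).2, (mem_sdiff.1 h.2).2⟩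
  have k1 := (card_le_card h4).trans (card_union_le _ _)
  have k2 := (card_le_card h5).trans (card_union_le _ _)
  have k3 := card_le_card h6
  rw [card_union_of_disjoint h7] at k3
  have k4 := card_le_card h8
  omega

/-- the hypotheses on the family -/
structure Rem (tl hd : A → V) (U : Finset V) (K : Finset (Finset V)) : Prop where
  lam : ∀ C ∈ K, ∀ C' ∈ K, C ⊆ C' ∨ C' ⊆ C ∨ Disjoint C C'
  one : ∀ C ∈ K, (lev tl hd C).card ≤ 1
  good : ∀ C ∈ K, ∀ a ∈ entr tl hd C, hd a ∈ U → tl a ∉ U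
  new : ∀ C ∈ K, ∃ a ∈ entr tl hd C, hd a ∈ U ∧ ∀ C' ∈ K, C' ⊂ C → a ∉ entr tl hd C'

theorem Rem.mono {tl hd : A → V} {U : Finset V} {K K' : Finset (Finset V)} (h : Rem tl hd U K)
    (hK : K' ⊆ K) : Rem tl hd U K' where
  lam C hC C' hC' := h.lam C (hK hC) C' (hK hC')
  one C hC := h.one C (hK hC)
  good C hC := h.good C (hK hC)
  new C hC := by
    obtain ⟨a, h1, h2, h3⟩ := h.new C (hK hC)
    exact ⟨a, h1, h2, fun C' hC' => h3 C' (hK hC')⟩

/-- a largest member removes something -/
theorem Rem.top {tl hd : A → V} {U : Finset V} {K : Finset (Finset V)} (h : Rem tl hd U K)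
    (hK : K.Nonempty) : ∃ C ∈ K, ((U \ (K.erase C).biUnion id) ∩ C).Nonempty := by
  classical
  obtain ⟨C, hC, hmax⟩ := exists_max_image K card hK
  refine ⟨C, hC, ?_⟩
  obtain ⟨a, h1, h2, h3⟩ := h.new C hC
  rw [mem_entr] at h1
  refine ⟨hd a, ?_⟩
  rw [mem_inter, mem_sdiff, mem_biUnion]
  refine ⟨⟨h2, ?_⟩, h1.2⟩
  rintro ⟨C', hC', h4⟩
  rw [mem_erase] at hC'
  rcases h.lam C hC C' hC'.2 with h5 | h5 | h5
  · exact hC'.1 (eq_of_subset_of_card_le h5 (hmax C' hC'.2)).symm
  · refine h3 C' hC'.2 (ssubset_of_subset_of_ne h5 hC'.1) (mem_entr.2 ⟨fun h6 => h1.1 (h5 h6), h4⟩)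
  · exact disjoint_left.1 h5 h1.2 h4

theorem cnta_main {tl hd : A → V} {r : V} (h3 : Conn tl hd 3) {U : Finset V} (hU : Clo tl hd U)
    (hr : r ∉ U) : ∀ K : Finset (Finset V), Rem tl hd U K → (U \ K.biUnion id).Nonempty →
    (entr tl hd (U \ K.biUnion id)).card + K.card ≤ (entr tl hd U).card := by
  classical
  intro K
  induction K using Finset.strongInduction with
  | H K ih =>
    intro hK hne
    rcases K.eq_empty_or_nonempty with rfl | hKn
    · simp
    obtain ⟨C, hC, hT⟩ := hK.top hKn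
    have e1 : U \ K.biUnion id = (U \ (K.erase C).biUnion id) \ C := by
      ext v
      simp only [mem_sdiff, mem_biUnion, mem_erase, id]
      constructor
      · rintro ⟨h1, h2⟩
        exact ⟨⟨h1, fun ⟨D, hD, h⟩ => h2 ⟨D, hD.2, h⟩⟩, fun h => h2 ⟨C, hC, h⟩⟩
      · rintro ⟨⟨h1, h2⟩, h4⟩
        refine ⟨h1, fun ⟨D, hD, h⟩ => ?_⟩
        by_cases hDC : D = C
        · exact h4 (hDC ▸ h)
        · exact h2 ⟨D, ⟨hDC, hD⟩, h⟩
    have hK' := hK.mono (erase_subset C K)
    have ih' := ih _ (erase_ssubset hC) hK' (by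
      rw [e1] at hne
      exact hne.mono sdiff_subset)
    have c1 := cnta_closed hU hK'.good
    have c2 := cnta_closed hU hK.good
    have h5 := cnta_step c1 (e1 ▸ c2) (hK.one C hC) (h3 _ hT (by
      intro h
      apply hr
      have h6 := mem_univ r
      rw [← h, mem_inter, mem_sdiff] at h6
      exact h6.1.1))
    rw [← e1] at h5
    rw [card_erase_of_mem hC] at ih'
    have h6 := card_pos.2 hKn
    omega

end

theorem cnta : SpecCNTA := by
  intro V A _ _ _ _ tl hd r τ h3 hτ U hU K h1 h2 h4 h5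
  classical
  have hU' := (mem_filter.1 hU).2
  have hK : Rem tl hd U K := ⟨h1, h2, h4, h5⟩
  rcases K.eq_empty_or_nonempty with rfl | hKn
  · rw [card_empty]
    have := hτ U hU'.1 (fun h => hU'.2.2 (h ▸ mem_univ r)) hU'.2.1
    omega
  obtain ⟨C, hC, hT⟩ := hK.top hKn
  have hK' := hK.mono (erase_subset C K)
  have hne : (U \ (K.erase C).biUnion id).Nonempty := hT.mono inter_subset_left
  have h6 := cnta_main h3 hU'.2.1 hU'.2.2 _ hK' hne
  have h7 := hτ _ hne (fun h => hU'.2.2 (by
    have h8 := mem_univ r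
    rw [← h, mem_sdiff] at h8
    exact h8.1)) (cnta_closed hU'.2.1 hK'.good)
  rw [card_erase_of_mem hC] at h6
  have h8 := card_pos.2 hKn
  omega

end WoodF
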