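import Pool.Agent.Lib.MP_492a9e_co.FV.Defs

/-!
# Kruskal's bound (module KRU)

A basis of incidence vectors chosen greedily with respect to the length has at most
`κ_t - 1` arcs longer than `t`, where `κ_t` is the number of components of the graph of the arcs of
length at most `t`.
-/

open Finset Matrix WoodR

namespace WoodF

set_option linter.unusedSectionVars false

section
variable {V A : Type} [Fintype V] [DecidableEq V] [Fintype A] [DecidableEq A]

/-- the unit vector of a vertex (zero for the root) -/
def dv (r : V) (v : V) : Wr r → ℝ := fun w => if v = w.1 then 1 else 0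

lemma bv_eq (tl hd : A → V) (r : V) (a : A) : bv tl hd r a = dv r (hd a) - dv r (tl a) := by
  funext w; simp [bv, dv]

lemma dv_root (r : V) : dv r r = 0 := by
  funext w
  have : r ≠ w.1 := fun h => w.2 h.symm
  simp [dv, this]

/-- every vertex lies in a component -/
lemma exists_part (tl hd : A → V) (l : A → ℕ) (t : ℕ) (v : V) :
    ∃ C, IsPart tl hd l t C ∧ v ∈ C := by
  classical
  set K : Finset V → Prop := fun X => ∀ a, l a ≤ t → (tl a ∈ X ↔ hd a ∈ X) with hK
  set C : Finset V := univ.filter fun w => ∀ X : Finset V, K X → v ∈ X → w ∈ X with hC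
  have hvC : v ∈ C := by simp [hC]
  have hCK : K C := by
    intro a ha
    simp only [hC, mem_filter, mem_univ, true_and]
    constructor
    · intro h X hX hv; exact (hX a ha).1 (h X hX hv)
    · intro h X hX hv; exact (hX a ha).2 (h X hX hv)
  have hmin : ∀ X : Finset V, K X → v ∈ X → C ⊆ X := by
    intro X hX hv w hw
    simp only [hC, mem_filter, mem_univ, true_and] at hw
    exact hw X hX hv
  refine ⟨C, ⟨⟨v, hvC⟩, hCK, ?_⟩, hvC⟩
  intro X hXne hXC
  by_contra hcon
  push Not at hcon
  have hXK : K X := by
    intro a ha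
    by_cases h : tl a ∈ C
    · exact hcon a ha h
    · have h' : hd a ∉ C := fun h2 => h ((hCK a ha).2 h2)
      have h1 : tl a ∉ X := fun h2 => h (hXC.subset h2)
      have h3 : hd a ∉ X := fun h2 => h' (hXC.subset h2)
      simp [h1, h3]
  by_cases hvX : v ∈ X
  · exact hXC.not_subset (hmin X hXK hvX)
  · have hDK : K (C \ X) := by
      intro a ha
      simp only [mem_sdiff]
      rw [hCK a ha, hXK a ha]
    have := hmin _ hDK (by simp [hvC, hvX])
    obtain ⟨x, hx⟩ := hXne
    have h1 := this (hXC.subset hx)
    simp [hx] at h1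

/-- the span of the short arcs has codimension at most `κ_t - 1` -/
lemma finrank_ge (tl hd : A → V) (r : V) (l : A → ℕ) (t : ℕ) :
    Fintype.card (Wr r) + 1 ≤
      Module.finrank ℝ (Submodule.span ℝ (bv tl hd r '' {a | l a ≤ t})) +
        (parts tl hd l t).card := by
  classical
  set S := Submodule.span ℝ (bv tl hd r '' {a | l a ≤ t}) with hS
  obtain ⟨Cr, hCr, hrC⟩ := exists_part tl hd l t r
  have hCrmem : Cr ∈ parts tl hd l t := by simp [parts, hCr]
  set P := (parts tl hd l t).erase Cr with hP
  have hPcard : P.card + 1 = (parts tl hd l t).card := card_erase_add_one hCrmem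
  -- representatives
  have hrep : ∀ C : Finset V, ∃ v : V, C.Nonempty → v ∈ C := by
    intro C
    by_cases h : C.Nonempty
    · obtain ⟨v, hv⟩ := h; exact ⟨v, fun _ => hv⟩
    · exact ⟨r, fun h' => (h h').elim⟩
  choose rep hrep using hrep
  set T := Submodule.span ℝ ((P.image fun C => dv r (rep C) : Finset (Wr r → ℝ)) :
    Set (Wr r → ℝ)) with hT
  set W := S ⊔ T with hW
  have hall : ∀ v : V, dv r v ∈ W := by
    intro v
    obtain ⟨C, hC, hvC⟩ := exists_part tl hd l t v
    have hpt : ∃ x ∈ C, dv r x ∈ W := by
      by_cases hCC : C = Cr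
      · subst hCC
        exact ⟨r, hrC, by rw [dv_root]; exact W.zero_mem⟩
      · refine ⟨rep C, hrep C hC.1, ?_⟩
        apply Submodule.mem_sup_right
        apply Submodule.subset_span
        simp only [coe_image, Set.mem_image, mem_coe]
        refine ⟨C, ?_, rfl⟩
        simp [hP, hCC, parts, hC]
    set X := C.filter fun x => dv r x ∈ W with hX
    by_contra hv
    have hXne : X.Nonempty := by
      obtain ⟨x, hx, hx'⟩ := hpt
      exact ⟨x, by simp [hX, hx, hx']⟩
    have hXC : X ⊂ C := by
      refine ⟨filter_subset _ _, fun h => ?_⟩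
      have := h hvC
      simp only [hX, mem_filter] at this
      exact hv this.2
    obtain ⟨a, ha, hta, hcr⟩ := hC.2.2 X hXne hXC
    apply hcr
    have hb : bv tl hd r a ∈ W :=
      Submodule.mem_sup_left (Submodule.subset_span ⟨a, ha, rfl⟩)
    rw [bv_eq] at hb
    have hha : hd a ∈ C := (hC.2.1 a ha).1 hta
    simp only [hX, mem_filter, hta, hha, true_and]
    constructor
    · intro h; have := W.add_mem hb h; simpa using this
    · intro h; have := W.sub_mem h hb; simpa using this
  have htop : W = ⊤ := by
    rw [eq_top_iff]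
    intro f _
    have hf : f = ∑ w : Wr r, f w • dv r w.1 := by
      funext x
      simp only [Finset.sum_apply, Pi.smul_apply, smul_eq_mul, dv]
      rw [Finset.sum_eq_single x]
      · simp
      · intro b _ hb
        have : b.1 ≠ x.1 := fun h => hb (Subtype.ext h)
        simp [this]
      · intro h; exact (h (mem_univ _)).elim
    rw [hf]
    exact W.sum_mem fun w _ => W.smul_mem _ (hall w.1)
  have h1 : Module.finrank ℝ W = Fintype.card (Wr r) := by
    rw [htop, finrank_top, Module.finrank_fintype_fun_eq_card]
  have h2 : Module.finrank ℝ W ≤ Module.finrank ℝ S + Module.finrank ℝ T :=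
    Submodule.finrank_add_le_finrank_add_finrank S T
  have h3 : Module.finrank ℝ T ≤ P.card := by
    calc Module.finrank ℝ T ≤ (P.image fun C => dv r (rep C)).card := by
          exact finrank_span_finset_le_card _
      _ ≤ P.card := card_image_le
  omega

/-- nested bases -/
lemma nested (tl hd : A → V) (r : V) (l : A → ℕ) (t : ℕ) :
    ∃ B : Set A, B ⊆ {a | l a ≤ t} ∧ LinearIndepOn ℝ (bv tl hd r) B ∧
      ∀ s ≤ t, bv tl hd r '' {a | l a ≤ s} ⊆
        Submodule.span ℝ (bv tl hd r '' (B ∩ {a | l a ≤ s})) := by
  induction t with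
  | zero =>
    obtain ⟨b, hb, -, hsp, hli⟩ := exists_linearIndepOn_extension (K := ℝ) (v := bv tl hd r)
      (linearIndepOn_empty ℝ (bv tl hd r)) (Set.empty_subset {a | l a ≤ 0})
    refine ⟨b, hb, hli, ?_⟩
    intro s hs
    obtain rfl : s = 0 := by omega
    rwa [Set.inter_eq_left.2 hb]
  | succ t ih =>
    obtain ⟨B, hB, hli, hsp⟩ := ih
    have hB' : B ⊆ {a | l a ≤ t + 1} := fun a ha => by
      have := hB ha
      simp only [Set.mem_ofPred_eq] at this ⊢
      omega
    obtain ⟨b, hb, hBb, hspb, hlib⟩ := exists_linearIndepOn_extension (K := ℝ)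
      (v := bv tl hd r) hli hB'
    refine ⟨b, hb, hlib, ?_⟩
    intro s hs
    by_cases h : s = t + 1
    · subst h
      rwa [Set.inter_eq_left.2 hb]
    · have hs' : s ≤ t := by omega
      refine (hsp s hs').trans ?_
      apply Submodule.span_mono
      apply Set.image_mono
      exact Set.inter_subset_inter_left _ hBb

end

theorem kru : SpecKRU := by
  classical
  intro V A _ _ _ _ tl hd r l M hcon hM
  obtain ⟨B0, hB0, hli, hsp⟩ := nested tl hd r l M
  set B : Finset A := B0.toFinset with hBdef
  have hBc : (B : Set A) = B0 := by simp [hBdef]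
  rw [← hBc] at hli hsp
  -- number of short arcs of the basis
  have hshort : ∀ t ≤ M, Fintype.card (Wr r) + 1 ≤
      (B.filter fun a => l a ≤ t).card + (parts tl hd l t).card := by
    intro t ht
    have h1 := finrank_ge tl hd r l t
    have h2 : Module.finrank ℝ (Submodule.span ℝ (bv tl hd r '' {a | l a ≤ t})) ≤
        (B.filter fun a => l a ≤ t).card := by
      have h3 : Submodule.span ℝ (bv tl hd r '' {a | l a ≤ t}) ≤
          Submodule.span ℝ (((B.filter fun a => l a ≤ t).image (bv tl hd r) :
            Finset (Wr r → ℝ)) : Set (Wr r → ℝ)) := by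
        rw [Submodule.span_le]
        refine (hsp t ht).trans ?_
        apply Submodule.span_mono
        intro x hx
        obtain ⟨a, ⟨ha, hla⟩, rfl⟩ := hx
        simp only [coe_image, coe_filter, Set.mem_image, Set.mem_ofPred_eq]
        exact ⟨a, ⟨ha, hla⟩, rfl⟩
      calc _ ≤ Module.finrank ℝ (Submodule.span ℝ (((B.filter fun a => l a ≤ t).image
            (bv tl hd r) : Finset (Wr r → ℝ)) : Set (Wr r → ℝ))) :=
            Submodule.finrank_mono h3
        _ ≤ _ := (finrank_span_finset_le_card _).trans card_image_le
    omega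
  -- the basis has at most n - 1 elements
  have hBle : B.card ≤ Fintype.card (Wr r) := by
    have h1 : LinearIndependent ℝ fun a : B => bv tl hd r a.1 := hli
    have h2 := h1.fintype_card_le_finrank
    rw [Module.finrank_fintype_fun_eq_card] at h2
    simpa using h2
  -- at time `M` there is a single component
  have hpartM : (parts tl hd l M).card ≤ 1 := by
    rw [card_le_one]
    have key : ∀ C ∈ parts tl hd l M, C = univ := by
      intro C hC
      simp only [parts, mem_filter, mem_univ, true_and] at hC
      by_contra hne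
      have := hcon C hC.1 hne
      obtain ⟨a, ha⟩ := card_pos.1 (show 0 < (crs tl hd C).card by omega)
      simp only [crs, mem_filter, mem_univ, true_and] at ha
      exact ha (hC.2.1 a (hM a))
    intro C hC C' hC'
    rw [key C hC, key C' hC']
  have hBall : (B.filter fun a => l a ≤ M) = B := filter_true_of_mem fun a _ => hM a
  have hBge : Fintype.card (Wr r) ≤ B.card := by
    have := hshort M le_rfl
    rw [hBall] at this
    omega
  have hBcard : B.card = Fintype.card (Wr r) := le_antisymm hBle hBge
  have heq : Fintype.card (Wr r) = Fintype.card B := by simp [hBcard]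
  let e0 : Wr r ≃ B := Fintype.equivOfCardEq heq
  refine ⟨fun v => (e0 v).1, ?_, ?_⟩
  · have h1 : LinearIndependent ℝ fun a : B => bv tl hd r a.1 := hli
    have h2 : LinearIndependent ℝ ((fun a : B => bv tl hd r a.1) ∘ e0) :=
      h1.comp _ e0.injective
    have h3 : IsUnit (Matrix.of fun v w => bv tl hd r (e0 v).1 w :
        Matrix (Wr r) (Wr r) ℝ) := by
      rw [← Matrix.linearIndependent_rows_iff_isUnit]
      exact h2
    exact ((Matrix.isUnit_iff_isUnit_det _).1 h3).ne_zero
  · have h1 : ∑ v, l (e0 v).1 = ∑ a ∈ B, l a := by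
      rw [← Finset.sum_coe_sort B l]
      exact Fintype.sum_equiv e0 _ _ (fun _ => rfl)
    have h2 : ∀ a ∈ B, l a = ∑ t ∈ range M, if l a ≤ t then 0 else 1 := by
      intro a _
      have h3 : ∀ t, (if l a ≤ t then 0 else 1) = if t < l a then 1 else 0 := by
        intro t
        by_cases h : l a ≤ t
        · simp [h, not_lt.2 h]
        · simp [h, not_le.1 h]
      simp only [h3, Finset.sum_boole]
      have : (range M).filter (fun t => t < l a) = range (l a) := by
        ext t
        simp only [mem_filter, mem_range]
        have := hM a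
        omega
      rw [this]; simp
    rw [h1, Finset.sum_congr rfl h2, Finset.sum_comm]
    have h4 : ∀ t ∈ range M, (∑ a ∈ B, if l a ≤ t then 0 else 1) + 1 ≤
        (parts tl hd l t).card := by
      intro t ht
      have h5 := hshort t (mem_range.1 ht).le
      have h6 : (∑ a ∈ B, if l a ≤ t then 0 else 1) +
          (B.filter fun a => l a ≤ t).card = B.card := by
        rw [Finset.card_filter, ← Finset.sum_add_distrib, Finset.card_eq_sum_ones]
        apply Finset.sum_congr rfl
        intro a _
        by_cases h : l a ≤ t <;> simp [h]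
      omega
    calc (∑ t ∈ range M, ∑ a ∈ B, if l a ≤ t then 0 else 1) + M
        = ∑ t ∈ range M, ((∑ a ∈ B, if l a ≤ t then 0 else 1) + 1) := by
          rw [Finset.sum_add_distrib]; simp
      _ ≤ _ := Finset.sum_le_sum h4

end WoodF
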