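import Pool.Agent.Lib.MP_492a9e_co.FV.Defs4
import Pool.Agent.Lib.MP_492a9e_co.FV.CNTA
import Pool.Agent.Lib.MP_492a9e_co.FV.CNTB
import Pool.Agent.Lib.MP_492a9e_co.FV.CNTC
import Pool.Agent.Lib.MP_492a9e_co.FV.CNT

/-!
# The O-type parts of all times, for a length `l ≥ lenF` (OTY)

A part `C` of time `t` is good if `t < lenF a` for the arcs `a` which enter `C`. A good O-type part
claims an index as in `CNTC`; a bad one is counted by a pair `(t, a)` with `lenF a ≤ t < l a`.
-/

open Finset WoodR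

namespace WoodF

set_option linter.unusedSectionVars false

section
variable {V A : Type} [Fintype V] [DecidableEq V] [Fintype A] [DecidableEq A] {N : ℕ}

/-- the good part `C` of time `t` claims the index `p` -/
def ClmL (tl hd : A → V) (r : V) (U : Fin N → Finset V) (l : A → ℕ) (p : Fin N) (t : ℕ)
    (C : Finset V) : Prop :=
  C ∈ oparts tl hd r l t ∧ (∀ a ∈ entr tl hd C, t < lenF tl hd U a) ∧
    (∃ a ∈ entr tl hd C, hd a ∈ U p ∧ rk U (hd a) p = t) ∧
    ∀ a ∈ entr tl hd C, hd a ∈ U p → rk U (hd a) p ≤ t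

theorem exists_clmL {tl hd : A → V} {r : V} {U : Fin N → Finset V} {l : A → ℕ} {t : ℕ}
    {C : Finset V} (hC : C ∈ oparts tl hd r l t)
    (hg : ∀ a ∈ entr tl hd C, t < lenF tl hd U a) : ∃ p, ClmL tl hd r U l p t C := by
  classical
  have hC' := mem_opartsC.1 hC
  have h1 : ∀ a ∈ entr tl hd C, ∃ p, hd a ∈ U p ∧ rk U (hd a) p = t := by
    intro a ha
    refine exists_idx U (hd a) t (lt_of_lt_of_le (hg a ha) ?_)
    unfold lenF
    refine card_le_card fun i hi => ?_
    rw [mem_filter, mem_entr] at hi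
    exact mem_filter.2 ⟨mem_univ _, hi.2.2⟩
  have hne : (univ.filter fun p => ∃ a ∈ entr tl hd C, hd a ∈ U p ∧ rk U (hd a) p = t).Nonempty := by
    obtain ⟨a, ha⟩ : (entr tl hd C).Nonempty := card_pos.1 (by rw [hC'.2.2.1]; norm_num)
    obtain ⟨p, hp⟩ := h1 a ha
    exact ⟨p, mem_filter.2 ⟨mem_univ _, a, ha, hp⟩⟩
  obtain ⟨p, hp, hmin⟩ := exists_min_image _ (fun j : Fin N => (j : ℕ)) hne
  refine ⟨p, hC, hg, (mem_filter.1 hp).2, fun a ha hap => ?_⟩
  obtain ⟨q, hq⟩ := h1 a ha
  have h2 : (p : ℕ) ≤ q := hmin q (mem_filter.2 ⟨mem_univ _, a, ha, hq⟩)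
  exact (rk_mono U (hd a) (p := p) (q := q) h2).trans hq.2.le

end

theorem oty_of (hP : SpecPAR1) (hA : SpecCNTA) : SpecOTY := by
  intro V A _ _ _ _ tl hd r τ hτ h3 hcut N U hU hL l hl M
  classical
  let K : Fin N → Finset (Finset V) := fun p => univ.filter fun C => ∃ t, ClmL tl hd r U l p t C
  have hK : ∀ p, τ + (K p).card ≤ (entr tl hd (U p)).card + 1 := by
    intro p
    refine hA V A tl hd r τ h3 hcut (U p) (hU p) (K p) ?_ ?_ ?_ ?_
    · intro C hC C' hC'
      obtain ⟨t, ht⟩ := (mem_filter.1 hC).2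
      obtain ⟨t', ht'⟩ := (mem_filter.1 hC').2
      rcases le_total t t' with h | h
      · rcases hP V A tl hd _ t t' C C' h (mem_opartsC.1 ht.1).1 (mem_opartsC.1 ht'.1).1 with h1 | h1
        · exact Or.inl h1
        · exact Or.inr (Or.inr h1)
      · rcases hP V A tl hd _ t' t C' C h (mem_opartsC.1 ht'.1).1 (mem_opartsC.1 ht.1).1 with h1 | h1
        · exact Or.inr (Or.inl h1)
        · exact Or.inr (Or.inr h1.symm)
    · intro C hC
      obtain ⟨t, ht⟩ := (mem_filter.1 hC).2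
      exact (mem_opartsC.1 ht.1).2.2.2.le
    · intro C hC a ha hap
      obtain ⟨t, ht⟩ := (mem_filter.1 hC).2
      exact cross hL (ht.2.1 a ha) hap (ht.2.2.2 a ha hap)
    · intro C hC
      obtain ⟨t, ht⟩ := (mem_filter.1 hC).2
      obtain ⟨a, ha, hap, har⟩ := ht.2.2.1
      refine ⟨a, ha, hap, fun C' hC' hss haC' => ?_⟩
      obtain ⟨t', ht'⟩ := (mem_filter.1 hC').2
      have h1 : t' < t := by
        by_contra hlt
        push Not at hlt
        rcases hP V A tl hd _ t t' C C' hlt (mem_opartsC.1 ht.1).1 (mem_opartsC.1 ht'.1).1 with h1 | h1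
        · exact hss.2 h1
        · obtain ⟨x, hx⟩ := (mem_opartsC.1 ht'.1).1.1
          exact Finset.disjoint_left.1 h1 (hss.1 hx) hx
      have h2 := ht'.2.2.2 a haC' hap
      omega
  -- the good parts
  have hS : ((range M).sigma fun t => (oparts tl hd r l t).filter fun C =>
      ∀ a ∈ entr tl hd C, t < lenF tl hd U a).card ≤
      ((univ : Finset (Fin N)).sigma K).card := by
    refine card_le_card_of_forall_subsingleton
      (fun x y => y.2 = x.2 ∧ ClmL tl hd r U l y.1 x.1 x.2) ?_ ?_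
    · rintro ⟨t, C⟩ hx
      rw [mem_sigma, mem_filter] at hx
      obtain ⟨p, hp⟩ := exists_clmL hx.2.1 hx.2.2
      exact ⟨⟨p, C⟩, mem_sigma.2 ⟨mem_univ _, mem_filter.2 ⟨mem_univ _, t, hp⟩⟩, rfl, hp⟩
    · rintro ⟨p, C⟩ _
      rintro ⟨t, C1⟩ ⟨_, h1, h2⟩ ⟨t', C2⟩ ⟨_, h1', h2'⟩
      dsimp only at h1 h2 h1' h2'
      subst h1
      subst h1'
      obtain ⟨a, ha, hap, har⟩ := h2.2.2.1
      obtain ⟨a', ha', hap', har'⟩ := h2'.2.2.1
      have h3 := h2.2.2.2 a' ha' hap'
      have h4 := h2'.2.2.2 a ha hap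
      have h5 : t = t' := by omega
      rw [h5]
  -- the bad parts
  have hB : ((range M).sigma fun t => (oparts tl hd r l t).filter fun C =>
      ¬ ∀ a ∈ entr tl hd C, t < lenF tl hd U a).card ≤
      ((range M).sigma fun t => univ.filter fun a => lenF tl hd U a ≤ t ∧ t < l a).card := by
    refine card_le_card_of_forall_subsingleton
      (fun x y => y.1 = x.1 ∧ y.2 ∈ entr tl hd x.2) ?_ ?_
    · rintro ⟨t, C⟩ hx
      rw [mem_sigma, mem_filter] at hx
      obtain ⟨hM, hC, hb⟩ := hx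
      push Not at hb
      obtain ⟨a, ha, hat⟩ := hb
      exact ⟨⟨t, a⟩, mem_sigma.2 ⟨hM, mem_filter.2 ⟨mem_univ _, hat,
        lt_len (mem_opartsC.1 hC).1 ha⟩⟩, rfl, ha⟩
    · rintro ⟨s, a⟩ _
      rintro ⟨t, C1⟩ ⟨hm, h1, h2⟩ ⟨t', C2⟩ ⟨hm', h1', h2'⟩
      dsimp only at h1 h2 h1' h2'
      subst h1
      subst h1'
      rw [mem_sigma, mem_filter] at hm hm'
      have hC1 := (mem_opartsC.1 hm.2.1).1
      have hC2 := (mem_opartsC.1 hm'.2.1).1
      have hh1 := (mem_entr.1 h2).2
      have hh2 := (mem_entr.1 h2').2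
      have h5 : C1 ⊆ C2 := by
        rcases hP V A tl hd _ s s C1 C2 le_rfl hC1 hC2 with h | h
        · exact h
        · exact absurd hh2 (Finset.disjoint_left.1 h hh1)
      have h6 : C2 ⊆ C1 := by
        rcases hP V A tl hd _ s s C2 C1 le_rfl hC2 hC1 with h | h
        · exact h
        · exact absurd hh1 (Finset.disjoint_left.1 h hh2)
      rw [Finset.Subset.antisymm h5 h6]
  have hB2 : ((range M).sigma fun t => univ.filter fun a => lenF tl hd U a ≤ t ∧ t < l a).card ≤
      ∑ a, (l a - lenF tl hd U a) := by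
    rw [card_sigma]
    simp only [card_filter]
    rw [sum_comm]
    refine sum_le_sum fun a _ => ?_
    rw [← card_filter]
    calc ((range M).filter fun t => lenF tl hd U a ≤ t ∧ t < l a).card ≤
          (Ico (lenF tl hd U a) (l a)).card := by
          refine card_le_card fun t ht => ?_
          exact mem_Ico.2 (mem_filter.1 ht).2
      _ = l a - lenF tl hd U a := Nat.card_Ico _ _
  rw [card_sigma] at hS hB
  rw [card_sigma] at hS
  have hsplit : ∑ t ∈ range M, (oparts tl hd r l t).card =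
      ∑ t ∈ range M, ((oparts tl hd r l t).filter fun C =>
        ∀ a ∈ entr tl hd C, t < lenF tl hd U a).card +
      ∑ t ∈ range M, ((oparts tl hd r l t).filter fun C =>
        ¬ ∀ a ∈ entr tl hd C, t < lenF tl hd U a).card := by
    rw [← sum_add_distrib]
    exact sum_congr rfl fun t _ => (card_filter_add_card_filter_not _).symm
  have h5 : ∑ p : Fin N, (τ + (K p).card) ≤ ∑ p, ((entr tl hd (U p)).card + 1) :=
    sum_le_sum fun p _ => hK p
  rw [sum_add_distrib, sum_const, card_univ, Fintype.card_fin, smul_eq_mul, sum_add_distrib,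
    sum_const, card_univ, Fintype.card_fin, smul_eq_mul, mul_one, ← sum_lenFC] at h5
  have h6 : ∑ a, (l a - lenF tl hd U a) + ∑ a, lenF tl hd U a = ∑ a, l a := by
    rw [← sum_add_distrib]
    exact sum_congr rfl fun a _ => Nat.sub_add_cancel (hl a)
  omega

theorem oty : SpecOTY := oty_of par1 cnta

end WoodF
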