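import Pool.Agent.Lib.MP_492a9e_co.R.Zq

/-!
# One fifth of the minimum directed cut: definitions and module statements

Paper proof: every digraph whose directed cuts have at least `5 m - 4` arcs has `m` disjoint
dijoins. Arcs are the elements of `A`, with tail `tl` and head `hd`; a vertex set `U` is closed if
no arc leaves it, `entr tl hd U` is the set of the arcs entering `U`. `r` is a root; vectors and
matrices are indexed by the other vertices.

Each module proves one of the statements `Spec...` below.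
-/

open Finset Matrix WoodR

namespace WoodF

set_option linter.unusedSectionVars false

/-- closed vertex sets -/
def Clo {V A : Type} (tl hd : A → V) (U : Finset V) : Prop := ∀ a, tl a ∈ U → hd a ∈ U

/-- the vertices without the root -/
abbrev Wr {V : Type} (r : V) : Type := {v : V // v ≠ r}

section
variable {V A : Type} [Fintype V] [DecidableEq V] [Fintype A] [DecidableEq A]

/-- the arcs with exactly one end in `S` -/
def crs (tl hd : A → V) (S : Finset V) : Finset A := univ.filter fun a => ¬(tl a ∈ S ↔ hd a ∈ S)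

/-- all cuts of the underlying graph have at least `k` arcs -/
def Conn (tl hd : A → V) (k : ℕ) : Prop :=
  ∀ S : Finset V, S.Nonempty → S ≠ univ → k ≤ (crs tl hd S).card

/-- the incidence vector of an arc, without the coordinate of the root -/
def bv (tl hd : A → V) (r : V) (a : A) : Wr r → ℝ := fun v =>
  (if hd a = v.1 then 1 else 0) - (if tl a = v.1 then 1 else 0)

/-- the Laplacian grounded at the root, for the conductances `c` -/
def lap (tl hd : A → V) (r : V) (c : A → ℝ) : Matrix (Wr r) (Wr r) ℝ :=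
  ∑ a, c a • vecMulVec (bv tl hd r a) (bv tl hd r a)

/-- conductance times effective resistance -/
noncomputable def Pr (tl hd : A → V) (r : V) (c : A → ℝ) (a : A) : ℝ :=
  c a * (bv tl hd r a ⬝ᵥ ((lap tl hd r c)⁻¹ *ᵥ bv tl hd r a))

/-- the nonempty closed sets without the root -/
noncomputable def F0 (tl hd : A → V) (r : V) : Finset (Finset V) := by
  classical exact univ.filter fun U => U.Nonempty ∧ Clo tl hd U ∧ r ∉ U

/-- the length of an arc: number of sets of the multiset `n` which it enters -/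
noncomputable def len (tl hd : A → V) (r : V) (n : Finset V → ℕ) (a : A) : ℕ :=
  ∑ U ∈ F0 tl hd r, if a ∈ entr tl hd U then n U else 0

/-- the length of an arc for an indexed family of sets -/
def lenF {N : ℕ} (tl hd : A → V) (U : Fin N → Finset V) (a : A) : ℕ :=
  (univ.filter fun i => a ∈ entr tl hd (U i)).card

/-- a component of the graph of the arcs of length at most `t` -/
def IsPart (tl hd : A → V) (l : A → ℕ) (t : ℕ) (C : Finset V) : Prop :=
  C.Nonempty ∧ (∀ a, l a ≤ t → (tl a ∈ C ↔ hd a ∈ C)) ∧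
    ∀ X : Finset V, X.Nonempty → X ⊂ C → ∃ a, l a ≤ t ∧ tl a ∈ C ∧ ¬(tl a ∈ X ↔ hd a ∈ X)

/-- the components at time `t` -/
noncomputable def parts (tl hd : A → V) (l : A → ℕ) (t : ℕ) : Finset (Finset V) := by
  classical exact univ.filter fun C => IsPart tl hd l t C

/-- the columns `bv (e v)` form a basis -/
def Bas (tl hd : A → V) (r : V) (e : Wr r → A) : Prop :=
  (Matrix.of fun v w => bv tl hd r (e v) w : Matrix (Wr r) (Wr r) ℝ).det ≠ 0

end

/-! ## Linear algebra (LAP) -/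

/-- LAP1 -/
def SpecLAP1 : Prop :=
  ∀ (V A : Type) [Fintype V] [DecidableEq V] [Fintype A] [DecidableEq A] (tl hd : A → V) (r : V)
    (c : A → ℝ), (∀ a, 0 < c a) → Conn tl hd 1 → (lap tl hd r c).PosDef

/-- LAP2: the conductances of the arcs of `D` are multiplied by `1 - s` -/
def SpecLAP2 : Prop :=
  ∀ (V A : Type) [Fintype V] [DecidableEq V] [Fintype A] [DecidableEq A] (tl hd : A → V) (r : V)
    (c : A → ℝ), (∀ a, 0 < c a) → Conn tl hd 1 → ∀ (D : Finset A) (s : ℝ), 0 ≤ s → s < 1 →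
    (lap tl hd r fun a => if a ∈ D then (1 - s) * c a else c a).det ≤
      (lap tl hd r c).det * Real.exp (-s * ∑ a ∈ D, Pr tl hd r c a)

/-- LAP3 -/
def SpecLAP3 : Prop :=
  ∀ (V A : Type) [Fintype V] [DecidableEq V] [Fintype A] [DecidableEq A] (tl hd : A → V) (r : V)
    (c : A → ℝ), (∀ a, 0 < c a) → ∀ e : Wr r → A, Bas tl hd r e →
    ∏ v, c (e v) ≤ (lap tl hd r c).det

/-! ## Closest vector (CV) -/

/-- CV -/
def SpecCV : Prop :=
  ∀ (V A : Type) [Fintype V] [DecidableEq V] [Fintype A] [DecidableEq A] (tl hd : A → V) (r : V)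
    (c : A → ℝ), (∀ a, 0 < c a) → Conn tl hd 1 → ∀ z0 : V → ℝ, ∑ v, z0 v = 0 →
    ∃ z : V → ℤ, ∑ v, z v = 0 ∧ ∀ S : Finset V, r ∉ S →
      |∑ v ∈ S, ((z v : ℝ) - z0 v)| ≤ 1 / 2 * ∑ a ∈ crs tl hd S, Pr tl hd r c a

/-! ## Minimiser (LPM) -/

/-- LPM: minimise `log det + δ ∑ n U (b U + ε)` over the multisets `n` -/
def SpecLPM : Prop :=
  ∀ (V A : Type) [Fintype V] [DecidableEq V] [Fintype A] [DecidableEq A] (tl hd : A → V) (r : V)
    (b : Finset V → ℝ), Conn tl hd 1 →
    (∀ n : Finset V → ℕ, ∃ e : Wr r → A, Bas tl hd r e ∧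
      ((∑ v, len tl hd r n (e v) : ℕ) : ℝ) ≤ ∑ U ∈ F0 tl hd r, n U * b U) →
    ∀ ε : ℝ, 0 < ε → ∃ c : A → ℝ, (∀ a, 0 < c a) ∧
      ∀ U ∈ F0 tl hd r, ∑ a ∈ entr tl hd U, Pr tl hd r c a ≤ b U + ε

/-! ## Kruskal (KRU) -/

/-- KRU -/
def SpecKRU : Prop :=
  ∀ (V A : Type) [Fintype V] [DecidableEq V] [Fintype A] [DecidableEq A] (tl hd : A → V) (r : V)
    (l : A → ℕ) (M : ℕ), Conn tl hd 1 → (∀ a, l a ≤ M) →
    ∃ e : Wr r → A, Bas tl hd r e ∧
      ∑ v, l (e v) + M ≤ ∑ t ∈ range M, (parts tl hd l t).card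

/-! ## Uncrossing (UNC) -/

/-- laminar family sorted by size -/
def Lam {V : Type} [DecidableEq V] {N : ℕ} (U : Fin N → Finset V) : Prop :=
  (∀ i j, Disjoint (U i) (U j) ∨ U i ⊆ U j ∨ U j ⊆ U i) ∧ ∀ i j, i ≤ j → (U i).card ≤ (U j).card

/-- UNC -/
def SpecUNC : Prop :=
  ∀ (V A : Type) [Fintype V] [DecidableEq V] [Fintype A] [DecidableEq A] (tl hd : A → V) (r : V)
    (n : Finset V → ℕ), ∃ U : Fin (∑ X ∈ F0 tl hd r, n X) → Finset V,
      (∀ i, U i ∈ F0 tl hd r) ∧ Lam U ∧ ∀ a, lenF tl hd U a = len tl hd r n a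

/-! ## Counting (CNT) -/

/-- CNT: the inequality for laminar families, graph 3-edge-connected, all directed cuts `≥ τ ≥ 5` -/
def SpecCNT : Prop :=
  ∀ (V A : Type) [Fintype V] [DecidableEq V] [Fintype A] [DecidableEq A] (tl hd : A → V) (r : V)
    (τ : ℕ), 5 ≤ τ → Conn tl hd 3 →
    (∀ U : Finset V, U.Nonempty → U ≠ univ → Clo tl hd U → τ ≤ (entr tl hd U).card) →
    ∀ (N : ℕ) (U : Fin N → Finset V), (∀ i, U i ∈ F0 tl hd r) → Lam U →
    ∀ M : ℕ, 5 * ∑ t ∈ range M, (parts tl hd (lenF tl hd U) t).card + N * τ ≤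
      5 * M + ∑ i, (4 * (entr tl hd (U i)).card + 1)

/-! ## Pieces of CNT -/

/-- the arcs leaving `C` -/
def lev {V A : Type} [Fintype V] [DecidableEq V] [Fintype A] [DecidableEq A] (tl hd : A → V)
    (C : Finset V) : Finset A := univ.filter fun a => tl a ∈ C ∧ hd a ∉ C

/-- O-type: two arcs enter, one arc leaves -/
def OTy {V A : Type} [Fintype V] [DecidableEq V] [Fintype A] [DecidableEq A] (tl hd : A → V)
    (C : Finset V) : Prop := (entr tl hd C).card = 2 ∧ (lev tl hd C).card = 1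

/-- the O-type parts at time `t` without the root -/
noncomputable def oparts {V A : Type} [Fintype V] [DecidableEq V] [Fintype A] [DecidableEq A]
    (tl hd : A → V) (r : V) (l : A → ℕ) (t : ℕ) : Finset (Finset V) := by
  classical exact (parts tl hd l t).filter fun C => r ∉ C ∧ OTy tl hd C

/-- PAR1: parts at different times are nested or disjoint -/
def SpecPAR1 : Prop :=
  ∀ (V A : Type) [Fintype V] [DecidableEq V] [Fintype A] [DecidableEq A] (tl hd : A → V)
    (l : A → ℕ) (t t' : ℕ) (C C' : Finset V), t ≤ t' → IsPart tl hd l t C → IsPart tl hd l t' C' →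
    C ⊆ C' ∨ Disjoint C C'

/-- PAR2: every vertex is in a part -/
def SpecPAR2 : Prop :=
  ∀ (V A : Type) [Fintype V] [DecidableEq V] [Fintype A] [DecidableEq A] (tl hd : A → V)
    (l : A → ℕ) (t : ℕ) (v : V), ∃ C ∈ parts tl hd l t, v ∈ C

/-- CNTA: one closed set `U` and a laminar family `K` of sets which can be removed from it -/
def SpecCNTA : Prop :=
  ∀ (V A : Type) [Fintype V] [DecidableEq V] [Fintype A] [DecidableEq A] (tl hd : A → V) (r : V)
    (τ : ℕ), Conn tl hd 3 →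
    (∀ U : Finset V, U.Nonempty → U ≠ univ → Clo tl hd U → τ ≤ (entr tl hd U).card) →
    ∀ U ∈ F0 tl hd r, ∀ K : Finset (Finset V),
    (∀ C ∈ K, ∀ C' ∈ K, C ⊆ C' ∨ C' ⊆ C ∨ Disjoint C C') →
    (∀ C ∈ K, (lev tl hd C).card ≤ 1) →
    (∀ C ∈ K, ∀ a ∈ entr tl hd C, hd a ∈ U → tl a ∉ U) →
    (∀ C ∈ K, ∃ a ∈ entr tl hd C, hd a ∈ U ∧ ∀ C' ∈ K, C' ⊂ C → a ∉ entr tl hd C') →
    τ + K.card ≤ (entr tl hd U).card + 1

/-- CNTB: the parts at one time -/
def SpecCNTB : Prop :=
  ∀ (V A : Type) [Fintype V] [DecidableEq V] [Fintype A] [DecidableEq A] (tl hd : A → V) (r : V),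
    Conn tl hd 3 →
    (∀ U : Finset V, U.Nonempty → U ≠ univ → Clo tl hd U → 5 ≤ (entr tl hd U).card) →
    ∀ (l : A → ℕ) (t : ℕ), 5 * (parts tl hd l t).card ≤
      5 + 3 * (univ.filter fun a => t < l a).card + (oparts tl hd r l t).card

/-- CNTC: the O-type parts of all times -/
def SpecCNTC : Prop :=
  ∀ (V A : Type) [Fintype V] [DecidableEq V] [Fintype A] [DecidableEq A] (tl hd : A → V) (r : V)
    (τ : ℕ), 5 ≤ τ → Conn tl hd 3 →
    (∀ U : Finset V, U.Nonempty → U ≠ univ → Clo tl hd U → τ ≤ (entr tl hd U).card) →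
    ∀ (N : ℕ) (U : Fin N → Finset V), (∀ i, U i ∈ F0 tl hd r) → Lam U →
    ∀ M : ℕ, ∑ t ∈ range M, (oparts tl hd r (lenF tl hd U) t).card + N * τ ≤
      ∑ i, ((entr tl hd (U i)).card + 1)

end WoodF
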