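import Mathlib
import Pool.Agent.Lib.MP_492a9e_co.FV.Defs
import Pool.Agent.Lib.MP_492a9e_co.FV.Defs4
import Pool.Agent.Lib.MP_492a9e_co.FV.LAP
import Pool.Agent.Lib.MP_492a9e_co.R.Arcs

section
/-!
# Closest vector rounding, matrix form

`exists_approx`: a nonnegative function has an approximate minimiser.

`closest`: for a positive definite matrix `L`, integral vectors `b a` and a real vector `z0` there
is an integral vector `z` with `|b a ⬝ L⁻¹ (z - z0)| ≤ (b a ⬝ L⁻¹ (b a)) / 2 + δ` for all `a`.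

`near_int`: an integer which is at distance `≤ p + δ` from `x`, `δ` small, is at distance `≤ p`.
-/
open Finset Matrix

namespace WoodFV

theorem exists_approx {α : Type} [Nonempty α] (E : α → ℝ) (h : ∀ z, 0 ≤ E z) {δ : ℝ}
    (hδ : 0 < δ) : ∃ z, ∀ z', E z ≤ E z' + δ := by
  have hb : BddBelow (Set.range E) := ⟨0, by rintro _ ⟨z, rfl⟩; exact h z⟩
  obtain ⟨z, hz⟩ := exists_lt_of_ciInf_lt (show iInf E < iInf E + δ by linarith)
  exact ⟨z, fun z' => by have := ciInf_le hb z'; linarith⟩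

theorem closest {ι A : Type} [Fintype ι] [DecidableEq ι] (b : A → ι → ℝ) (k : A → ι → ℤ)
    (hk : ∀ a i, b a i = k a i) (L : Matrix ι ι ℝ) (hL : L.PosDef) (z0 : ι → ℝ) {δ : ℝ}
    (hδ : 0 < δ) :
    ∃ z : ι → ℤ, ∀ a, |b a ⬝ᵥ (L⁻¹ *ᵥ (fun i => (z i : ℝ) - z0 i))| ≤
      (b a ⬝ᵥ (L⁻¹ *ᵥ b a)) / 2 + δ := by
  have hM : L⁻¹.PosDef := hL.inv
  set M := L⁻¹ with hMd
  have hsym : ∀ x y : ι → ℝ, x ⬝ᵥ (M *ᵥ y) = y ⬝ᵥ (M *ᵥ x) := by
    intro x y
    have h1 : Mᵀ = M := by
      have h2 := hM.1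
      rw [Matrix.IsHermitian, Matrix.conjTranspose_eq_transpose_of_trivial] at h2
      exact h2
    rw [Matrix.dotProduct_mulVec, ← Matrix.mulVec_transpose, h1, dotProduct_comm]
  let E : (ι → ℤ) → ℝ := fun z =>
    (fun i => (z i : ℝ) - z0 i) ⬝ᵥ (M *ᵥ (fun i => (z i : ℝ) - z0 i))
  have hE : ∀ z, 0 ≤ E z := fun z => by
    have h1 := hM.posSemidef.dotProduct_mulVec_nonneg (fun i => (z i : ℝ) - z0 i)
    simpa using h1
  obtain ⟨z, hz⟩ := exists_approx E hE (show 0 < 2 * δ by linarith)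
  refine ⟨z, fun a => ?_⟩
  have key : ∀ s : ℤ, E (fun i => z i + s * k a i) = E z +
      2 * s * (b a ⬝ᵥ (M *ᵥ (fun i => (z i : ℝ) - z0 i))) + s ^ 2 * (b a ⬝ᵥ (M *ᵥ b a)) := by
    intro s
    have h1 : (fun i => (((z i + s * k a i : ℤ)) : ℝ) - z0 i) =
        (fun i => (z i : ℝ) - z0 i) + (s : ℝ) • b a := by
      funext i
      simp only [Pi.add_apply, Pi.smul_apply, smul_eq_mul, hk]
      push_cast
      ring
    have h2 : E (fun i => z i + s * k a i) =
        (fun i => (((z i + s * k a i : ℤ)) : ℝ) - z0 i) ⬝ᵥ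
          (M *ᵥ (fun i => (((z i + s * k a i : ℤ)) : ℝ) - z0 i)) := rfl
    rw [h2, h1, Matrix.mulVec_add, Matrix.mulVec_smul, add_dotProduct, dotProduct_add,
      dotProduct_add, smul_dotProduct, smul_dotProduct, dotProduct_smul, dotProduct_smul,
      hsym (fun i => (z i : ℝ) - z0 i) (b a)]
    simp only [smul_eq_mul]
    have h3 : E z = (fun i => (z i : ℝ) - z0 i) ⬝ᵥ (M *ᵥ (fun i => (z i : ℝ) - z0 i)) := rfl
    rw [h3]
    ring
  have h1 := hz (fun i => z i + 1 * k a i)
  have h2 := hz (fun i => z i + (-1) * k a i)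
  rw [key] at h1 h2
  push_cast at h1 h2
  rw [abs_le]
  constructor <;> linarith

theorem near_int (x p : ℝ) : ∃ δ : ℝ, 0 < δ ∧ ∀ k : ℤ, |(k : ℝ) - x| ≤ p + δ → |(k : ℝ) - x| ≤ p := by
  refine ⟨min ((⌊x + p⌋ + 1 - (x + p)) / 2) ((⌊p - x⌋ + 1 - (p - x)) / 2), ?_, ?_⟩
  · have h1 := Int.lt_floor_add_one (x + p)
    have h2 := Int.lt_floor_add_one (p - x)
    exact lt_min (by linarith) (by linarith)
  · intro k hk
    have h1 := Int.lt_floor_add_one (x + p)
    have h2 := Int.lt_floor_add_one (p - x)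
    have h3 := min_le_left ((⌊x + p⌋ + 1 - (x + p)) / 2) ((⌊p - x⌋ + 1 - (p - x)) / 2)
    have h4 := min_le_right ((⌊x + p⌋ + 1 - (x + p)) / 2) ((⌊p - x⌋ + 1 - (p - x)) / 2)
    rw [abs_le] at hk ⊢
    have h5 : (k : ℝ) < ⌊x + p⌋ + 1 := by linarith [hk.2]
    have h6 : -(k : ℝ) < ⌊p - x⌋ + 1 := by linarith [hk.1]
    have h7 : k ≤ ⌊x + p⌋ := by
      have : (k : ℝ) < ((⌊x + p⌋ + 1 : ℤ) : ℝ) := by push_cast; exact h5
      have := Int.cast_lt.1 this
      omega
    have h8 : -k ≤ ⌊p - x⌋ := by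
      have : ((-k : ℤ) : ℝ) < ((⌊p - x⌋ + 1 : ℤ) : ℝ) := by push_cast; exact h6
      have := Int.cast_lt.1 this
      omega
    have h9 := Int.floor_le (x + p)
    have h10 := Int.floor_le (p - x)
    have h11 : (k : ℝ) ≤ ⌊x + p⌋ := by exact_mod_cast h7
    have h12 : -(k : ℝ) ≤ ⌊p - x⌋ := by exact_mod_cast h8
    constructor <;> linarith

end WoodFV
end

section
/-!
# The discrete minimiser

`lpm`: abstract form of the minimisation of the log partition function. `Dt` is the determinant of the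
grounded Laplacian as a function of the conductances, `P c a` the probability of the arc `a`,
`D U` the set of arcs which cross `U`.
-/
open Finset

namespace WoodFV

theorem lpm {A F : Type} [Fintype F] [DecidableEq F] [DecidableEq A]
    (Dt : (A → ℝ) → ℝ) (P : (A → ℝ) → A → ℝ) (D : F → Finset A) (b : F → ℝ)
    (h1 : ∀ c : A → ℝ, (∀ a, 0 < c a) → 0 < Dt c)
    (h2 : ∀ c : A → ℝ, (∀ a, 0 < c a) → ∀ s : ℝ, 0 ≤ s → s < 1 → ∀ E : Finset A,
      Dt (fun a => if a ∈ E then (1 - s) * c a else c a) ≤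
        Dt c * Real.exp (-(s * ∑ a ∈ E, P c a)))
    (h3 : ∀ c : A → ℝ, (∀ a, 0 < c a) → ∀ a, 0 ≤ P c a)
    (h4 : ∀ (n : F → ℕ) (δ : ℝ), 0 < δ → Real.exp (-(δ * ∑ U, (n U : ℝ) * b U)) ≤
      Dt (fun a => Real.exp (-(δ * ∑ U, if a ∈ D U then (n U : ℝ) else 0))))
    {ε : ℝ} (hε : 0 < ε) :
    ∃ c : A → ℝ, (∀ a, 0 < c a) ∧ ∀ U, ∑ a ∈ D U, P c a ≤ b U + ε := by
  set B : ℝ := ∑ U, |b U| with hB
  have hB0 : 0 ≤ B := sum_nonneg fun U _ => abs_nonneg _
  have hBU : ∀ U, b U ≤ B := fun U =>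
    (le_abs_self _).trans (single_le_sum (f := fun U => |b U|) (fun i _ => abs_nonneg _)
      (mem_univ U))
  set δ : ℝ := ε / (2 * (B + ε)) with hδd
  have hδ : 0 < δ := div_pos hε (by linarith)
  have hδB : δ * (B + ε) = ε / 2 := by
    rw [hδd]
    field_simp
  let c : (F → ℕ) → A → ℝ := fun n a =>
    Real.exp (-(δ * ∑ U, if a ∈ D U then (n U : ℝ) else 0))
  have hc : ∀ n a, 0 < c n a := fun n a => Real.exp_pos _
  let G : (F → ℕ) → ℝ := fun n => Real.log (Dt (c n)) + δ * ∑ U, (n U : ℝ) * (b U + ε / 4)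
  have hG : ∀ n, 0 ≤ G n := by
    intro n
    have e1 := h4 n δ hδ
    have e2 : -(δ * ∑ U, (n U : ℝ) * b U) ≤ Real.log (Dt (c n)) := by
      rw [← Real.log_exp (-(δ * ∑ U, (n U : ℝ) * b U))]
      exact Real.log_le_log (Real.exp_pos _) e1
    have e3 : ∑ U, (n U : ℝ) * (b U + ε / 4) = ∑ U, (n U : ℝ) * b U +
        (ε / 4) * ∑ U, (n U : ℝ) := by
      rw [mul_sum, ← sum_add_distrib]
      exact sum_congr rfl fun U _ => by ring
    have e4 : 0 ≤ δ * ((ε / 4) * ∑ U, (n U : ℝ)) :=
      mul_nonneg hδ.le (mul_nonneg (by linarith) (sum_nonneg fun U _ => Nat.cast_nonneg _))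
    have e5 : G n = Real.log (Dt (c n)) + δ * ∑ U, (n U : ℝ) * (b U + ε / 4) := rfl
    rw [e5, e3, mul_add]
    linarith
  obtain ⟨n, hn⟩ := exists_approx G hG (show 0 < δ * (ε / 4) from mul_pos hδ (by linarith))
  refine ⟨c n, hc n, fun U => ?_⟩
  set S := ∑ a ∈ D U, P (c n) a with hS
  have hS0 : 0 ≤ S := sum_nonneg fun a _ => h3 (c n) (hc n) a
  let n' : F → ℕ := fun W => if W = U then n W + 1 else n W
  have hsum : ∀ f : F → ℝ, ∑ W, (n' W : ℝ) * f W = ∑ W, (n W : ℝ) * f W + f U := by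
    intro f
    have e1 : ∀ W, (n' W : ℝ) * f W = (n W : ℝ) * f W + if W = U then f U else 0 := by
      intro W
      by_cases h : W = U
      · simp only [n', h, if_true]
        push_cast
        ring
      · simp only [n', h, if_false]
        ring
    rw [sum_congr rfl fun W _ => e1 W, sum_add_distrib]
    simp
  have hc' : c n' = fun a => if a ∈ D U then (1 - (1 - Real.exp (-δ))) * c n a else c n a := by
    funext a
    have e1 : ∀ m : F → ℕ, (∑ W, if a ∈ D W then (m W : ℝ) else 0) =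
        ∑ W, (m W : ℝ) * (if a ∈ D W then (1 : ℝ) else 0) := by
      intro m
      exact sum_congr rfl fun W _ => by split_ifs <;> ring
    have e2 : c n' a = Real.exp (-(δ * ∑ W, if a ∈ D W then (n' W : ℝ) else 0)) := rfl
    have e3 : c n a = Real.exp (-(δ * ∑ W, if a ∈ D W then (n W : ℝ) else 0)) := rfl
    rw [e2, e3, e1, e1, hsum]
    by_cases h : a ∈ D U
    · rw [if_pos h, if_pos h, sub_sub_cancel, ← Real.exp_add]
      congr 1
      ring
    · rw [if_neg h, if_neg h, add_zero]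
  have hs1 : Real.exp (-δ) < 1 := Real.exp_lt_one_iff.2 (by linarith)
  have hs0 : 0 < Real.exp (-δ) := Real.exp_pos _
  have k1 : Real.log (Dt (c n')) ≤ Real.log (Dt (c n)) - (1 - Real.exp (-δ)) * S := by
    have e1 := h2 (c n) (hc n) (1 - Real.exp (-δ)) (by linarith) (by linarith) (D U)
    rw [← hc'] at e1
    have e2 := Real.log_le_log (h1 _ (hc n')) e1
    rw [Real.log_mul (h1 _ (hc n)).ne' (Real.exp_pos _).ne', Real.log_exp] at e2
    linarith
  have k2 := hn n'
  have e5 : ∀ m, G m = Real.log (Dt (c m)) + δ * ∑ U, (m U : ℝ) * (b U + ε / 4) := fun m => rfl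
  rw [e5, e5, hsum] at k2
  have k3 : (1 - Real.exp (-δ)) * S ≤ δ * (b U + ε / 2) := by
    nlinarith [k1, k2]
  have k4 : δ ≤ (1 + δ) * (1 - Real.exp (-δ)) := by
    have e1 : Real.exp (-δ) * Real.exp δ = 1 := by rw [← Real.exp_add]; simp
    have e2 : δ + 1 ≤ Real.exp δ := Real.add_one_le_exp δ
    have e3 : Real.exp (-δ) * (δ + 1) ≤ Real.exp (-δ) * Real.exp δ :=
      mul_le_mul_of_nonneg_left e2 hs0.le
    rw [e1] at e3
    nlinarith
  have k5 : δ * S ≤ δ * ((1 + δ) * (b U + ε / 2)) := by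
    calc δ * S ≤ ((1 + δ) * (1 - Real.exp (-δ))) * S := mul_le_mul_of_nonneg_right k4 hS0
      _ = (1 + δ) * ((1 - Real.exp (-δ)) * S) := by ring
      _ ≤ (1 + δ) * (δ * (b U + ε / 2)) := mul_le_mul_of_nonneg_left k3 (by linarith)
      _ = δ * ((1 + δ) * (b U + ε / 2)) := by ring
  have k6 : S ≤ (1 + δ) * (b U + ε / 2) := le_of_mul_le_mul_left k5 hδ
  have k7 : δ * (b U + ε / 2) ≤ δ * (B + ε) :=
    mul_le_mul_of_nonneg_left (by linarith [hBU U]) hδ.le
  nlinarith [k6, k7, hδB]

end WoodFV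
end

section
/-!
# LPM: the discrete minimiser for the grounded Laplacian
-/
open Finset Matrix WoodR WoodFV

namespace WoodF

set_option linter.unusedSectionVars false

theorem Pr_nonneg (hL : SpecLAP1) {V A : Type} [Fintype V] [DecidableEq V] [Fintype A]
    [DecidableEq A] (tl hd : A → V) (r : V) (c : A → ℝ) (hc : ∀ a, 0 < c a)
    (hconn : Conn tl hd 1) (a : A) : 0 ≤ Pr tl hd r c a := by
  have h1 := (hL V A tl hd r c hc hconn).inv
  have h2 := h1.posSemidef.dotProduct_mulVec_nonneg (bv tl hd r a)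
  rw [star_trivial] at h2
  exact mul_nonneg (hc a).le h2

theorem lpm_of (hL1 : SpecLAP1) (hL2 : SpecLAP2) (hL3 : SpecLAP3) : SpecLPM := by
  intro V A _ _ _ _ tl hd r b hconn hn ε hε
  classical
  let F : Type := {U : Finset V // U ∈ F0 tl hd r}
  obtain ⟨c, hc, hcU⟩ := lpm (A := A) (F := F) (fun c => (lap tl hd r c).det)
    (fun c => Pr tl hd r c) (fun U => entr tl hd U.1) (fun U => b U.1)
    (fun c hc => (hL1 V A tl hd r c hc hconn).det_pos)
    (fun c hc s hs0 hs1 E => by
      have h1 := hL2 V A tl hd r c hc hconn E s hs0 hs1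
      rw [neg_mul] at h1
      exact h1)
    (fun c hc a => Pr_nonneg hL1 tl hd r c hc hconn a)
    (fun n δ hδ => by
      let n' : Finset V → ℕ := fun U => if h : U ∈ F0 tl hd r then n ⟨U, h⟩ else 0
      have hn' : ∀ U : F, n' U.1 = n U := by
        intro U
        simp only [n']
        rw [dif_pos U.2]
      obtain ⟨e, he, hl⟩ := hn n'
      have e1 : ∑ U ∈ F0 tl hd r, (n' U : ℝ) * b U = ∑ U : F, (n U : ℝ) * b U.1 := by
        rw [← Finset.sum_coe_sort (F0 tl hd r) (fun U => (n' U : ℝ) * b U)]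
        exact sum_congr rfl fun U _ => by rw [hn' U]
      have e2 : ∀ a, (len tl hd r n' a : ℝ) =
          ∑ U : F, if a ∈ entr tl hd U.1 then (n U : ℝ) else 0 := by
        intro a
        rw [len, ← Finset.sum_coe_sort (F0 tl hd r)
          (fun U => if a ∈ entr tl hd U then n' U else 0)]
        push_cast
        refine sum_congr rfl fun U _ => ?_
        rw [hn' U]
      have e3 := hL3 V A tl hd r
        (fun a => Real.exp (-(δ * ∑ U : F, if a ∈ entr tl hd U.1 then (n U : ℝ) else 0)))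
        (fun a => Real.exp_pos _) e he
      refine le_trans ?_ e3
      rw [← Real.exp_sum]
      apply Real.exp_le_exp.2
      rw [sum_neg_distrib, neg_le_neg_iff, ← mul_sum]
      refine mul_le_mul_of_nonneg_left ?_ hδ.le
      rw [← e1]
      refine le_trans (le_of_eq ?_) hl
      push_cast
      exact sum_congr rfl fun v _ => (e2 (e v)).symm)
    hε
  exact ⟨c, hc, fun U hU => hcU ⟨U, hU⟩⟩

end WoodF
end

section
/-!
# LPI: the discrete minimiser for arbitrary sets of arcs
-/
open Finset Matrix WoodR WoodFV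

namespace WoodF

set_option linter.unusedSectionVars false

theorem lpi : SpecLPI := by
  intro V A I _ _ _ _ _ _ tl hd r D b hconn hn ε hε
  classical
  obtain ⟨c, hc, hcU⟩ := WoodFV.lpm (A := A) (F := I) (fun c => (WoodF.lap tl hd r c).det)
    (fun c => WoodF.Pr tl hd r c) D b
    (fun c hc => (lap1 V A tl hd r c hc hconn).det_pos)
    (fun c hc s hs0 hs1 E => by
      have h1 := lap2 V A tl hd r c hc hconn E s hs0 hs1
      rw [neg_mul] at h1
      exact h1)
    (fun c hc a => WoodF.Pr_nonneg lap1 tl hd r c hc hconn a)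
    (fun n δ hδ => by
      obtain ⟨e, he, hl⟩ := hn n
      have e3 := lap3 V A tl hd r
        (fun a => Real.exp (-(δ * ∑ i, if a ∈ D i then (n i : ℝ) else 0)))
        (fun a => Real.exp_pos _) e he
      refine le_trans ?_ e3
      rw [← Real.exp_sum]
      apply Real.exp_le_exp.2
      rw [sum_neg_distrib, neg_le_neg_iff, ← mul_sum]
      refine mul_le_mul_of_nonneg_left ?_ hδ.le
      refine le_trans (le_of_eq ?_) hl
      push_cast
      rfl)
    hε
  exact ⟨c, hc, hcU⟩

end WoodF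
end

section
/-!
# CV: closest vector rounding in the graph
-/
open Finset Matrix WoodR WoodFV

namespace WoodF

set_option linter.unusedSectionVars false

theorem cv_of (hL : SpecLAP1) : SpecCV := by
  intro V A _ _ _ _ tl hd r c hc hconn z0 hz0
  classical
  set L := lap tl hd r c with hLd
  have hpd : L.PosDef := hL V A tl hd r c hc hconn
  let k : A → Wr r → ℤ := fun a v => (if hd a = v.1 then 1 else 0) - (if tl a = v.1 then 1 else 0)
  have hk : ∀ a v, bv tl hd r a v = k a v := by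
    intro a v
    simp only [bv, k]
    push_cast
    rfl
  let y0 : Wr r → ℝ := fun v => z0 v.1
  -- the sets and their exact bounds
  let ext : (Wr r → ℤ) → V → ℤ := fun z v =>
    if h : v = r then - ∑ w, z w else z ⟨v, h⟩
  have hext : ∀ z (v : Wr r), ext z v.1 = z v := by
    intro z v
    simp only [ext]
    rw [dif_neg v.2]
  have hextr : ∀ z, ext z r = - ∑ w, z w := by
    intro z
    simp only [ext]
    rw [dif_pos trivial]
  have hsum : ∀ (S : Finset V), r ∉ S → ∀ f : V → ℝ,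
      ∑ v ∈ S, f v = ∑ w : Wr r, if w.1 ∈ S then f w.1 else 0 := by
    intro S hS f
    rw [← Finset.sum_subtype_of_mem (p := fun v => v ≠ r)
      (s := S) f (fun v hv h => hS (h ▸ hv))]
    rw [← Finset.sum_filter]
    refine sum_congr ?_ fun _ _ => rfl
    ext w
    simp
  -- main identity
  have main : ∀ (π y : Wr r → ℝ), L *ᵥ π = y → ∀ S : Finset V, r ∉ S →
      (∑ w : Wr r, if w.1 ∈ S then y w else 0) =
        ∑ a, c a * (bv tl hd r a ⬝ᵥ π) * (dif tl hd S a : ℝ) := by
    intro π y hy S hS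
    have e1 : ∀ w, y w = ∑ a, c a * (bv tl hd r a ⬝ᵥ π) * bv tl hd r a w := by
      intro w
      rw [← hy, hLd, lap, Matrix.sum_mulVec, Finset.sum_apply]
      refine sum_congr rfl fun a _ => ?_
      rw [Matrix.smul_mulVec, Pi.smul_apply, Matrix.vecMulVec_mulVec]
      simp [smul_eq_mul]
      ring
    have e2 : ∀ a, (∑ w : Wr r, if w.1 ∈ S then bv tl hd r a w else 0) =
        (dif tl hd S a : ℝ) := by
      intro a
      have e3 := hsum S hS (fun v => (if hd a = v then (1:ℝ) else 0) - (if tl a = v then 1 else 0))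
      have e4 : (∑ w : Wr r, if w.1 ∈ S then bv tl hd r a w else 0) =
          ∑ w : Wr r, if w.1 ∈ S then ((if hd a = w.1 then (1:ℝ) else 0) -
            (if tl a = w.1 then 1 else 0)) else 0 := rfl
      rw [e4, ← e3, sum_sub_distrib, Finset.sum_ite_eq, Finset.sum_ite_eq]
      unfold dif
      push_cast
      rfl
    calc (∑ w : Wr r, if w.1 ∈ S then y w else 0)
        = ∑ w : Wr r, ∑ a, c a * (bv tl hd r a ⬝ᵥ π) *
            (if w.1 ∈ S then bv tl hd r a w else 0) := by
          refine sum_congr rfl fun w _ => ?_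
          split_ifs with h
          · exact e1 w
          · simp
      _ = ∑ a, ∑ w : Wr r, c a * (bv tl hd r a ⬝ᵥ π) *
            (if w.1 ∈ S then bv tl hd r a w else 0) := sum_comm
      _ = _ := by
          refine sum_congr rfl fun a _ => ?_
          rw [← mul_sum, e2]
  -- for every δ an approximate solution
  have approx : ∀ δ : ℝ, 0 < δ → ∃ z : Wr r → ℤ, ∀ S : Finset V, r ∉ S →
      |∑ v ∈ S, ((ext z v : ℝ) - z0 v)| ≤
        1 / 2 * ∑ a ∈ crs tl hd S, Pr tl hd r c a + δ * ∑ a, c a := by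
    intro δ hδ
    obtain ⟨z, hz⟩ := closest (bv tl hd r) k hk L hpd y0 hδ
    refine ⟨z, fun S hS => ?_⟩
    set x : Wr r → ℝ := fun i => (z i : ℝ) - y0 i with hx
    set π := L⁻¹ *ᵥ x with hπ
    have hLπ : L *ᵥ π = x := by
      rw [hπ, Matrix.mulVec_mulVec, Matrix.mul_nonsing_inv _ ((Matrix.isUnit_iff_isUnit_det _).1
        hpd.isUnit), Matrix.one_mulVec]
    have e1 := main π x hLπ S hS
    have e2 : ∑ v ∈ S, ((ext z v : ℝ) - z0 v) = ∑ w : Wr r, if w.1 ∈ S then x w else 0 := by
      rw [hsum S hS]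
      refine sum_congr rfl fun w _ => ?_
      rw [hext]
    rw [e2, e1]
    calc |∑ a, c a * (bv tl hd r a ⬝ᵥ π) * (dif tl hd S a : ℝ)|
        ≤ ∑ a, |c a * (bv tl hd r a ⬝ᵥ π) * (dif tl hd S a : ℝ)| := abs_sum_le_sum_abs _ _
      _ ≤ ∑ a, ((if a ∈ crs tl hd S then 1 / 2 * Pr tl hd r c a else 0) + δ * c a) := by
          refine sum_le_sum fun a _ => ?_
          by_cases h : a ∈ crs tl hd S
          · rw [if_pos h]
            have e3 : |(dif tl hd S a : ℝ)| ≤ 1 := by
              rcases dif_cases tl hd S a with h' | h' | h' <;> rw [h'] <;> simp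
            rw [abs_mul, abs_mul, abs_of_pos (hc a)]
            have e4 := hz a
            calc c a * |bv tl hd r a ⬝ᵥ π| * |(dif tl hd S a : ℝ)|
                ≤ c a * |bv tl hd r a ⬝ᵥ π| * 1 :=
                  mul_le_mul_of_nonneg_left e3 (mul_nonneg (hc a).le (abs_nonneg _))
              _ = c a * |bv tl hd r a ⬝ᵥ π| := mul_one _
              _ ≤ c a * ((bv tl hd r a ⬝ᵥ (L⁻¹ *ᵥ bv tl hd r a)) / 2 + δ) :=
                  mul_le_mul_of_nonneg_left e4 (hc a).le
              _ = 1 / 2 * Pr tl hd r c a + δ * c a := by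
                  rw [Pr, ← hLd]
                  ring
          · rw [if_neg h]
            have e3 : dif tl hd S a = 0 := by
              have h' : tl a ∈ S ↔ hd a ∈ S := by
                by_contra h''
                exact h (mem_filter.2 ⟨mem_univ _, h''⟩)
              unfold dif
              by_cases h1 : tl a ∈ S
              · simp [h1, h'.1 h1]
              · have h2 : hd a ∉ S := fun h3 => h1 (h'.2 h3)
                simp [h1, h2]
            rw [e3]
            simp only [Int.cast_zero, mul_zero, abs_zero, zero_add]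
            exact mul_nonneg hδ.le (hc a).le
      _ = _ := by
          rw [sum_add_distrib, ← mul_sum, ← sum_filter, ← mul_sum]
          congr 3
          ext a
          simp
  -- choose δ
  have near : ∀ S : Finset V, ∃ δ : ℝ, 0 < δ ∧ ∀ k : ℤ,
      |(k : ℝ) - ∑ v ∈ S, z0 v| ≤ 1 / 2 * ∑ a ∈ crs tl hd S, Pr tl hd r c a + δ →
      |(k : ℝ) - ∑ v ∈ S, z0 v| ≤ 1 / 2 * ∑ a ∈ crs tl hd S, Pr tl hd r c a := fun S =>
    near_int _ _
  choose dl hdl hdl' using near
  obtain ⟨S0, -, hS0⟩ := Finset.exists_min_image (univ : Finset (Finset V)) dl ⟨∅, mem_univ _⟩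
  have hC : 0 ≤ ∑ a, c a := sum_nonneg fun a _ => (hc a).le
  obtain ⟨z, hz⟩ := approx (dl S0 / (∑ a, c a + 1)) (div_pos (hdl S0) (by linarith))
  refine ⟨ext z, ?_, fun S hS => ?_⟩
  · rw [← Finset.add_sum_erase univ (ext z) (mem_univ r), hextr]
    have e1 : ∑ v ∈ univ.erase r, ext z v = ∑ w : Wr r, z w := by
      rw [← Finset.sum_subtype_of_mem (p := fun v => v ≠ r)
        (s := univ.erase r) (ext z) (fun v hv => (mem_erase.1 hv).1)]
      have e2 : (Finset.subtype (fun v => v ≠ r) (univ.erase r)) = (univ : Finset (Wr r)) := by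
        ext w
        simp [w.2]
      rw [e2]
      exact sum_congr rfl fun w _ => hext z w
    rw [e1]
    ring
  · have e1 := hz S hS
    have e2 : ∑ v ∈ S, ((ext z v : ℝ) - z0 v) = ((∑ v ∈ S, ext z v : ℤ) : ℝ) - ∑ v ∈ S, z0 v := by
      rw [sum_sub_distrib]
      push_cast
      rfl
    rw [e2] at e1 ⊢
    refine hdl' S _ (e1.trans ?_)
    have e3 : dl S0 / (∑ a, c a + 1) * ∑ a, c a ≤ dl S0 := by
      rw [div_mul_eq_mul_div, div_le_iff₀ (by linarith)]
      nlinarith [hdl S0]
    have e4 := hS0 S (mem_univ _)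
    linarith

end WoodF
end

section
/-!
# CV and LPM, unconditional
-/
namespace WoodF

theorem cv : SpecCV := cv_of lap1

theorem lpm : SpecLPM := lpm_of lap1 lap2 lap3

end WoodF
end

section
/-!
# Reduction to 3-edge-connected digraphs (section 0)

If a statement `m` disjoint dijoins holds for all digraphs without cuts of at most two arcs in
which every directed cut has at least `k` arcs, `k ≥ 3`, then it holds for all digraphs in which
every directed cut has at least `k` arcs.
-/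
open Finset WoodR WoodArc

namespace WoodFV

set_option linter.unusedSectionVars false

/-- a directed cut with `e` is replaced by one without `e` -/
theorem exists_cut {V A : Type} {tl hd : A → V} {X U : Set V} {e f : A}
    (he1 : tl e ∉ X) (he2 : hd e ∈ X) (hf1 : tl f ∈ X) (hf2 : hd f ∉ X)
    (hin : ∀ x, tl x ∉ X → hd x ∈ X → x = e) (hout : ∀ x, tl x ∈ X → hd x ∉ X → x = f)
    (hU : ∀ x, tl x ∈ U → hd x ∈ U) (ha : tl e ∉ U) (hb : hd e ∈ U) :
    ∃ W : Set V, W.Nonempty ∧ W ≠ Set.univ ∧ (∀ x, tl x ∈ W → hd x ∈ W) ∧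
      (tl e ∈ W ↔ hd e ∈ W) ∧ ∀ x, x ≠ f → tl x ∉ W → hd x ∈ W → tl x ∉ U ∧ hd x ∈ U := by
  have key1 : (U \ X).Nonempty → ∃ W : Set V, W.Nonempty ∧ W ≠ Set.univ ∧
      (∀ x, tl x ∈ W → hd x ∈ W) ∧
      (tl e ∈ W ↔ hd e ∈ W) ∧ ∀ x, x ≠ f → tl x ∉ W → hd x ∈ W → tl x ∉ U ∧ hd x ∈ U := by
    intro hne
    refine ⟨U \ X, hne, ?_, ?_, ?_, ?_⟩
    · intro h
      have : hd e ∈ U \ X := h ▸ Set.mem_univ _
      exact this.2 he2
    · rintro x ⟨h1, h2⟩
      refine ⟨hU x h1, fun h3 => ?_⟩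
      have := hin x h2 h3
      subst this
      exact ha h1
    · exact ⟨fun h => absurd h.1 ha, fun h => absurd he2 h.2⟩
    · rintro x hxf h1 ⟨h2, h3⟩
      refine ⟨fun h4 => ?_, h2⟩
      by_cases h5 : tl x ∈ X
      · exact hxf (hout x h5 h3)
      · exact h1 ⟨h4, h5⟩
  have key2 : ¬ X ⊆ U → ∃ W : Set V, W.Nonempty ∧ W ≠ Set.univ ∧
      (∀ x, tl x ∈ W → hd x ∈ W) ∧
      (tl e ∈ W ↔ hd e ∈ W) ∧ ∀ x, x ≠ f → tl x ∉ W → hd x ∈ W → tl x ∉ U ∧ hd x ∈ U := by
    intro hX
    refine ⟨(U ∩ X) ∪ Xᶜ, ⟨tl e, Or.inr he1⟩, ?_, ?_, ?_, ?_⟩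
    · intro h
      apply hX
      intro x hx
      rcases (h ▸ Set.mem_univ x : x ∈ (U ∩ X) ∪ Xᶜ) with h1 | h1
      · exact h1.1
      · exact absurd hx h1
    · intro x hx
      by_cases h3 : hd x ∈ X
      · rcases hx with h1 | h1
        · exact Or.inl ⟨hU x h1.1, h3⟩
        · have := hin x h1 h3
          subst this
          exact Or.inl ⟨hb, he2⟩
      · exact Or.inr h3
    · exact ⟨fun _ => Or.inl ⟨hb, he2⟩, fun _ => Or.inr he1⟩
    · rintro x hxf h1 h2
      have h3 : tl x ∈ X := by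
        by_contra h
        exact h1 (Or.inr h)
      have h4 : tl x ∉ U := fun h => h1 (Or.inl ⟨h, h3⟩)
      rcases h2 with h2 | h2
      · exact ⟨h4, h2.1⟩
      · exact absurd (hout x h3 h2) hxf
  by_cases h : (U \ X).Nonempty
  · exact key1 h
  · refine key2 fun hXU => ?_
    have h1 : tl f ∈ U := hXU hf1
    exact h ⟨hd f, hU f h1, hf2⟩

/-- the arcs with exactly one end in `S` -/
def cutc {V A : Type} [DecidableEq V] [Fintype A] (tl hd : A → V) (S : Finset V) : Finset A :=
  univ.filter fun a => (tl a ∈ S ∧ hd a ∉ S) ∨ (tl a ∉ S ∧ hd a ∈ S)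

/-- **reduction to 3-edge-connected digraphs** -/
theorem reduce (m k : ℕ) (hk : 3 ≤ k)
    (H : ∀ (V A : Type) [Fintype V] [DecidableEq V] [Fintype A] [DecidableEq A] (tl hd : A → V),
      CutGe tl hd k → (∀ S : Finset V, S.Nonempty → S ≠ univ → 3 ≤ (cutc tl hd S).card) →
        Dij tl hd m) :
    ∀ (n : ℕ) (V A : Type) [Fintype V] [Fintype A] (tl hd : A → V), Fintype.card V = n →
      CutGe tl hd k → Dij tl hd m := by
  classical
  intro n
  induction n with
  | zero =>
    intro V A _ _ tl hd hn hcut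
    refine H V A tl hd hcut fun S hS => ?_
    obtain ⟨v, -⟩ := hS
    exact absurd (Fintype.card_pos_iff.2 ⟨v⟩) (by omega)
  | succ n ih =>
    intro V A _ _ tl hd hn hcut
    by_cases h3 : ∀ S : Finset V, S.Nonempty → S ≠ univ → 3 ≤ (cutc tl hd S).card
    · exact H V A tl hd hcut h3
    push Not at h3
    obtain ⟨S, hS1, hS2, hS3⟩ := h3
    rcases Nat.eq_zero_or_pos m with rfl | hm
    · exact ⟨fun _ => ∅, fun i => i.elim0, fun i => i.elim0⟩
    let I : Finset A := univ.filter fun a => tl a ∉ S ∧ hd a ∈ S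
    let O : Finset A := univ.filter fun a => tl a ∈ S ∧ hd a ∉ S
    have hIO : I.card + O.card ≤ 2 := by
      have h1 : Disjoint I O := by
        rw [Finset.disjoint_left]
        intro a h1 h2
        exact (mem_filter.1 h1).2.1 (mem_filter.1 h2).2.1
      rw [← card_union_of_disjoint h1]
      refine (card_le_card ?_).trans (Nat.le_of_lt_succ hS3)
      intro a ha
      rw [mem_union, mem_filter, mem_filter] at ha
      unfold cutc
      rw [mem_filter]
      rcases ha with h | h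
      · exact ⟨mem_univ _, Or.inr h.2⟩
      · exact ⟨mem_univ _, Or.inl h.2⟩
    have hI : I.card ≠ 0 := by
      intro h0
      rw [card_eq_zero] at h0
      have h1 : ∀ a, tl a ∉ S → hd a ∉ S := fun a h1 h2 => by
        have : a ∈ I := mem_filter.2 ⟨mem_univ _, h1, h2⟩
        rw [h0] at this
        exact notMem_empty _ this
      have h2 := hcut ((S : Set V)ᶜ) (by
        rw [Set.nonempty_compl]
        intro h
        exact hS2 (by
          rw [eq_univ_iff_forall]
          intro v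
          rw [← mem_coe, h]
          exact Set.mem_univ v)) (by
        intro h
        obtain ⟨v, hv⟩ := hS1
        have : v ∈ ((S : Set V)ᶜ) := h ▸ Set.mem_univ v
        exact this (mem_coe.2 hv)) (fun a ha => fun h => ha (by
          by_contra h3
          exact h1 a (fun h4 => h3 (mem_coe.2 h4)) (mem_coe.1 h)))
      have h3 : {a | tl a ∉ ((S : Set V)ᶜ) ∧ hd a ∈ ((S : Set V)ᶜ)}.ncard = O.card := by
        rw [← Set.ncard_coe_finset]
        congr 1
        ext a
        rw [mem_coe, mem_filter]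
        constructor
        · rintro ⟨e1, e2⟩
          exact ⟨mem_univ _, by_contra fun h => e1 h, e2⟩
        · rintro ⟨-, e1, e2⟩
          exact ⟨fun h => h e1, e2⟩
      omega
    have hO : O.card ≠ 0 := by
      intro h0
      rw [card_eq_zero] at h0
      have h1 : ∀ a, tl a ∈ S → hd a ∈ S := fun a h1 => by
        by_contra h2
        have : a ∈ O := mem_filter.2 ⟨mem_univ _, h1, h2⟩
        rw [h0] at this
        exact notMem_empty _ this
      have h2 := hcut (S : Set V) (by simpa using hS1) (fun h => hS2 (by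
          rw [eq_univ_iff_forall]
          intro v
          rw [← mem_coe, h]
          exact Set.mem_univ v)) (fun a ha => mem_coe.2 (h1 a (mem_coe.1 ha)))
      have h3 : {a | tl a ∉ (S : Set V) ∧ hd a ∈ (S : Set V)}.ncard = I.card := by
        rw [← Set.ncard_coe_finset]
        congr 1
        ext a
        rw [mem_coe, mem_filter]
        exact ⟨fun h => ⟨mem_univ _, h⟩, fun h => h.2⟩
      omega
    obtain ⟨e, he⟩ := card_eq_one.1 (show I.card = 1 by omega)
    obtain ⟨f, hf⟩ := card_eq_one.1 (show O.card = 1 by omega)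
    have he0 : e ∈ I := he ▸ mem_singleton_self e
    have hf0 : f ∈ O := hf ▸ mem_singleton_self f
    have he1 : tl e ∉ S := (mem_filter.1 he0).2.1
    have he2 : hd e ∈ S := (mem_filter.1 he0).2.2
    have hf1 : tl f ∈ S := (mem_filter.1 hf0).2.1
    have hf2 : hd f ∉ S := (mem_filter.1 hf0).2.2
    have hne : hd e ≠ tl e := fun h => he1 (h ▸ he2)
    -- contract `e`
    let V' : Type := {v : V // v ≠ tl e}
    let π : V → V' := fun v => if h : v = tl e then ⟨hd e, hne⟩ else ⟨v, h⟩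
    have hπ1 : ∀ v (h : v ≠ tl e), π v = ⟨v, h⟩ := fun v h => dif_neg h
    have hπ2 : π (tl e) = ⟨hd e, hne⟩ := dif_pos rfl
    have hcard : Fintype.card V' = n := by
      have h1 : Fintype.card V' = Fintype.card V - 1 := by
        have := Fintype.card_subtype_compl (fun v : V => v = tl e)
        rw [Fintype.card_subtype_eq] at this
        exact this
      omega
    obtain ⟨J, hJ1, hJ2⟩ := ih V' A (fun a => π (tl a)) (fun a => π (hd a)) hcard (by
      intro U h1 h2 h3
      refine hcut (π ⁻¹' U) ?_ ?_ (fun a ha => h3 a ha)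
      · obtain ⟨u, hu⟩ := h1
        exact ⟨u.1, by rw [Set.mem_preimage, hπ1 u.1 u.2]; exact hu⟩
      · intro h
        apply h2
        rw [Set.eq_univ_iff_forall]
        intro u
        have h4 : u.1 ∈ π ⁻¹' U := h ▸ Set.mem_univ _
        rw [Set.mem_preimage, hπ1 u.1 u.2] at h4
        exact h4)
    have hJ3 : ∀ i, ∀ U : Set V, U.Nonempty → U ≠ Set.univ → (∀ a, tl a ∈ U → hd a ∈ U) →
        (tl e ∈ U ↔ hd e ∈ U) → ∃ a ∈ J i, tl a ∉ U ∧ hd a ∈ U := by
      intro i U h1 h2 h3 h4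
      have hmem : ∀ v, π v ∈ {u : V' | u.1 ∈ U} ↔ v ∈ U := by
        intro v
        by_cases hv : v = tl e
        · subst hv
          rw [hπ2]
          exact h4.symm
        · rw [hπ1 v hv]
          exact Iff.rfl
      obtain ⟨a, ha, h5, h6⟩ := hJ2 i {u : V' | u.1 ∈ U} (by
        obtain ⟨u, hu⟩ := h1
        exact ⟨π u, (hmem u).2 hu⟩) (fun h => h2 (by
        rw [Set.eq_univ_iff_forall]
        intro v
        rw [← hmem v, h]
        exact Set.mem_univ _)) (fun a ha => (hmem _).2 (h3 a ((hmem _).1 ha)))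
      exact ⟨a, ha, fun h => h5 ((hmem _).2 h), (hmem _).1 h6⟩
    obtain ⟨i0, hi0⟩ : ∃ i0 : Fin m, ∀ i, i ≠ i0 → f ∉ J i := by
      by_cases h : ∃ i, f ∈ J i
      · obtain ⟨i0, h0⟩ := h
        exact ⟨i0, fun i hi hfi => Set.disjoint_left.1 (hJ1 i i0 hi) hfi h0⟩
      · push Not at h
        exact ⟨⟨0, hm⟩, fun i _ => h i⟩
    have hJ4 : ∀ i, i ≠ i0 → ∀ U : Set V, U.Nonempty → U ≠ Set.univ →
        (∀ a, tl a ∈ U → hd a ∈ U) → (tl e ∈ U ↔ hd e ∈ U) →
        ∃ a ∈ J i \ {e, f}, tl a ∉ U ∧ hd a ∈ U := by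
      intro i hi U h1 h2 h3 h4
      obtain ⟨a, ha, h5, h6⟩ := hJ3 i U h1 h2 h3 h4
      refine ⟨a, ⟨ha, fun h => ?_⟩, h5, h6⟩
      rcases h with h | h
      · subst h
        exact h5 (h4.2 h6)
      · rw [Set.mem_singleton_iff] at h
        subst h
        exact hi0 i hi ha
    refine ⟨fun i => if i = i0 then J i ∪ {e, f} else J i \ {e, f}, fun i j hij => ?_,
      fun i U h1 h2 h3 => ?_⟩
    · rw [Set.disjoint_left]
      intro a ha hb
      by_cases hi : i = i0
      · have hj : j ≠ i0 := fun h => hij (hi.trans h.symm)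
        simp only [if_pos hi, if_neg hj] at ha hb
        rcases ha with ha | ha
        · exact Set.disjoint_left.1 (hJ1 i j hij) ha hb.1
        · exact hb.2 ha
      · simp only [if_neg hi] at ha
        by_cases hj : j = i0
        · simp only [if_pos hj] at hb
          rcases hb with hb | hb
          · exact Set.disjoint_left.1 (hJ1 i j hij) ha.1 hb
          · exact ha.2 hb
        · simp only [if_neg hj] at hb
          exact Set.disjoint_left.1 (hJ1 i j hij) ha.1 hb.1
    · by_cases h4 : tl e ∈ U ↔ hd e ∈ U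
      · by_cases hi : i = i0
        · simp only [if_pos hi]
          obtain ⟨a, ha, h5⟩ := hJ3 i U h1 h2 h3 h4
          exact ⟨a, Or.inl ha, h5⟩
        · simp only [if_neg hi]
          exact hJ4 i hi U h1 h2 h3 h4
      · have ha : tl e ∉ U := fun h => h4 ⟨fun _ => h3 e h, fun _ => h⟩
        have hb : hd e ∈ U := by
          by_contra h
          exact h4 ⟨fun h5 => absurd h5 ha, fun h5 => absurd h5 h⟩
        by_cases hi : i = i0
        · simp only [if_pos hi]
          exact ⟨e, Or.inr (Or.inl rfl), ha, hb⟩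
        · simp only [if_neg hi]
          obtain ⟨W, w1, w2, w3, w4, w5⟩ := exists_cut (X := (S : Set V)) (U := U) (e := e)
            (f := f) (tl := tl) (hd := hd) (by simpa using he1) (by simpa using he2)
            (by simpa using hf1) (by simpa using hf2)
            (fun x hx1 hx2 => by
              have : x ∈ I := mem_filter.2 ⟨mem_univ _, fun h => hx1 (mem_coe.2 h), mem_coe.1 hx2⟩
              rw [he, mem_singleton] at this
              exact this)
            (fun x hx1 hx2 => by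
              have : x ∈ O := mem_filter.2 ⟨mem_univ _, mem_coe.1 hx1, fun h => hx2 (mem_coe.2 h)⟩
              rw [hf, mem_singleton] at this
              exact this) h3 ha hb
          obtain ⟨a, ha1, ha2, ha3⟩ := hJ4 i hi W w1 w2 w3 w4
          refine ⟨a, ha1, w5 a (fun h => ha1.2 (Or.inr h)) ha2 ha3⟩

end WoodFV
end
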