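import Pool.Agent.Lib.MP_492a9e_co.FV.Defs
import Pool.Agent.Lib.MP_492a9e_co.FV.Asm
import Pool.Agent.Lib.MP_492a9e_co.FV.CNTA
import Pool.Agent.Lib.MP_492a9e_co.FV.CNTC
import Pool.Agent.Lib.MP_492a9e_co.FV.CNTB
import Pool.Agent.Lib.MP_492a9e_co.FV.Two
import Pool.Agent.Lib.MP_492a9e_co.FV.KRU
import Pool.Agent.Lib.MP_492a9e_co.FV.END4
import Pool.Agent.Lib.MP_492a9e_co.FV.OTY
import Pool.Agent.Lib.MP_492a9e_co.FV.DEG

section
/-!
# Uncrossing (module UNC)

`uncross`: a finite family of nonempty closed sets without `r` can be replaced by a laminar one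
with the same number of sets through every vertex, hence the same number of sets entered by every
arc (`sep_eq`). Among all such families one with the largest `∑ |U|²` is laminar.

`of_mult`: a multiplicity function on a finite set of sets as an indexed family.
-/
open Finset WoodR

namespace WoodF

set_option linter.unusedSectionVars false

variable {V A : Type} [Fintype V] [DecidableEq V] [Fintype A] [DecidableEq A]

/-- for a closed family, the number of sets entered by an arc is a difference of vertex counts -/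
theorem sep_eq {N : ℕ} {tl hd : A → V} {U : Fin N → Finset V}
    (hc : ∀ i, Clo tl hd (U i)) (a : A) :
    lenF tl hd U a + (univ.filter fun i => tl a ∈ U i).card
      = (univ.filter fun i => hd a ∈ U i).card := by
  unfold lenF
  rw [← card_union_of_disjoint]
  · congr 1
    ext i
    simp only [mem_union, mem_filter, mem_univ, true_and, mem_entr]
    constructor
    · rintro (h | h)
      · exact h.2
      · exact hc i a h
    · intro h
      by_cases h' : tl a ∈ U i
      · exact Or.inr h'
      · exact Or.inl ⟨h', h⟩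
  · rw [disjoint_filter]
    intro i _ h
    rw [mem_entr] at h
    exact h.1

private theorem card_upd {N : ℕ} (U : Fin N → Finset V) (i j : Fin N) (hij : i ≠ j)
    (f : Finset V → ℕ) (X Y : Finset V) :
    ∑ k, f (Function.update (Function.update U i X) j Y k) + (f (U i) + f (U j)) =
      ∑ k, f (U k) + (f X + f Y) := by
  classical
  have h1 : ∀ g : Fin N → ℕ, ∑ k, g k = g i + g j + ∑ k ∈ univ \ {i, j}, g k := by
    intro g
    rw [← sum_sdiff (subset_univ ({i, j} : Finset (Fin N))), sum_pair hij]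
    ring
  rw [h1 (fun k => f (Function.update (Function.update U i X) j Y k)), h1 (fun k => f (U k))]
  have h2 : ∑ k ∈ univ \ {i, j}, f (Function.update (Function.update U i X) j Y k) =
      ∑ k ∈ univ \ {i, j}, f (U k) := by
    refine sum_congr rfl fun k hk => ?_
    simp only [mem_sdiff, mem_univ, true_and, mem_insert, mem_singleton, not_or] at hk
    rw [Function.update_of_ne hk.2, Function.update_of_ne hk.1]
  rw [h2]
  simp only [Function.update_self, Function.update_of_ne hij]
  ring

/-- **uncrossing**, unsorted -/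
theorem uncross {N : ℕ} {tl hd : A → V} {r : V} {U : Fin N → Finset V}
    (hc : ∀ i, Clo tl hd (U i)) (hne : ∀ i, (U i).Nonempty) (hr : ∀ i, r ∉ U i) :
    ∃ U' : Fin N → Finset V, (∀ i, Clo tl hd (U' i)) ∧ (∀ i, (U' i).Nonempty) ∧
      (∀ i, r ∉ U' i) ∧
      (∀ v, (univ.filter fun i => v ∈ U' i).card = (univ.filter fun i => v ∈ U i).card) ∧
      ∀ i j, U' i ⊆ U' j ∨ U' j ⊆ U' i ∨ Disjoint (U' i) (U' j) := by
  classical
  obtain ⟨W, hW, hmax⟩ := exists_max_image
    (univ.filter fun U' : Fin N → Finset V => (∀ i, Clo tl hd (U' i)) ∧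
      (∀ i, (U' i).Nonempty) ∧ (∀ i, r ∉ U' i) ∧
      (∀ v, (univ.filter fun i => v ∈ U' i).card = (univ.filter fun i => v ∈ U i).card))
    (fun U' => ∑ i, (U' i).card ^ 2) ⟨U, mem_filter.2 ⟨mem_univ _, hc, hne, hr, fun v => rfl⟩⟩
  obtain ⟨-, h1, h2, h3, h4⟩ := mem_filter.1 hW
  refine ⟨W, h1, h2, h3, h4, fun i j => ?_⟩
  by_contra hcon
  push Not at hcon
  obtain ⟨ha, hb, hd'⟩ := hcon
  have hij : i ≠ j := fun h => ha (h ▸ Subset.refl _)
  have hint : (W i ∩ W j).Nonempty := by
    rwa [not_disjoint_iff_nonempty_inter] at hd'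
  set W' := Function.update (Function.update W i (W i ∩ W j)) j (W i ∪ W j) with hW'
  -- the values of `W'`
  have hval : ∀ k, W' k = W k ∨ W' k = W i ∩ W j ∨ W' k = W i ∪ W j := by
    intro k
    rw [hW']
    by_cases hkj : k = j
    · subst hkj
      rw [Function.update_self]
      exact Or.inr (Or.inr rfl)
    · rw [Function.update_of_ne hkj]
      by_cases hki : k = i
      · subst hki
        rw [Function.update_self]
        exact Or.inr (Or.inl rfl)
      · rw [Function.update_of_ne hki]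
        exact Or.inl rfl
  have hmem : W' ∈ (univ.filter fun U' : Fin N → Finset V => (∀ i, Clo tl hd (U' i)) ∧
      (∀ i, (U' i).Nonempty) ∧ (∀ i, r ∉ U' i) ∧
      (∀ v, (univ.filter fun i => v ∈ U' i).card = (univ.filter fun i => v ∈ U i).card)) := by
    refine mem_filter.2 ⟨mem_univ _, fun k => ?_, fun k => ?_, fun k => ?_, fun v => ?_⟩
    · intro a hk
      rcases hval k with h | h | h <;> rw [h] at hk ⊢
      · exact h1 k a hk
      · rw [mem_inter] at hk ⊢
        exact ⟨h1 i a hk.1, h1 j a hk.2⟩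
      · rw [mem_union] at hk ⊢
        exact hk.imp (h1 i a) (h1 j a)
    · rcases hval k with h | h | h <;> rw [h]
      · exact h2 k
      · exact hint
      · exact (h2 i).mono subset_union_left
    · rcases hval k with h | h | h <;> rw [h]
      · exact h3 k
      · exact fun hh => h3 i (mem_inter.1 hh).1
      · exact fun hh => (mem_union.1 hh).elim (h3 i) (h3 j)
    · rw [← h4 v, card_filter, card_filter]
      have h5 := card_upd W i j hij (fun X => if v ∈ X then 1 else 0) (W i ∩ W j) (W i ∪ W j)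
      rw [← hW'] at h5
      simp only [mem_inter, mem_union] at h5
      by_cases h6 : v ∈ W i <;> by_cases h7 : v ∈ W j <;> simp only [h6, h7] at h5 <;>
        simp at h5 ⊢ <;> omega
  have h5 := hmax W' hmem
  have h6 := card_upd W i j hij (fun X => X.card ^ 2) (W i ∩ W j) (W i ∪ W j)
  rw [← hW'] at h6
  have h7 : (W i ∪ W j).card + (W i ∩ W j).card = (W i).card + (W j).card :=
    card_union_add_card_inter _ _
  have h8 : (W i).card < (W i ∪ W j).card := by
    refine card_lt_card ⟨subset_union_left, fun h => hb ?_⟩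
    exact subset_union_right.trans h
  have h9 : (W j).card < (W i ∪ W j).card := by
    refine card_lt_card ⟨subset_union_right, fun h => ha ?_⟩
    exact subset_union_left.trans h
  obtain ⟨p, hp⟩ := Nat.exists_eq_add_of_lt h8
  have h10 : (W j).card = (W i ∩ W j).card + (p + 1) := by omega
  obtain ⟨q, hq⟩ := Nat.exists_eq_add_of_lt h9
  have h11 : (W i).card = (W i ∩ W j).card + (q + 1) := by omega
  have h12 : (W i ∪ W j).card = (W i ∩ W j).card + (p + 1) + (q + 1) := by omega
  simp only [h10, h11, h12] at h5 h6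
  nlinarith [Nat.zero_le p, Nat.zero_le q, Nat.zero_le (p * q)]

/-- a multiplicity function as an indexed family -/
theorem of_mult (F : Finset (Finset V)) (n : Finset V → ℕ) :
    ∃ U : Fin (∑ X ∈ F, n X) → Finset V, (∀ i, U i ∈ F) ∧
      ∀ (P : Finset V → Prop) [DecidablePred P],
        (univ.filter fun i => P (U i)).card = ∑ X ∈ F, if P X then n X else 0 := by
  classical
  have hcard : Fintype.card (Σ X : {X // X ∈ F}, Fin (n X.1)) = ∑ X ∈ F, n X := by
    rw [Fintype.card_sigma, ← sum_coe_sort F]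
    exact sum_congr rfl fun W _ => Fintype.card_fin _
  let e : (Σ X : {X // X ∈ F}, Fin (n X.1)) ≃ Fin (∑ X ∈ F, n X) :=
    Fintype.equivFinOfCardEq hcard
  refine ⟨fun i => (e.symm i).1.1, fun i => (e.symm i).1.2, fun P _ => ?_⟩
  rw [card_filter, ← Equiv.sum_comp e]
  simp only [Equiv.symm_apply_apply]
  rw [Fintype.sum_sigma, ← sum_coe_sort F]
  refine sum_congr rfl fun X _ => ?_
  by_cases h : P X.1
  · simp [h]
  · simp [h]

/-- **UNC** -/
theorem unc : SpecUNC := by
  intro V A _ _ _ _ tl hd r n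
  classical
  obtain ⟨U0, hU0, hU0c⟩ := of_mult (F0 tl hd r) n
  have hF0 : ∀ X, X ∈ F0 tl hd r ↔ X.Nonempty ∧ Clo tl hd X ∧ r ∉ X := by
    intro X
    unfold F0
    rw [mem_filter]
    exact and_iff_right (mem_univ _)
  obtain ⟨W, h1, h2, h3, h4, h5⟩ := uncross (r := r) (U := U0)
    (fun i => ((hF0 _).1 (hU0 i)).2.1) (fun i => ((hF0 _).1 (hU0 i)).1)
    fun i => ((hF0 _).1 (hU0 i)).2.2
  -- sort by size
  let key : Fin (∑ X ∈ F0 tl hd r, n X) → ℕ := fun i => (W i).card
  let σ := Tuple.sort key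
  have hmono : Monotone (key ∘ σ) := Tuple.monotone_sort key
  refine ⟨W ∘ σ, fun i => (hF0 _).2 ⟨h2 _, h1 _, h3 _⟩, ⟨fun i j => ?_, fun i j hij => hmono hij⟩,
    fun a => ?_⟩
  · rcases h5 (σ i) (σ j) with h | h | h
    · exact Or.inr (Or.inl h)
    · exact Or.inr (Or.inr h)
    · exact Or.inl h
  · have hσ : ∀ v, (univ.filter fun i => v ∈ (W ∘ σ) i).card =
        (univ.filter fun i => v ∈ U0 i).card := by
      intro v
      rw [← h4 v]
      refine card_bij (fun i _ => σ i) (fun i hi => ?_) (fun i _ j _ h => σ.injective h)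
        fun j hj => ⟨σ.symm j, ?_, σ.apply_symm_apply j⟩
      · rw [mem_filter] at hi ⊢
        exact ⟨mem_univ _, hi.2⟩
      · rw [mem_filter] at hj ⊢
        refine ⟨mem_univ _, ?_⟩
        rw [Function.comp_apply, σ.apply_symm_apply]
        exact hj.2
    have h6 := sep_eq (tl := tl) (hd := hd) (U := W ∘ σ) (fun i => h1 (σ i)) a
    have h7 := sep_eq (tl := tl) (hd := hd) (U := U0) (fun i => ((hF0 _).1 (hU0 i)).2.1) a
    rw [hσ, hσ] at h6
    have h8 : lenF tl hd U0 a = len tl hd r n a := hU0c (fun X => a ∈ entr tl hd X)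
    omega

end WoodF
end

section
/-!
# One fifth of the minimum directed cut: the theorem
-/
open Finset WoodR

namespace WoodF

theorem cntcT : SpecCNTC := cntc par1 cnta

theorem cntT : SpecCNT := cnt cntb cntcT

/-- every directed cut has at least `5 m - 4` arcs: `m` disjoint dijoins -/
theorem five (V A : Type) [Fintype V] [Fintype A] (tl hd : A → V) (m : ℕ)
    (hcut : WoodArc.CutGe tl hd (5 * m - 4)) : WoodArc.Dij tl hd m := by
  classical
  rcases Nat.lt_or_ge m 2 with hm | hm
  · interval_cases m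
    · exact ⟨fun _ => ∅, fun i => i.elim0, fun i => i.elim0⟩
    · refine ⟨fun _ => Set.univ, fun i j hij => absurd (Subsingleton.elim i j) hij, ?_⟩
      intro i U h1 h2 h3
      have h4 := hcut U h1 h2 h3
      have h5 : {a | tl a ∉ U ∧ hd a ∈ U}.Nonempty := by
        rw [Set.nonempty_iff_ne_empty]
        intro h
        rw [h, Set.ncard_empty] at h4
        omega
      obtain ⟨a, ha⟩ := h5
      exact ⟨a, Set.mem_univ _, ha⟩
  · refine WoodFV.reduce m (5 * m - 4) (by omega) (fun V A _ _ _ _ tl hd h1 h2 => ?_)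
      (Fintype.card V) V A tl hd rfl hcut
    refine conn3 kru unc cntT cv lpm tl hd m hm (fun S hS1 hS2 =>
      (h2 S hS1 hS2).trans (card_le_card fun a ha => ?_)) h1
    unfold WoodFV.cutc at ha
    unfold crs
    rw [mem_filter] at ha ⊢
    refine ⟨mem_univ _, fun h => ?_⟩
    rcases ha.2 with h3 | h3
    · exact h3.2 (h.1 h3.1)
    · exact h3.1 (h.2 h3.2)

end WoodF
end

section
/-!
# Digraphs which need not be weakly connected

One vertex of every weak component is chosen, and all chosen vertices are identified.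
-/
open Finset

namespace WoodF

/-- joined by an undirected path -/
def WC {V A : Type} (tl hd : A → V) : V → V → Prop :=
  Relation.EqvGen fun x y => ∃ a, tl a = x ∧ hd a = y

/-- the setoid of the weak components -/
def wcs {V A : Type} (tl hd : A → V) : Setoid V := Relation.EqvGen.setoid fun x y => ∃ a, tl a = x ∧ hd a = y

theorem wc_arc {V A : Type} (tl hd : A → V) (a : A) : WC tl hd (tl a) (hd a) :=
  Relation.EqvGen.rel _ _ ⟨a, rfl, rfl⟩

/-- two vertices of the same component which are separated by a closed set -/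
theorem wc_enter {V A : Type} {tl hd : A → V} {U : Set V} (hU : ∀ a, tl a ∈ U → hd a ∈ U)
    {x y : V} (h : WC tl hd x y) (hxy : ¬(x ∈ U ↔ y ∈ U)) : ∃ a, tl a ∉ U ∧ hd a ∈ U := by
  by_contra hne
  push Not at hne
  apply hxy
  induction h with
  | rel x y h =>
    obtain ⟨a, rfl, rfl⟩ := h
    exact ⟨hU a, fun h => by_contra fun h1 => hne a h1 h⟩
  | refl x => exact Iff.rfl
  | symm x y _ ih => exact ⟨fun h => (ih fun h' => hxy ⟨h'.2, h'.1⟩).2 h, fun h => (ih fun h' =>
      hxy ⟨h'.2, h'.1⟩).1 h⟩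
  | trans x y z _ _ ih1 ih2 =>
    have e1 : x ∈ U ↔ y ∈ U := by
      by_contra h
      exact h (ih1 h)
    have e2 : y ∈ U ↔ z ∈ U := by
      by_contra h
      exact h (ih2 h)
    exact e1.trans e2

/-- `m` sets which meet all nonempty directed cuts -/
theorem five_weak (V A : Type) [Fintype V] [Fintype A] (tl hd : A → V) (m : ℕ)
    (hcut : ∀ U : Set V, (∀ a, tl a ∈ U → hd a ∈ U) → (∃ a, tl a ∉ U ∧ hd a ∈ U) →
      5 * m - 4 ≤ {a | tl a ∉ U ∧ hd a ∈ U}.ncard) :
    ∃ J : Fin m → Set A, (∀ i j, i ≠ j → Disjoint (J i) (J j)) ∧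
      ∀ i, ∀ U : Set V, (∀ a, tl a ∈ U → hd a ∈ U) → (∃ a, tl a ∉ U ∧ hd a ∈ U) →
        ∃ a ∈ J i, tl a ∉ U ∧ hd a ∈ U := by
  classical
  let s := wcs tl hd
  let rep : V → V := fun v => (Quotient.mk s v).out
  have hrep : ∀ v, WC tl hd (rep v) v := fun v => Quotient.exact (s := s) (Quotient.out_eq _)
  have hrep2 : ∀ u v, WC tl hd u v → rep u = rep v := fun u v h => by
    change (Quotient.mk s u).out = (Quotient.mk s v).out
    rw [Quotient.sound (s := s) h]
  have hsym : ∀ u v, WC tl hd u v → WC tl hd v u := fun u v h => Relation.EqvGen.symm _ _ h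
  have htr : ∀ u v w, WC tl hd u v → WC tl hd v w → WC tl hd u w :=
    fun u v w h h' => Relation.EqvGen.trans _ _ _ h h'
  let W := Option {v : V // rep v ≠ v}
  let π : V → W := fun v => if h : rep v = v then none else some ⟨v, h⟩
  have hπn : ∀ v, π v = none ↔ rep v = v := by
    intro v
    by_cases h : rep v = v <;> simp [π, h]
  have hπs : ∀ v (h : rep v ≠ v), π v = some ⟨v, h⟩ := fun v h => by simp [π, h]
  have hπs2 : ∀ v w, π v = some w → v = w.1 := by
    intro v w h
    by_cases h1 : rep v = v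
    · rw [(hπn v).2 h1] at h
      exact absurd h (by simp)
    · rw [hπs v h1] at h
      exact congrArg Subtype.val (Option.some.inj h)
  have hD : WoodArc.Dij (fun a => π (tl a)) (fun a => π (hd a)) m := by
    refine five W A _ _ m fun U' hne hun hcl => ?_
    have hcl' : ∀ a, tl a ∈ π ⁻¹' U' → hd a ∈ π ⁻¹' U' := fun a h => hcl a h
    have hx : ∃ x y, WC tl hd x y ∧ ¬(x ∈ π ⁻¹' U' ↔ y ∈ π ⁻¹' U') := by
      by_cases hnone : none ∈ U'
      · obtain ⟨w, hw⟩ := (Set.ne_univ_iff_exists_notMem U').1 hun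
        rcases w with _ | w
        · exact absurd hnone hw
        · refine ⟨rep w.1, w.1, hrep w.1, fun h => ?_⟩
          have h1 : rep w.1 ∈ π ⁻¹' U' := by
            change π (rep w.1) ∈ U'
            rw [(hπn _).2 (hrep2 _ _ (hrep w.1))]
            exact hnone
          have h2 := h.1 h1
          change π w.1 ∈ U' at h2
          rw [hπs w.1 w.2] at h2
          exact hw h2
      · obtain ⟨w, hw⟩ := hne
        rcases w with _ | w
        · exact absurd hw hnone
        · refine ⟨rep w.1, w.1, hrep w.1, fun h => ?_⟩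
          have h1 : w.1 ∈ π ⁻¹' U' := by
            change π w.1 ∈ U'
            rw [hπs w.1 w.2]
            exact hw
          have h2 := h.2 h1
          change π (rep w.1) ∈ U' at h2
          rw [(hπn _).2 (hrep2 _ _ (hrep w.1))] at h2
          exact hnone h2
    obtain ⟨x, y, hxy, hn⟩ := hx
    exact hcut (π ⁻¹' U') hcl' (wc_enter hcl' hxy hn)
  obtain ⟨J, hJ1, hJ2⟩ := hD
  refine ⟨J, hJ1, fun i U hU ⟨a0, ha0, hb0⟩ => ?_⟩
  let H : Set V := {v | WC tl hd v (hd a0)}
  have hHarc : ∀ a, tl a ∈ H ↔ hd a ∈ H := fun a =>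
    ⟨fun h => htr _ _ _ (hsym _ _ (wc_arc tl hd a)) h, fun h => htr _ _ _ (wc_arc tl hd a) h⟩
  have hb0H : hd a0 ∈ H := Relation.EqvGen.refl _
  have ha0H : tl a0 ∈ H := (hHarc a0).2 hb0H
  have hrepH : ∀ v ∈ H, rep v = rep (hd a0) := fun v hv => hrep2 _ _ hv
  by_cases hρ : rep (hd a0) ∈ U
  · -- the representative is in `U`
    obtain ⟨a, haJ, h1, h2⟩ := hJ2 i (π '' (U ∪ Hᶜ)) ⟨π (hd a0), hd a0, Or.inl hb0, rfl⟩ (by
        intro h
        have h1 : π (tl a0) ∈ π '' (U ∪ Hᶜ) := h ▸ Set.mem_univ _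
        have hne : rep (tl a0) ≠ tl a0 := by
          rw [hrepH _ ha0H]
          intro h2
          rw [h2] at hρ
          exact ha0 hρ
        obtain ⟨v, hv, hv2⟩ := h1
        rw [hπs _ hne] at hv2
        have h3 := hπs2 _ _ hv2
        rw [h3] at hv
        rcases hv with hv | hv
        · exact ha0 hv
        · exact hv ha0H) (by
        rintro a ⟨v, hv, hv2⟩
        by_cases hr : rep (tl a) = tl a
        · -- the tail is a representative
          by_cases hH : tl a ∈ H
          · refine ⟨hd a, Or.inl (hU a ?_), rfl⟩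
            rw [← hr, hrepH _ hH]
            exact hρ
          · exact ⟨hd a, Or.inr fun h => hH ((hHarc a).2 h), rfl⟩
        · change π v = π (tl a) at hv2
          rw [hπs _ hr] at hv2
          have h3 := hπs2 _ _ hv2
          change v = tl a at h3
          rw [h3] at hv
          rcases hv with hv | hv
          · exact ⟨hd a, Or.inl (hU a hv), rfl⟩
          · exact ⟨hd a, Or.inr fun h => hv ((hHarc a).2 h), rfl⟩)
    have h3 : tl a ∉ U ∪ Hᶜ := fun h => h1 ⟨tl a, h, rfl⟩
    have h4 : tl a ∉ U := fun h => h3 (Or.inl h)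
    have h5 : tl a ∈ H := by_contra fun h => h3 (Or.inr h)
    have h6 : hd a ∈ H := (hHarc a).1 h5
    refine ⟨a, haJ, h4, ?_⟩
    obtain ⟨v, hv, hv2⟩ := h2
    by_cases hr : rep (hd a) = hd a
    · rw [← hr, hrepH _ h6]
      exact hρ
    · change π v = π (hd a) at hv2
      rw [hπs _ hr] at hv2
      have h7 := hπs2 _ _ hv2
      change v = hd a at h7
      rw [h7] at hv
      rcases hv with hv | hv
      · exact hv
      · exact absurd h6 hv
  · -- the representative is not in `U`
    have hnr : ∀ v ∈ U ∩ H, rep v ≠ v := by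
      intro v hv h
      apply hρ
      rw [← hrepH v hv.2, h]
      exact hv.1
    have hmem : ∀ v, π v ∈ π '' (U ∩ H) ↔ v ∈ U ∩ H := by
      intro v
      refine ⟨?_, fun h => ⟨v, h, rfl⟩⟩
      rintro ⟨w, hw, hw2⟩
      rw [hπs w (hnr w hw)] at hw2
      have := hπs2 v _ hw2.symm
      change v = w at this
      rw [this]
      exact hw
    obtain ⟨a, haJ, h1, h2⟩ := hJ2 i (π '' (U ∩ H)) ⟨π (hd a0), hd a0, ⟨hb0, hb0H⟩, rfl⟩ (by
        intro h
        have h1 : π (tl a0) ∈ π '' (U ∩ H) := h ▸ Set.mem_univ _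
        exact ha0 ((hmem _).1 h1).1) (by
        intro a ha
        have h1 := (hmem _).1 ha
        exact (hmem _).2 ⟨hU a h1.1, (hHarc a).1 h1.2⟩)
    have h3 := (hmem _).1 h2
    refine ⟨a, haJ, fun h => h1 ?_, h3.1⟩
    exact (hmem _).2 ⟨h, (hHarc a).2 h3.2⟩

end WoodF
end

section
/-!
# Digraphs which need not be weakly connected, general form (proof of helper57)

`weak_of`: if every digraph with all directed cuts of at least `k` arcs has `m` disjoint dijoins,
then the same is true when only the nonempty directed cuts are considered.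
-/
open Finset

namespace WoodF

/-- `m` sets which meet all nonempty directed cuts -/
theorem weak_of (k m : ℕ) (hall : ∀ (V A : Type) [Fintype V] [Fintype A] (tl hd : A → V),
      WoodArc.CutGe tl hd k → WoodArc.Dij tl hd m)
    (V A : Type) [Fintype V] [Fintype A] (tl hd : A → V)
    (hcut : ∀ U : Set V, (∀ a, tl a ∈ U → hd a ∈ U) → (∃ a, tl a ∉ U ∧ hd a ∈ U) →
      k ≤ {a | tl a ∉ U ∧ hd a ∈ U}.ncard) :
    ∃ J : Fin m → Set A, (∀ i j, i ≠ j → Disjoint (J i) (J j)) ∧
      ∀ i, ∀ U : Set V, (∀ a, tl a ∈ U → hd a ∈ U) → (∃ a, tl a ∉ U ∧ hd a ∈ U) →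
        ∃ a ∈ J i, tl a ∉ U ∧ hd a ∈ U := by
  classical
  let s := wcs tl hd
  let rep : V → V := fun v => (Quotient.mk s v).out
  have hrep : ∀ v, WC tl hd (rep v) v := fun v => Quotient.exact (s := s) (Quotient.out_eq _)
  have hrep2 : ∀ u v, WC tl hd u v → rep u = rep v := fun u v h => by
    change (Quotient.mk s u).out = (Quotient.mk s v).out
    rw [Quotient.sound (s := s) h]
  have hsym : ∀ u v, WC tl hd u v → WC tl hd v u := fun u v h => Relation.EqvGen.symm _ _ h
  have htr : ∀ u v w, WC tl hd u v → WC tl hd v w → WC tl hd u w :=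
    fun u v w h h' => Relation.EqvGen.trans _ _ _ h h'
  let W := Option {v : V // rep v ≠ v}
  let π : V → W := fun v => if h : rep v = v then none else some ⟨v, h⟩
  have hπn : ∀ v, π v = none ↔ rep v = v := by
    intro v
    by_cases h : rep v = v <;> simp [π, h]
  have hπs : ∀ v (h : rep v ≠ v), π v = some ⟨v, h⟩ := fun v h => by simp [π, h]
  have hπs2 : ∀ v w, π v = some w → v = w.1 := by
    intro v w h
    by_cases h1 : rep v = v
    · rw [(hπn v).2 h1] at h
      exact absurd h (by simp)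
    · rw [hπs v h1] at h
      exact congrArg Subtype.val (Option.some.inj h)
  have hD : WoodArc.Dij (fun a => π (tl a)) (fun a => π (hd a)) m := by
    refine hall W A _ _ fun U' hne hun hcl => ?_
    have hcl' : ∀ a, tl a ∈ π ⁻¹' U' → hd a ∈ π ⁻¹' U' := fun a h => hcl a h
    have hx : ∃ x y, WC tl hd x y ∧ ¬(x ∈ π ⁻¹' U' ↔ y ∈ π ⁻¹' U') := by
      by_cases hnone : none ∈ U'
      · obtain ⟨w, hw⟩ := (Set.ne_univ_iff_exists_notMem U').1 hun
        rcases w with _ | w
        · exact absurd hnone hw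
        · refine ⟨rep w.1, w.1, hrep w.1, fun h => ?_⟩
          have h1 : rep w.1 ∈ π ⁻¹' U' := by
            change π (rep w.1) ∈ U'
            rw [(hπn _).2 (hrep2 _ _ (hrep w.1))]
            exact hnone
          have h2 := h.1 h1
          change π w.1 ∈ U' at h2
          rw [hπs w.1 w.2] at h2
          exact hw h2
      · obtain ⟨w, hw⟩ := hne
        rcases w with _ | w
        · exact absurd hw hnone
        · refine ⟨rep w.1, w.1, hrep w.1, fun h => ?_⟩
          have h1 : w.1 ∈ π ⁻¹' U' := by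
            change π w.1 ∈ U'
            rw [hπs w.1 w.2]
            exact hw
          have h2 := h.2 h1
          change π (rep w.1) ∈ U' at h2
          rw [(hπn _).2 (hrep2 _ _ (hrep w.1))] at h2
          exact hnone h2
    obtain ⟨x, y, hxy, hn⟩ := hx
    exact hcut (π ⁻¹' U') hcl' (wc_enter hcl' hxy hn)
  obtain ⟨J, hJ1, hJ2⟩ := hD
  refine ⟨J, hJ1, fun i U hU ⟨a0, ha0, hb0⟩ => ?_⟩
  let H : Set V := {v | WC tl hd v (hd a0)}
  have hHarc : ∀ a, tl a ∈ H ↔ hd a ∈ H := fun a =>
    ⟨fun h => htr _ _ _ (hsym _ _ (wc_arc tl hd a)) h, fun h => htr _ _ _ (wc_arc tl hd a) h⟩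
  have hb0H : hd a0 ∈ H := Relation.EqvGen.refl _
  have ha0H : tl a0 ∈ H := (hHarc a0).2 hb0H
  have hrepH : ∀ v ∈ H, rep v = rep (hd a0) := fun v hv => hrep2 _ _ hv
  by_cases hρ : rep (hd a0) ∈ U
  · -- the representative is in `U`
    obtain ⟨a, haJ, h1, h2⟩ := hJ2 i (π '' (U ∪ Hᶜ)) ⟨π (hd a0), hd a0, Or.inl hb0, rfl⟩ (by
        intro h
        have h1 : π (tl a0) ∈ π '' (U ∪ Hᶜ) := h ▸ Set.mem_univ _
        have hne : rep (tl a0) ≠ tl a0 := by
          rw [hrepH _ ha0H]
          intro h2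
          rw [h2] at hρ
          exact ha0 hρ
        obtain ⟨v, hv, hv2⟩ := h1
        rw [hπs _ hne] at hv2
        have h3 := hπs2 _ _ hv2
        rw [h3] at hv
        rcases hv with hv | hv
        · exact ha0 hv
        · exact hv ha0H) (by
        rintro a ⟨v, hv, hv2⟩
        by_cases hr : rep (tl a) = tl a
        · -- the tail is a representative
          by_cases hH : tl a ∈ H
          · refine ⟨hd a, Or.inl (hU a ?_), rfl⟩
            rw [← hr, hrepH _ hH]
            exact hρ
          · exact ⟨hd a, Or.inr fun h => hH ((hHarc a).2 h), rfl⟩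
        · change π v = π (tl a) at hv2
          rw [hπs _ hr] at hv2
          have h3 := hπs2 _ _ hv2
          change v = tl a at h3
          rw [h3] at hv
          rcases hv with hv | hv
          · exact ⟨hd a, Or.inl (hU a hv), rfl⟩
          · exact ⟨hd a, Or.inr fun h => hv ((hHarc a).2 h), rfl⟩)
    have h3 : tl a ∉ U ∪ Hᶜ := fun h => h1 ⟨tl a, h, rfl⟩
    have h4 : tl a ∉ U := fun h => h3 (Or.inl h)
    have h5 : tl a ∈ H := by_contra fun h => h3 (Or.inr h)
    have h6 : hd a ∈ H := (hHarc a).1 h5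
    refine ⟨a, haJ, h4, ?_⟩
    obtain ⟨v, hv, hv2⟩ := h2
    by_cases hr : rep (hd a) = hd a
    · rw [← hr, hrepH _ h6]
      exact hρ
    · change π v = π (hd a) at hv2
      rw [hπs _ hr] at hv2
      have h7 := hπs2 _ _ hv2
      change v = hd a at h7
      rw [h7] at hv
      rcases hv with hv | hv
      · exact hv
      · exact absurd h6 hv
  · -- the representative is not in `U`
    have hnr : ∀ v ∈ U ∩ H, rep v ≠ v := by
      intro v hv h
      apply hρ
      rw [← hrepH v hv.2, h]
      exact hv.1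
    have hmem : ∀ v, π v ∈ π '' (U ∩ H) ↔ v ∈ U ∩ H := by
      intro v
      refine ⟨?_, fun h => ⟨v, h, rfl⟩⟩
      rintro ⟨w, hw, hw2⟩
      rw [hπs w (hnr w hw)] at hw2
      have := hπs2 v _ hw2.symm
      change v = w at this
      rw [this]
      exact hw
    obtain ⟨a, haJ, h1, h2⟩ := hJ2 i (π '' (U ∩ H)) ⟨π (hd a0), hd a0, ⟨hb0, hb0H⟩, rfl⟩ (by
        intro h
        have h1 : π (tl a0) ∈ π '' (U ∩ H) := h ▸ Set.mem_univ _
        exact ha0 ((hmem _).1 h1).1) (by
        intro a ha
        have h1 := (hmem _).1 ha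
        exact (hmem _).2 ⟨hU a h1.1, (hHarc a).1 h1.2⟩)
    have h3 := (hmem _).1 h2
    refine ⟨a, haJ, fun h => h1 ?_, h3.1⟩
    exact (hmem _).2 ⟨h, (hHarc a).2 h3.2⟩

end WoodF
end

section
/-!
# One fourth of the minimum directed cut: the theorem
-/
open Finset WoodR

namespace WoodF

/-- every directed cut has at least `4 m - 3` arcs: `m` disjoint dijoins -/
theorem four_of (oty : SpecOTY) (deg : SpecDEG) (m : ℕ) (V A : Type) [Fintype V] [Fintype A]
    (tl hd : A → V) (hcut : WoodArc.CutGe tl hd (4 * m - 3)) : WoodArc.Dij tl hd m := by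
  classical
  rcases Nat.lt_or_ge m 2 with hm | hm
  · interval_cases m
    · exact ⟨fun _ => ∅, fun i => i.elim0, fun i => i.elim0⟩
    · refine ⟨fun _ => Set.univ, fun i j hij => absurd (Subsingleton.elim i j) hij, ?_⟩
      intro i U h1 h2 h3
      have h4 := hcut U h1 h2 h3
      have h5 : {a | tl a ∉ U ∧ hd a ∈ U}.Nonempty := by
        rw [Set.nonempty_iff_ne_empty]
        intro h
        rw [h, Set.ncard_empty] at h4
        omega
      obtain ⟨a, ha⟩ := h5
      exact ⟨a, Set.mem_univ _, ha⟩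
  · refine WoodFV.reduce m (4 * m - 3) (by omega) (fun V A _ _ _ _ tl hd h1 h2 => ?_)
      (Fintype.card V) V A tl hd rfl hcut
    refine end4_two kru unc oty deg cv lpi tl hd m hm (fun S hS1 hS2 =>
      (h2 S hS1 hS2).trans (card_le_card fun a ha => ?_)) h1
    unfold WoodFV.cutc at ha
    unfold crs
    rw [mem_filter] at ha ⊢
    refine ⟨mem_univ _, fun h => ?_⟩
    rcases ha.2 with h3 | h3
    · exact h3.2 (h.1 h3.1)
    · exact h3.1 (h.2 h3.2)

end WoodF
end

section
/-!
# One fourth of the minimum directed cut, unconditional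
-/
namespace WoodF

/-- `m` sets which meet all nonempty directed cuts, if these have at least `4 m - 3` arcs -/
theorem four_weak (V A : Type) [Fintype V] [Fintype A] (tl hd : A → V) (m : ℕ)
    (hcut : ∀ U : Set V, (∀ a, tl a ∈ U → hd a ∈ U) → (∃ a, tl a ∉ U ∧ hd a ∈ U) →
      4 * m - 3 ≤ {a | tl a ∉ U ∧ hd a ∈ U}.ncard) :
    ∃ J : Fin m → Set A, (∀ i j, i ≠ j → Disjoint (J i) (J j)) ∧
      ∀ i, ∀ U : Set V, (∀ a, tl a ∈ U → hd a ∈ U) → (∃ a, tl a ∉ U ∧ hd a ∈ U) →
        ∃ a ∈ J i, tl a ∉ U ∧ hd a ∈ U :=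
  weak_of (4 * m - 3) m (four_of oty deg m) V A tl hd hcut

end WoodF
end
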