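import Pool.Agent.Lib.MP_492a9e_co.FV.Asm
import Pool.Agent.Lib.MP_492a9e_co.FV.Defs4

/-!
# COV: for every length `l` there are a set `B` of arcs which covers the directed cuts of the
closed sets without the root, and a multiset of such sets, packed in `l`, of the same weight
-/

open Finset Matrix WoodR

namespace WoodF

set_option linter.unusedSectionVars false

section
variable {V A : Type} [Fintype V] [DecidableEq V] [Fintype A] [DecidableEq A]

/-- the vertices reachable from `r` by arcs of `B` and reversed arcs -/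
theorem cov_reach (tl hd : A → V) (r : V) (B : Finset A) : ∃ Y : Finset V, r ∈ Y ∧
    (∀ a, hd a ∈ Y → tl a ∈ Y) ∧ (∀ a ∈ B, tl a ∈ Y → hd a ∈ Y) ∧
    ∀ X : Finset V, r ∉ X → Clo tl hd X → (∃ x ∈ X, x ∈ Y) → ∃ a ∈ B, a ∈ entr tl hd X := by
  classical
  let R : V → V → Prop := fun x y =>
    (∃ a ∈ B, tl a = x ∧ hd a = y) ∨ ∃ a, hd a = x ∧ tl a = y
  let Y : Finset V := univ.filter fun v => Relation.ReflTransGen R r v
  have hY : ∀ v, v ∈ Y ↔ Relation.ReflTransGen R r v := fun v => by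
    change v ∈ univ.filter _ ↔ _
    rw [mem_filter]
    exact ⟨fun h => h.2, fun h => ⟨mem_univ _, h⟩⟩
  refine ⟨Y, (hY r).2 Relation.ReflTransGen.refl, fun a ha => ?_, fun a ha h => ?_, ?_⟩
  · rw [hY] at ha ⊢
    exact ha.tail (Or.inr ⟨a, rfl, rfl⟩)
  · rw [hY] at h ⊢
    exact h.tail (Or.inl ⟨a, ha, rfl, rfl⟩)
  · rintro X hr hX ⟨x, hx, hxY⟩
    rw [hY] at hxY
    by_contra hno
    push Not at hno
    have key : ∀ v, Relation.ReflTransGen R r v → v ∉ X := by
      intro v hv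
      induction hv with
      | refl => exact hr
      | tail _ h ih =>
        rename_i b c _
        intro hc
        rcases h with ⟨a, ha, h1, h2⟩ | ⟨a, h1, h2⟩
        · exact hno a ha (mem_entr.2 ⟨h1 ▸ ih, h2 ▸ hc⟩)
        · exact ih (h1 ▸ hX a (h2 ▸ hc))
    exact key x hxY hx

/-- COV -/
theorem cov_aux (tl hd : A → V) (r : V) (hconn : Conn tl hd 1) : ∀ (k : ℕ) (l : A → ℕ),
    ∑ a, l a = k → ∃ (B : Finset A) (n : Finset V → ℕ), Cov tl hd r B ∧
      (∀ a, len tl hd r n a ≤ l a) ∧ ∑ a ∈ B, l a ≤ ∑ X ∈ F0 tl hd r, n X := by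
  classical
  intro k
  induction k using Nat.strong_induction_on with
  | _ k ih =>
  intro l hl
  let Z : Finset A := univ.filter fun a => l a = 0
  have hZ : ∀ a, a ∈ Z ↔ l a = 0 := fun a => by
    change a ∈ univ.filter _ ↔ _
    rw [mem_filter]
    exact ⟨fun h => h.2, fun h => ⟨mem_univ _, h⟩⟩
  by_cases hcov : Cov tl hd r Z
  · refine ⟨Z, fun _ => 0, hcov, fun a => ?_, ?_⟩
    · unfold len
      simp
    · rw [sum_eq_zero fun a ha => (hZ a).1 ha]
      exact Nat.zero_le _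
  -- a minimal set which is not covered
  unfold Cov at hcov
  push Not at hcov
  obtain ⟨U, hU, hmin⟩ := exists_min_image
    ((F0 tl hd r).filter fun U => ∀ a ∈ Z, a ∉ entr tl hd U) (fun U => U.card)
    (by
      obtain ⟨U, h1, h2⟩ := hcov
      exact ⟨U, mem_filter.2 ⟨h1, h2⟩⟩)
  rw [mem_filter] at hU
  obtain ⟨hU0, hUZ⟩ := hU
  obtain ⟨hUne, hUc, hUr⟩ := mem_F0.1 hU0
  have hpos : ∀ a ∈ entr tl hd U, 1 ≤ l a := by
    intro a ha
    by_contra h
    exact hUZ a ((hZ a).2 (by omega)) ha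
  obtain ⟨b0, hb0⟩ : (entr tl hd U).Nonempty := by
    rw [← card_pos, ← crs_closed hUc]
    exact hconn U hUne fun h => hUr (h ▸ mem_univ _)
  let l' : A → ℕ := fun a => if a ∈ entr tl hd U then l a - 1 else l a
  have hl'1 : ∀ a ∈ entr tl hd U, l a = l' a + 1 := by
    intro a ha
    have := hpos a ha
    simp only [l']
    rw [if_pos ha]
    omega
  have hl'2 : ∀ a, a ∉ entr tl hd U → l a = l' a := by
    intro a ha
    simp only [l']
    rw [if_neg ha]
  have hlt : ∑ a, l' a < k := by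
    rw [← hl]
    refine sum_lt_sum (fun a _ => ?_) ⟨b0, mem_univ _, by rw [hl'1 b0 hb0]; omega⟩
    by_cases ha : a ∈ entr tl hd U
    · rw [hl'1 a ha]
      omega
    · rw [hl'2 a ha]
  obtain ⟨B', n', hB', hn', hw⟩ := ih _ hlt l' rfl
  let B1 : Finset A := B'.filter fun a => a ∉ entr tl hd U
  have hB1 : ∀ a, a ∈ B1 ↔ a ∈ B' ∧ a ∉ entr tl hd U := fun a => by
    change a ∈ B'.filter _ ↔ _
    rw [mem_filter]
  obtain ⟨Y, hrY, hYb, hYf, hYX⟩ := cov_reach tl hd r B1
  -- `U` is disjoint from `Y`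
  have hUY : ∀ v ∈ U, v ∉ Y := by
    intro v hv hvY
    obtain ⟨a, ha, ha2⟩ := hYX U hUr hUc ⟨v, hv, hvY⟩
    exact ((hB1 a).1 ha).2 ha2
  obtain ⟨a0, ha0B, ha0⟩ := hB' Yᶜ (mem_F0.2 ⟨by
      obtain ⟨v, hv⟩ := hUne
      exact ⟨v, mem_compl.2 (hUY v hv)⟩, by
      intro a ha
      rw [mem_compl] at ha ⊢
      exact fun h => ha (hYb a h), by
      rw [mem_compl, not_not]
      exact hrY⟩)
  rw [mem_entr, mem_compl, not_not, mem_compl] at ha0
  have ha0U : a0 ∈ entr tl hd U := by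
    by_contra h
    exact ha0.2 (hYf a0 ((hB1 a0).2 ⟨ha0B, h⟩) ha0.1)
  let W : Finset A := univ.filter fun a => l a = 0 ∧ tl a ∈ U ∧ hd a ∈ U
  have hW : ∀ a, a ∈ W ↔ l a = 0 ∧ tl a ∈ U ∧ hd a ∈ U := fun a => by
    change a ∈ univ.filter _ ↔ _
    rw [mem_filter]
    exact ⟨fun h => h.2, fun h => ⟨mem_univ _, h⟩⟩
  refine ⟨insert a0 (B1 ∪ W), fun X => n' X + if X = U then 1 else 0, ?_, fun a => ?_, ?_⟩
  · -- the cover
    intro X hX
    obtain ⟨hXne, hXc, hXr⟩ := mem_F0.1 hX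
    by_cases h1 : ∃ x ∈ X, x ∈ Y
    · obtain ⟨a, ha, ha2⟩ := hYX X hXr hXc h1
      exact ⟨a, mem_insert_of_mem (mem_union_left _ ha), ha2⟩
    by_cases h2 : hd a0 ∈ X
    · exact ⟨a0, mem_insert_self _ _, mem_entr.2 ⟨fun h => h1 ⟨_, h, ha0.1⟩, h2⟩⟩
    by_cases h3 : (X ∩ U).Nonempty
    · have h4 : X ∩ U ∈ F0 tl hd r := by
        refine mem_F0.2 ⟨h3, fun a ha => ?_, fun h => hXr (mem_inter.1 h).1⟩
        rw [mem_inter] at ha ⊢
        exact ⟨hXc a ha.1, hUc a ha.2⟩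
      have h5 : (X ∩ U).card < U.card := by
        refine card_lt_card ⟨inter_subset_right, fun h => h2 ?_⟩
        exact (mem_inter.1 (h (mem_entr.1 ha0U).2)).1
      have h6 : ∃ a ∈ Z, a ∈ entr tl hd (X ∩ U) := by
        by_contra h
        push Not at h
        have := hmin _ (mem_filter.2 ⟨h4, h⟩)
        omega
      obtain ⟨a, ha, ha2⟩ := h6
      rw [mem_entr, mem_inter, mem_inter] at ha2
      have h7 : tl a ∈ U := by
        by_contra h
        exact hUZ a ha (mem_entr.2 ⟨h, ha2.2.2⟩)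
      refine ⟨a, mem_insert_of_mem (mem_union_right _ ((hW a).2 ⟨(hZ a).1 ha, h7, ha2.2.2⟩)), ?_⟩
      exact mem_entr.2 ⟨fun h => ha2.1 ⟨h, h7⟩, ha2.2.1⟩
    · obtain ⟨a, ha, ha2⟩ := hB' X hX
      refine ⟨a, mem_insert_of_mem (mem_union_left _ ((hB1 a).2 ⟨ha, fun h => h3 ?_⟩)), ha2⟩
      exact ⟨hd a, mem_inter.2 ⟨(mem_entr.1 ha2).2, (mem_entr.1 h).2⟩⟩
  · -- the packing
    have h1 : len tl hd r (fun X => n' X + if X = U then 1 else 0) a =
        len tl hd r n' a + if a ∈ entr tl hd U then 1 else 0 := by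
      unfold len
      have h2 : ∀ X ∈ F0 tl hd r,
          (if a ∈ entr tl hd X then n' X + (if X = U then 1 else 0) else 0) =
          (if a ∈ entr tl hd X then n' X else 0) +
            if X = U then (if a ∈ entr tl hd U then 1 else 0) else 0 := by
        intro X _
        by_cases h3 : X = U
        · subst h3
          by_cases h4 : a ∈ entr tl hd X <;> simp [h4]
        · by_cases h4 : a ∈ entr tl hd X <;> simp [h3, h4]
      rw [sum_congr rfl h2, sum_add_distrib, sum_ite_eq' (F0 tl hd r) U, if_pos hU0]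
    rw [h1]
    have h2 := hn' a
    by_cases ha : a ∈ entr tl hd U
    · rw [if_pos ha, hl'1 a ha]
      omega
    · rw [if_neg ha, hl'2 a ha]
      omega
  · -- the weight
    have h1 : ∑ X ∈ F0 tl hd r, (n' X + if X = U then 1 else 0) =
        ∑ X ∈ F0 tl hd r, n' X + 1 := by
      rw [sum_add_distrib, sum_ite_eq' (F0 tl hd r) U, if_pos hU0]
    have h2 : a0 ∉ B1 ∪ W := by
      intro h
      rcases mem_union.1 h with h | h
      · exact ((hB1 a0).1 h).2 ha0U
      · exact (mem_entr.1 ha0U).1 ((hW a0).1 h).2.1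
    have h3 : ∑ a ∈ W, l a = 0 := sum_eq_zero fun a ha => ((hW a).1 ha).1
    have h4 := sum_union_inter (s₁ := B1) (s₂ := W) (f := l)
    have h5 : ∑ a ∈ B1, l a = ∑ a ∈ B1, l' a :=
      sum_congr rfl fun a ha => hl'2 a ((hB1 a).1 ha).2
    have h6 : ∑ a ∈ insert a0 B1, l' a ≤ ∑ a ∈ B', l' a :=
      sum_le_sum_of_subset (insert_subset ha0B (filter_subset _ _))
    rw [sum_insert fun h => h2 (mem_union_left _ h)] at h6
    rw [h1, sum_insert h2, hl'1 a0 ha0U]
    omega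

/-- COV -/
theorem cov : SpecCOV := by
  intro V A _ _ _ _ tl hd r hconn l
  exact cov_aux tl hd r hconn _ l rfl

end

end WoodF
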